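import Pool.Agent.Lib.MP_d6ddbd_nt.GC.Stmt
import Pool.Agent.Lib.MP_d6ddbd_nt.KA.All0

/-!
A certificate for the rank of a quadratic twist of `X₀(11)`: the assembly.
-/

set_option autoImplicit false
set_option maxSynthPendingDepth 3

open Pool.Agent.Lib.MP_d6ddbd_nt.K11
open Pool.Agent.Lib.MP_d6ddbd_nt.KI (tw Cb Sel sel_pt sel_zero ex_div alg_of_pow tw_n tw_z tw_sub
  qd_ne cnt_thm pt_thm)
open Pool.Agent.Lib.MP_d6ddbd_nt.KI.Pts (Inv no2)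
open Pool.Agent.Lib.MP_d6ddbd_nt.KA (TD Blk wA twA Ok Rl yy KY qchAll chainAll gq_thm)
open Pool.Agent.Sand.Check

noncomputable section

namespace Pool.Agent.Lib.MP_d6ddbd_nt.GC

namespace Asm

variable {c : ℤ} {P Q S : Pt}

theorem cb_pt {e : ℕ} {z : G → Pt} (h : Cb c z) (hz : ∀ σ, z σ = tw c σ S - S)
    (hS : 2 ^ e • S ∈ Inv c) : ∃ R ∈ Inv c, 2 ^ e • S = 2 ^ e • R := by
  obtain ⟨T, i, t1, t2⟩ := h
  have f : S - T ∈ Inv c := fun σ => by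
    rw [tw_sub]
    linear_combination (norm := module) t2 σ - hz σ
  have g : 2 ^ e • T = 0 := no2 i _ (by
    have := sub_mem hS (nsmul_mem f (2 ^ e))
    rwa [smul_sub, sub_sub_cancel] at this) (by rw [smul_comm, t1, smul_zero])
  exact ⟨_, f, by rw [smul_sub, g, sub_zero]⟩

theorem cancel {e : ℕ} (hP : P ∈ Inv c) (hQ : Q ∈ Inv c) (h : 2 ^ e • P = 2 ^ e • Q) : P = Q :=
  sub_eq_zero.1 (no2 e _ (sub_mem hP hQ) (by rw [smul_sub, h, sub_self]))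

theorem odd_div {u : ℤ} {j e : ℕ} (hu : Odd u) (hP : P ∈ Inv c) (hQ : Q ∈ Inv c)
    (h : u • P = 2 ^ (j + e) • Q) : ∃ R ∈ Inv c, P = 2 ^ j • R := by
  obtain ⟨v, w, k⟩ : IsCoprime u (2 ^ j) :=
    (Int.isCoprime_two_right.2 hu).pow_right
  refine ⟨_, add_mem (zsmul_mem (nsmul_mem hQ (2 ^ e)) v) (zsmul_mem hP w), ?_⟩
  have : P = (v * u + w * 2 ^ j) • P := by rw [k, one_smul]
  linear_combination (norm := module) this + v • h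

theorem indep (hP : P ∈ Inv c) (hQ : Q ∈ Inv c) (h1 : ¬ ∃ R ∈ Inv c, P = 2 • R)
    (h2 : ¬ ∃ R ∈ Inv c, Q = 2 • R) (h3 : ¬ ∃ R ∈ Inv c, P - Q = 2 • R) (e : ℕ) :
    ∀ (v w : ℤ), ∀ R ∈ Inv c, v • P - w • Q = 2 ^ e • R → 2 ^ e ∣ v := by
  induction e with
  | zero => simp
  | succ e ih =>
    intro v w R hR h
    have m := fun a b : ℤ =>
      add_mem (add_mem (nsmul_mem hR (2 ^ e)) (zsmul_mem hP a)) (zsmul_mem hQ b)
    obtain ⟨a, rfl | rfl⟩ := Int.even_or_odd' v <;> obtain ⟨b, rfl | rfl⟩ := Int.even_or_odd' w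
    · rw [pow_succ']
      refine mul_dvd_mul_left _ (ih a b R hR (cancel (e := 1)
        (sub_mem (zsmul_mem hP a) (zsmul_mem hQ b)) (nsmul_mem hR _) ?_))
      linear_combination (norm := module) h
    · exact absurd ⟨_, neg_mem (m (-a) b), by linear_combination (norm := module) -h⟩ h2
    · exact absurd ⟨_, m (-a) b, by linear_combination (norm := module) h⟩ h1
    · exact absurd ⟨_, m (-a) b, by linear_combination (norm := module) h⟩ h3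

theorem alg_inv (hc : c ≠ 0) (hP : P ∈ Inv c) : AlgP P := by
  by_cases h0 : P = 0
  · exact h0 ▸ KI.alg_zero
  obtain ⟨x, y, -, a, b⟩ := KI.Pts.toTw hc hP h0
  exact ⟨a ▸ isAlgebraic_ratCast ℚ x, b ▸ (isAlgebraic_ratCast ℚ y).mul (KI.rt_alg c)⟩

theorem ok_cn {d δ : ℤ} (h : TD d δ c) : Ok (cn d c) := by
  have s := KA.Chain.sf h
  rw [h.eq, mul_assoc] at s
  refine ⟨Int.squarefree_natAbs.2 s.of_mul_right, Int.natAbs_odd.2 (Odd.mul ?_ ?_)⟩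
  · rcases KA.Chain.ee_or d with e | e <;> rw [e] <;> decide
  · exact Int.odd_iff.2 (by have := h.fam.m4; omega)

theorem sm_scale (N : ℕ) (L : List (ℤ × TC)) :
    Sm (L.map fun e => (N * e.1, e.2)) = N • Sm L := by
  induction L with
  | nil => simp [Sm]
  | cons e L ih =>
    simp only [Sm, List.map_cons, List.sum_cons, smul_add] at ih ⊢
    rw [ih, mul_smul, natCast_zsmul]

theorem sound (hS : SysStmt) (hK : KolStmt) {d δ b : ℤ} {q : ℕ} [Fact (q % 4 = 3)]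
    {T : List (ℕ × ℤ)} (ha : Ar d δ c q b) (hT : Sy q (cn d c) b T)
    (h : ∀ c' : ℤ, c' ≠ 0 → HP δ q (cn d c) T ∈ Inv c' →
      ∃ j : ℕ, ∀ R ∈ Inv c', HP δ q (cn d c) T ≠ 2 ^ j • R) : Rk d := by
  obtain ⟨L, _, _, θ, hθ⟩ := Final.exists_cub
  have d0 := (KA.Chain.sf ha.td).ne_zero
  have c0 : twA q d ∅ ≠ 0 := by
    rcases KA.Chain.twA_or q d ∅ with e | e <;> rw [e]
    · exact d0
    · exact neg_ne_zero.2 (mul_ne_zero (by exact_mod_cast ha.qd.qf.pr.ne_zero) d0)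
  obtain ⟨A, hA⟩ := hK q d δ c ha.td ha.nb ha.qd ha.m8
  obtain ⟨j, hj⟩ := h _ c0 (hS L θ hθ q d δ c b T 0 ha hT).1
  obtain ⟨hP, k, m, W, x, S, u, sk, km, hW, hZ, aS, hx, hu, e, -⟩ :=
    hS L θ hθ q d δ c b T (A + j) ha hT
  generalize HP δ q (cn d c) T = P at hj hP e
  have no : ∀ R ∈ Inv (twA q d ∅), 2 ^ A • u • P ≠ 2 ^ k • R := fun R hR t => by
    obtain ⟨i, rfl⟩ : ∃ i, k = A + (j + i) := ⟨k - (A + j), by omega⟩
    rw [pow_add, mul_smul] at t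
    obtain ⟨R', a, b⟩ := odd_div hu hP hR (cancel (zsmul_mem hP u) (nsmul_mem hR _) t)
    exact hj R' a b
  have nc : ¬ Cb (twA q d ∅) (2 ^ A • x ∅) := fun t => by
    obtain ⟨i, rfl⟩ : ∃ i, k = j + i + A := ⟨k - (A + j), by omega⟩
    have e' : 2 ^ (j + i) • 2 ^ A • S = u • P := by rw [← mul_smul, ← pow_add, e]
    obtain ⟨R, a, b⟩ := cb_pt (e := j + i) (S := 2 ^ A • S) t
      (fun σ => by rw [Pi.smul_apply, hx, tw_n, smul_sub]) (e' ▸ zsmul_mem hP u)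
    obtain ⟨R', a, b⟩ := odd_div hu hP a (e' ▸ b)
    exact hj R' a b
  have key : ∀ R ∈ Inv d, (¬ ∃ R' ∈ Inv d, R = 2 • R') → ∃ R', 2 ^ k • R' = R ∧
      Rl q d x (fun σ => tw d σ R' - R') ∅ A := fun R hR n => by
    obtain ⟨R', rfl⟩ := ex_div k R
    refine ⟨R', rfl, hA k m W x _ (by omega) km hW hZ
      (sel_pt (alg_of_pow (alg_inv d0 hR)) hR) fun t => n ?_⟩
    have e' : 2 ^ 1 • 2 ^ (k - 1) • R' = 2 ^ k • R' := by
      rw [← mul_smul, ← pow_add]; congr 2; omega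
    have := cb_pt (e := 1) (S := 2 ^ (k - 1) • R') t
      (fun σ => by rw [Pi.smul_apply, tw_n, smul_sub]) (e' ▸ hR)
    rwa [e', pow_one] at this
  by_cases hw : wA d = -1
  · have t0 : twA q d ∅ = d := by rw [twA, if_pos (by simpa using hw)]
    have key' : ∀ R ∈ Inv d, (¬ ∃ R' ∈ Inv d, R = 2 • R') → ∃ v : ℤ, ∃ R' ∈ Inv d,
        2 ^ A • u • P - v • R = 2 ^ k • R' := fun R hR n => by
      obtain ⟨R', rfl, v, hv⟩ := key R hR n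
      rw [yy, if_pos t0] at hv
      have e' : 2 ^ k • (2 ^ A • S - v • R') = 2 ^ A • u • P - v • 2 ^ k • R' := by
        rw [smul_sub, smul_comm, e, smul_comm (2 ^ k) v]
      rw [t0] at hv hx hP
      exact ⟨v, e' ▸ cb_pt (e := k) (S := 2 ^ A • S - v • R') hv (fun σ => by
        simp only [Pi.sub_apply, Pi.smul_apply, hx, tw_sub, tw_n, tw_z, smul_sub]
        abel) (e' ▸ sub_mem (nsmul_mem (zsmul_mem hP u) _) (zsmul_mem hR v))⟩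
    have cy := hZ.cy ∅ fun _ h => absurd h (Finset.notMem_empty _)
    rw [t0] at cy hx nc no hP
    refine ⟨d0, fun h => absurd hw h, fun _ => pt_thm.1 d k _ S d0 cy aS hx fun t => nc (t.nat _),
      fun P₁ h₁ P₂ h₂ => ?_⟩
    by_contra! n
    have n1 : ¬ ∃ R ∈ Inv d, P₁ = 2 • R := by simpa using n.1
    have n2 : ¬ ∃ R ∈ Inv d, P₂ = 2 • R := by simpa using n.2.1
    obtain ⟨v₁, R₁, r₁, e₁⟩ := key' _ h₁ n1
    obtain ⟨v₂, R₂, r₂, e₂⟩ := key' _ h₂ n2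
    obtain ⟨w, rfl⟩ := indep h₁ h₂ n1 n2 (by simpa using n.2.2) k v₁ v₂ _ (sub_mem r₂ r₁)
      (by linear_combination (norm := module) e₂ - e₁)
    exact no _ (add_mem r₁ (zsmul_mem h₁ w)) (by linear_combination (norm := module) e₁)
  · have t0 : twA q d ∅ ≠ d := by
      rw [twA, if_neg (by simpa using hw)]
      exact qd_ne d0
    have all : ∀ R ∈ Inv d, ∃ R' ∈ Inv d, R = 2 • R' := fun R hR => by_contra fun n => by
      obtain ⟨R', -, v, hv⟩ := key R hR n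
      rw [yy, if_neg t0, smul_zero, sub_zero] at hv
      exact nc hv
    exact ⟨d0, fun _ => KI.Pts.fin d0 fun R hR _ => (all R hR).imp fun _ t => ⟨t.1, t.2.symm⟩,
      fun h => absurd h hw, fun P₁ h₁ _ _ => Or.inl (all _ h₁)⟩

theorem complete (hS : SysStmt) (hY : SyStmt) {N : ℕ} (hN : N ≠ 0) {d : ℤ} (sd : Squarefree d)
    (nb : ¬ Blk d) (hb : KI.Bd d) : ∃ (δ c : ℤ) (q : ℕ) (b : ℤ) (T : List (ℕ × ℤ)), Ar d δ c q b ∧
      (∃ _ : Fact (q % 4 = 3), Sy q (cn d c) b T) ∧ N • HP δ q (cn d c) T ≠ 0 := by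
  obtain ⟨δ, c, hd⟩ := KA.Chain.ex_td sd
  obtain ⟨L, _, _, θ, hθ⟩ := Final.exists_cub
  obtain ⟨hf, j, hj⟩ := cnt_thm.1 d hb
  obtain ⟨q, hq, h2, -⟩ := qchAll L θ hθ d δ c 0 hd nb hf (sel_zero d 1 ∅)
  have qf := hq.qd.qf
  have : Fact (q % 4 = 3) := ⟨qf.m4⟩
  obtain ⟨b, rb⟩ := ((kerAll q qf.pr qf.big 1 one_ne_zero).2.2.2.2.1 11 (by norm_num)
    (by norm_num)).1 qf.s11
  have ha : Ar d δ c q b :=
    ⟨hd, nb, hq.qd, hq.m8, fun _ => (gq_thm KA.const_thm L θ hθ q qf hq.qd.ty).1 hq.fg, rb⟩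
  obtain ⟨T, hT⟩ := hY.2 q (cn d c) b qf (ok_cn hd)
  refine ⟨δ, c, q, b, T, ha, ⟨this, hT⟩, fun z => ?_⟩
  obtain ⟨A, hA⟩ := chainAll L θ hθ q d δ c (j + 1) hd nb hq.qd hq.m8
  obtain ⟨hP, k, m, W, x, S, u, sk, km, hW, hZ, aS, hx, -, e, co⟩ :=
    hS L θ hθ q d δ c b T (0 + A) ha hT
  generalize HP δ q (cn d c) T = P at z hP e
  obtain ⟨y, hy⟩ := cnt_thm.2.1 d j k hj
  obtain ⟨y', hy'⟩ := cnt_thm.2.1 _ 1 k h2
  obtain ⟨n, a1, -, a2, -, a3⟩ := hA k (0 + A) m W x 0 y y' (by omega) km hW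
    ⟨hZ.cy, hZ.sel, hZ.atp, co hq, S, aS, hx⟩ (sel_zero d k ∅) (Or.inl rfl)
    (hy.mono (by omega)) (hy'.mono (by omega))
  refine (co hq n a1 a2).2 (KA.Chain.rl_zero.1 ((a3 0).1 (KA.Chain.rl_zero.2 ?_)))
  obtain ⟨i, N', o, rfl⟩ := Nat.exists_eq_two_pow_mul_odd hN
  have z' : N' • P = 0 := no2 i _ (nsmul_mem hP _) (by rwa [← mul_smul])
  obtain ⟨R, r, t⟩ := odd_div (u := N') (j := k) (e := 0) (by exact_mod_cast o) hP (zero_mem _)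
    (by rw [natCast_zsmul, z', smul_zero])
  refine ⟨S - u • R, k, by rw [smul_sub, e, smul_comm, ← t, sub_self], fun σ => ?_⟩
  rw [pow_zero, one_smul, hx, tw_sub, tw_z, r σ]
  abel

end Asm

open Asm in
theorem cert_of (hA : ArStmt) (hY : SyStmt) (hN : NumStmt) (hH : HtStmt) (hS : SysStmt)
    (hK : KolStmt) : CertStmt := by
  obtain ⟨N, N0, hH⟩ := hH
  obtain ⟨a1, a2, -, F, a3, a4⟩ := hA
  refine ⟨fun d => ∃ w : (ℤ × ℤ) × ℕ × ℤ × List (ℕ × ℤ), Ar d w.1.1 w.1.2 w.2.1 w.2.2.1 ∧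
    (QF w.2.1 ∧ Ok (cn d w.1.2) ∧ Rt w.2.1 11 w.2.2.1 ∧
      ∃ _ : Fact (w.2.1 % 4 = 3), Sy w.2.1 (cn d w.1.2) w.2.2.1 w.2.2.2) ∧
    Sm ((F (w.1.1, w.2.1, cn d w.1.2, w.2.2.2)).map fun e => (N * e.1, e.2)) ≠ 0,
    RE.toREPred (RE.ex ?_), ?_, fun d sd nb hb => ?_⟩
  · have p : PR fun w : ℤ × (ℤ × ℤ) × ℕ × ℤ × List (ℕ × ℤ) => cn w.1 w.2.1.2 :=
      a2.comp (g := fun w : ℤ × (ℤ × ℤ) × ℕ × ℤ × List (ℕ × ℤ) => (w.1, w.2.1.2)) (by fun_prop)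
    exact (a1.comp (f := fun w : ℤ × (ℤ × ℤ) × ℕ × ℤ × List (ℕ × ℤ) =>
      (w.1, w.2.1.1, w.2.1.2, w.2.2.1, w.2.2.2.1)) (by fun_prop)).re.and
      ((hY.1.comp (f := fun w : ℤ × (ℤ × ℤ) × ℕ × ℤ × List (ℕ × ℤ) =>
        (w.2.2.1, cn w.1 w.2.1.2, w.2.2.2.1, w.2.2.2.2)) (by fun_prop)).and
      (RE.comp (P := fun L => Sm L ≠ 0) hN (PR.map (g := fun _ (e : ℤ × TC) => ((N : ℤ) * e.1, e.2))
        (a3.comp (g := fun w : ℤ × (ℤ × ℤ) × ℕ × ℤ × List (ℕ × ℤ) =>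
          (w.2.1.1, w.2.2.1, cn w.1 w.2.1.2, w.2.2.2.2)) (by fun_prop)) (by fun_prop))))
  · rintro d ⟨⟨⟨δ, c⟩, q, b, T⟩, h1, ⟨-, h2, -, _, h3⟩, h4⟩
    rw [sm_scale, a4 _ _ _ _ h2] at h4
    exact sound hS hK h1 h3 fun c' c0 h => hH c' c0 _ h h4
  · obtain ⟨δ, c, q, b, T, h1, h2, h3⟩ := complete hS hY N0 sd nb hb
    exact ⟨((δ, c), q, b, T), h1, ⟨h1.qd.qf, ok_cn h1.td, h1.rt, h2⟩, by
      rwa [sm_scale, a4 _ _ _ _ (ok_cn h1.td)]⟩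

end Pool.Agent.Lib.MP_d6ddbd_nt.GC
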