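import Pool.Agent.Lib.MP_d6ddbd_nt.GC.Stmt
import Pool.Agent.Lib.MP_d6ddbd_nt.KA.All0
import Pool.Agent.Lib.MP_d6ddbd_nt.K11.Final

/-!
The choice of the next prime of the descending chain.
-/

set_option autoImplicit false
set_option maxSynthPendingDepth 3

open NumberField
open Pool.Agent.Lib.MP_02f36d_nt (xc yc)
open Pool.Agent.Stark (og SqCl cl cl_mul cl_eq_zero cl_eq_cl)
open Pool.Agent.Lib.MP_d6ddbd_nt.K11
open Pool.Agent.Lib.MP_d6ddbd_nt.K11.R1 (wl_ne)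
open Pool.Agent.Lib.MP_d6ddbd_nt.KI (rt cq tw Cy Cb Kl Sel Hm Wq Ag)
open Pool.Agent.Lib.MP_d6ddbd_nt.KI.Cm (fc_emb emb_ext cy_coc nn_mem kw hm_iff tw_zs cyc pt_root
  fix_root tor_one tor_smul kum_mul coc_add)
open Pool.Agent.Lib.MP_d6ddbd_nt.KI.Ch (odd_cancel cy_ag cy_pow cy_top cb_ff)
open Pool.Agent.Lib.MP_d6ddbd_nt.KA (al0 Bx cmAAll nvAll dkAAll scAll cha_thm surjA_thm)
open Pool.Agent.Lib.MP_d6ddbd_nt.KA.ChA (sep ku_zs td_sf td_nd)

noncomputable section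

namespace Pool.Agent.Lib.MP_d6ddbd_nt.GC

theorem ch_thm' : ChStmt := by
  classical
  obtain ⟨L, _, _, θ, hθ⟩ := Final.exists_cub
  intro q d δ c k m W n ξ y z z' N td hb hq h8 hk hkm hW hn hξ hnb hy hy0 hz hz'
  have hCm := cmAAll
  have hCha := cha_thm (surjA_thm cmAAll)
  have hNv := nvAll
  have hDk := dkAAll
  have hSc := scAll
  have hPr := pr_thm
  have hK := kumAll
  have hL1 := link1All
  have hFb := KI.fb_thm
  have hFv := KI.fv_thm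
  have hm : m ≠ 0 := by omega
  have n11 : 11 ∉ n := fun h => (hn 11 h).2.2.1 rfl
  have n2 : 2 ∉ n := fun h => (hn 2 h).2.1 rfl
  have cξ := cy_coc hξ.cy
  obtain ⟨a, w0, w1, w2⟩ := (hK L θ hθ).1 _ cξ
  have ha := hDk L θ hθ d δ c n a _ td n2 n11 (fun p hp => (hn p hp).2.2.2.2.1) w0 w1 cξ w2 hξ.kl
  have hns : ¬ IsSquare a := fun i => hnb (KI.Cm.cob_cb (((hK L θ hθ).2 a ξ w0 cξ w2).1 i))
  have hw := ha.wa
  have sa := hSc L θ hθ d δ c n a td n11 ha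
  have z0 : al0 θ ≠ 0 := fun i => sa.2.1 hb (by rw [i, mul_zero]; exact IsSquare.zero)
  have na : cl a ≠ 0 := fun i => hns ((cl_eq_zero hw.ne).1 i)
  have nb : cl a ≠ cl (al0 θ) := fun i => sa.2.1 hb ((cl_eq_cl hw.ne z0).1 i)
  obtain ⟨e', -, he'⟩ := (hPr L θ hθ).2.2.2.2.2.2.2.2.2
  let e : L →+* ℂ := Complex.ofRealHom.comp e'
  have hce : ∀ y, cj (e y) = e y := fun y => Complex.conj_ofReal _
  obtain ⟨s, hs, hcs⟩ : ∃ s : ℂ, s ^ 2 = e a ∧ cj s = s := ⟨(Real.sqrt (e' a) : ℝ), by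
    show ((Real.sqrt (e' a) : ℝ) : ℂ) ^ 2 = ((e' a : ℝ) : ℂ)
    rw [← Complex.ofReal_pow, Real.sq_sqrt (he' a hw.ne hw.sq).le], Complex.conj_ofReal _⟩
  have s0 : s ≠ 0 := fun b => hw.ne ((map_eq_zero e).1 (by rw [← hs, b]; simp))
  have f0 := fc_emb hθ e
  have fx : ∀ σ : G, (∀ T : Pt, 2 • T = 0 → σ • T = T) → σ (s ^ 2) = s ^ 2 := fun σ hσ => by
    rw [hs]
    exact emb_ext hPr hθ (e := σ.toRingHom.comp e) (fix_root hσ f0) a
  obtain ⟨T, T2, T1⟩ : ∃ T : Pt, 2 • T = 0 ∧ wl (e θ) T ≠ 0 := by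
    obtain ⟨ω, -, w⟩ := cyc
    obtain ⟨b1, b2, b3⟩ := pt_root (x := ω (e θ)) (by rw [← R1.map_fc, f0, map_zero])
    exact ⟨_, b2, by rw [wl_ne b1 (by rw [b3]; exact (w _ f0).1)]; exact one_ne_zero⟩
  have ga : a ≠ 0 ∧ IsSquare (Algebra.norm ℚ a) := ⟨hw.ne, hw.sq⟩
  obtain ⟨g, g1, g2, g3⟩ : ∃ g, Hm m W g ∧ g s ≠ s ∧
      (y = 0 ∨ ¬ Cb d (2 ^ (k - 1) • y) ∧ 2 ^ (k - 1) • y g = 0) := by
    rcases hy0 with b | ⟨b1, b2⟩
    · obtain ⟨l, hl, l0, -⟩ := sep (u := cl (al0 θ)) (v := 0) na nb na (by rwa [add_zero])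
      obtain ⟨g, g1, g2⟩ := hCm L θ hθ q m W {a} l T hm hW (by simpa using ga) (Or.inr l0) T2
      exact ⟨g, g1, fun i => by simpa [hl, T1] using ((g2 a (by simp)).1 e s hs).1 i, Or.inl b⟩
    have c1 := cy_top hy.cy hk
    have c2 := cy_coc c1
    obtain ⟨α, a0, a1, a2⟩ := (hK L θ hθ).1 _ c2
    have a3 := hDk L θ hθ d δ c n α _ td n2 n11 (fun p hp => (hn p hp).2.2.2.2.1) a0 a1 c2 a2 (by
      have := ku_zs (c := d) (n := n) hy.kl ((2 ^ (k - 1) : ℕ) : ℤ)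
      rwa [natCast_zsmul] at this)
    obtain ⟨l', l1, l0, l2⟩ := sep (u := cl (al0 θ)) (v := cl α) na nb (fun i => by
      have j := KI.Cm.cob_cb (c := d) (((hK L θ hθ).2 _ _ (mul_ne_zero w0 a0) (coc_add cξ c2)
        (kum_mul hPr hθ w0 a0 cξ c2 w2 a2)).1 ((cl_eq_cl w0 a0).1 i))
      refine b2 ?_
      convert j using 1
      funext σ
      have t := c2.two σ
      rw [two_smul] at t
      rw [Pi.sub_apply, Pi.add_apply, sub_eq_add_neg, neg_eq_of_add_eq_zero_right t]) (fun i => by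
      refine (hSc L θ hθ d δ c n _ td n11 (sa.1 α a3)).2.1 hb ?_
      rw [← cl_mul z0 a0, cl_eq_cl hw.ne (mul_ne_zero z0 a0)] at i
      rwa [mul_assoc, mul_comm α])
    obtain ⟨g, g1, g2⟩ := hCm L θ hθ q m W {a, α} l' T hm hW (fun β hβ => by
      rcases Finset.mem_insert.1 hβ with rfl | i
      · exact ga
      · rw [Finset.mem_singleton.1 i]
        exact ⟨a0, a1⟩) (Or.inr l0) T2
    refine ⟨g, g1, fun i => by simpa [l1, T1] using ((g2 a (by simp)).1 e s hs).1 i,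
      Or.inr ⟨b1, ?_⟩⟩
    simpa [l2] using (g2 α (by simp)).2 _ c2 a2
  obtain ⟨nv, nv'⟩ := hNv L θ hθ q d δ c n td hq h8 hb hn
  obtain ⟨h, h1, h2, h3, h4, h5⟩ := hCha L θ hθ q d k m n W g y z z' hq.qf (td_sf td) (td_nd td hq)
    nv nv' hk hkm hW g1 hy.cy hy.kl hz.cy hz.kl hz'.cy hz'.kl g3
  have h6 : h s = -s := by
    rw [h2 s fx]
    refine (sq_eq_sq_iff_eq_or_eq_neg.1 ?_).resolve_left g2
    rw [← map_pow, fx g fun P hP => g1.tor P (tor_one hm hP)]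
  obtain ⟨J1, i1, j1⟩ := cy_ag hy.cy
  obtain ⟨J2, i2, j2⟩ := cy_ag hz.cy
  obtain ⟨J3, i3, j3⟩ := cy_ag hz'.cy
  obtain ⟨p, O, φ, b, p1, p2, p3, p4, p5, p6, p7, p8, p9, p10, p11, p12⟩ := hFb q m W h
    (insert s (J1 ∪ (J2 ∪ J3))) (N + 11 + q + c.natAbs + ∑ x ∈ n, x) hm hW h1 (fun x hx => by
      simp only [Finset.mem_insert, Finset.mem_union] at hx
      rcases hx with rfl | i | i | i
      · exact IsAlgebraic.of_pow two_pos (by
          rw [hs]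
          exact (Algebra.IsAlgebraic.isAlgebraic (R := ℚ) a).algHom e.toRatAlgHom)
      exacts [i1 x i, i2 x i, i3 x i])
  have d0 : c ≠ 0 := hq.fam.sf.ne_zero
  have pd : ¬ (p : ℤ) ∣ c := fun i => by
    have := Nat.le_of_dvd (Int.natAbs_pos.2 d0) (Int.natCast_dvd.1 i)
    omega
  have pn : p ∉ n := fun i => by
    have : p ≤ ∑ x ∈ n, x := Finset.single_le_sum (f := fun x => x) (fun _ _ => zero_le) i
    omega
  have pb : p ∉ Bx d n := by
    unfold Bx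
    split_ifs
    · rw [Finset.mem_insert, not_or]
      exact ⟨by omega, pn⟩
    · exact pn
  have nn := nn_mem (kw hW) (hm_iff.1 h1)
  have val : ∀ {c : ℤ} {x : G → Pt} {J : Finset ℂ}, Cy c k x → (∀ σ τ, Ag J σ τ → x σ = x τ) →
      J ⊆ J1 ∪ (J2 ∪ J3) → x (φ * φ) = b • x (cj * h * (cj * h)) := fun hx hJ i => by
    rw [← cy_pow hx hkm nn, ← pow_two, ← pow_two, ← pow_mul, mul_comm 2 b]
    exact hJ _ _ fun w hw => p10 2 w (Finset.mem_insert_of_mem (i hw))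
  have can : ∀ {c : ℤ} {x : G → Pt} {u : ℤ}, Cy c k x → u • b • x (cj * h * (cj * h)) = 0 →
      u • x (cj * h * (cj * h)) = 0 := fun hx i =>
    odd_cancel p5 (k := k) (by rw [smul_comm, hx.tor, smul_zero]) (by rwa [smul_comm])
  refine ⟨p, O, φ, by omega, ⟨p2, by omega, by omega, by omega, pd, p6,
    (p11 q hq.qf.pr (by have := hq.qf.big; omega) (by omega)).2 hq.qf.m4, p8, O, φ, p3, p4,
    fun P hP => by rw [p9 P hP, p9 _ (tor_smul cj hP), ← mul_smul, cj_mul_cj, one_smul]⟩, p12, p3,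
    p4, fun i => s0 ?_, ?_, fun u i => h4 u (can hz.cy ?_), fun u i => h5 u (can hz'.cy ?_)⟩
  · obtain ⟨σ, d1, d2⟩ := (hL1 L θ hθ).2.1 p O _ _ p2 p3 (KI.rt_sq (GF.pst p))
      (CK.pst_sf p2).1 (CK.pst_sf p2).2
    have i' := (((hL1 L θ hθ).2.2 a _ w0 w1 cξ w2).2 p O σ φ _ p2 (by omega) (by omega) p8 p3 d1 p4
      (KI.rt_sq _) d2).2.2 i
    obtain ⟨-, t2, t3⟩ := pt_root f0
    have t4 := congrArg xc (p9 _ (tor_one hm t2))
    rw [xc_smul, xc_smul, t3, hce] at t4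
    have t5 := (hFv L θ hθ p O φ e a s p2 (by omega) (by omega) p8 p3 p4 t4 hw.ne
      (hw.ev p p2 pd pb) hs).1 i'
    have t6 : (cj * h) s = -s := by rw [RingAut.mul_apply, h6, map_neg, hcs]
    have t7 := p10 1 s (Finset.mem_insert_self _ _)
    rw [pow_one, mul_one, Cheb.pow_odd (by rw [t6, map_neg, t6, neg_neg]) p5, t6, t5] at t7
    linear_combination t7 / 2
  · rw [val hy.cy j1 Finset.subset_union_left, h3, smul_zero]
  · rwa [val hz.cy j2 (Finset.subset_union_left.trans Finset.subset_union_right)] at i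
  · rwa [val hz'.cy j3 (Finset.subset_union_right.trans Finset.subset_union_right)] at i

end Pool.Agent.Lib.MP_d6ddbd_nt.GC
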