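import Pool.Agent.Lib.MP_d6ddbd_nt.GC.Stmt
import Pool.Agent.Lib.MP_d6ddbd_nt.K11.Ker

/-!
The classes of a good representative and their characters.
-/

set_option autoImplicit false

open Pointwise
open Pool.Agent.Lib.MP_9177b7_ag.CM (sp sp_le mem_sp left_mem_sp right_mem_sp)
open Pool.Agent.Lib.MP_d6ddbd_nt.K11
open Pool.Agent.Lib.MP_d6ddbd_nt.KA (NN un)

noncomputable section

namespace Pool.Agent.Lib.MP_d6ddbd_nt.GC

/-- The product of two lattices with the same second basis vector. -/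
theorem sp_mul_sp {w : ℂ} {t N : ℤ} {a a' : ℕ} (hw : w ^ 2 = t * w - N)
    (hN : ((a * a' : ℕ) : ℤ) ∣ N) (hc : IsCoprime (a : ℤ) t) :
    sp a w * sp a' w = sp (a * a' : ℕ) w := by
  obtain ⟨k, hk⟩ := hN
  have hk' : (N : ℂ) = a * a' * k := by rw [hk]; push_cast; ring
  obtain ⟨u, v, e⟩ := hc
  have e' : (u : ℂ) * a + v * t = 1 := by exact_mod_cast e
  refine le_antisymm (Submodule.mul_le.2 fun x hx y hy => ?_) (sp_le.2 ⟨?_, ?_⟩)
  · obtain ⟨m, n, rfl⟩ := mem_sp.1 hx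
    obtain ⟨m', n', rfl⟩ := mem_sp.1 hy
    refine mem_sp.2 ⟨m * m' - n * n' * k, m * n' * a + n * m' * a' + n * n' * t, ?_⟩
    push_cast
    linear_combination -(n : ℂ) * n' * hw + n * n' * hk'
  · have := Submodule.mul_mem_mul (left_mem_sp (a : ℂ) w) (left_mem_sp (a' : ℂ) w)
    rwa [Nat.cast_mul]
  · have h1 := Submodule.mul_mem_mul (left_mem_sp (a : ℂ) w) (left_mem_sp (a' : ℂ) w)
    have h2 := Submodule.mul_mem_mul (left_mem_sp (a : ℂ) w) (right_mem_sp (a' : ℂ) w)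
    have h3 := Submodule.mul_mem_mul (right_mem_sp (a : ℂ) w) (right_mem_sp (a' : ℂ) w)
    refine Ker.of_eq (add_mem (add_mem (Ker.zmul u h2) (Ker.zmul v h3)) (Ker.zmul (v * k) h1)) ?_
    push_cast
    linear_combination -w * e' - v * hw + v * hk'

theorem un_mul {a b : ℕ} (ha : a.Coprime 8) (hb : b.Coprime 8) : un (a * b) = un a * un b := by
  have hab : (a * b).Coprime 8 := Nat.Coprime.mul_left ha hb
  ext
  simp only [un, dif_pos ha, dif_pos hb, dif_pos hab, Units.val_mul, ZMod.coe_unitOfCoprime,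
    Nat.cast_mul]

theorem un_one : un 1 = 1 := by
  ext
  simp [un]

variable {q : ℕ} [hq : Fact (q % 4 = 3)]

omit hq in
theorem pid_one (c : ℕ) (r : ℤ) : pid q c 1 r = Oc q c :=
  le_antisymm Ker.pid_le (sp_le.2 ⟨by simpa [pid] using left_mem_sp (1 : ℂ) _,
    mem_sp.2 ⟨c * r, 1, by push_cast; ring⟩⟩)

theorem lam_one (c : ℕ) (r : ℤ) : Cl (lam q c 1 r) (pid q c 1 r) ∧ lam q c 1 r = 1 := by
  have h : Cl (1 : Pic q c) (pid q c 1 r) := by rw [pid_one]; exact cl_one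
  exact ⟨h.inv.cls, h.inv.cls.unique h⟩

theorem pid_mul_pid {c l a : ℕ} {r : ℤ} (hp : q.Prime) (hl : l.Prime) (hlq : l ≠ q)
    (hlc : ¬ l ∣ c) (h : Rt q (l * a) r) :
    pid q c l r * pid q c a r = pid q c (l * a) r := by
  have h1 := Ker.rt_c c h
  refine sp_mul_sp (t := c - 2 * (c * r)) ?_ h1 ?_
  · have := com_sq hq.out c
    push_cast at this ⊢
    linear_combination this
  · refine (Nat.prime_iff_prime_int.1 hl).irreducible.coprime_iff_not_dvd.2 fun d => ?_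
    refine Ker.not_dvd_disc hp hl hlq hlc ?_
    have h2 := (Int.natCast_dvd_natCast.2 (dvd_mul_right l a)).trans h1
    have := dvd_sub (d.mul_right (c - 2 * (c * r))) (h2.mul_left 4)
    rwa [show ((c : ℤ) - 2 * (c * r)) * (c - 2 * (c * r)) - 4 * ((c * r) ^ 2 - c * (c * r) +
      (c : ℤ) ^ 2 * ((q + 1) / 4 : ℕ)) = (c : ℤ) ^ 2 - 4 * ((c : ℤ) ^ 2 * ((q + 1) / 4 : ℕ)) by
        ring] at this

theorem lam_mul {c l a : ℕ} {r : ℤ} (hp : q.Prime) (hl : l.Prime) (hlq : l ≠ q)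
    (hlc : ¬ l ∣ c) (h : Rt q (l * a) r) (ha : Cl (lam q c a r) (pid q c a r)) :
    Cl (lam q c (l * a) r) (pid q c (l * a) r) ∧
      lam q c (l * a) r = lam q c l r * lam q c a r := by
  have h1 : Rt q l r := (Int.natCast_dvd_natCast.2 (dvd_mul_right l a)).trans h
  have h2 := (Ker.cl_lam hp hl hlq hlc h1).mul ha
  rw [pid_mul_pid hp hl hlq hlc h] at h2
  exact ⟨h2.inv.cls, h2.inv.cls.unique h2⟩

theorem key (hp : q.Prime) (n : ℕ) (r : ℤ) (a : ℕ) : a ≠ 0 → a.Coprime (8 * n * q) → Rt q a r →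
    (∀ c, c ∣ 8 * n → Cl (lam q c a r) (pid q c a r) ∧
      res c (lam q (8 * n) a r) = lam q c a r) ∧
    (∀ N, NN N → N (lam q 8 a r) = un a) ∧
    ∀ χ, Chr q n χ → χ (lam q n a r) = jacobiSym a n := by
  induction a using induction_on_primes with
  | zero => exact fun h => absurd rfl h
  | one =>
    intro _ _ _
    refine ⟨fun c _ => ⟨(lam_one c r).1, ?_⟩, fun N _ => ?_, fun χ hχ => ?_⟩
    · rw [(lam_one _ r).2, (lam_one _ r).2, map_one]
    · rw [(lam_one _ r).2, map_one, un_one]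
    · rw [(lam_one _ r).2, hχ.one, Nat.cast_one, jacobiSym.one_left]
  | prime_mul l a hl ih =>
    intro h0 hco h
    have hcl : l.Coprime (8 * n * q) := Nat.Coprime.coprime_mul_right hco
    have hca : a.Coprime (8 * n * q) := Nat.Coprime.coprime_mul_left hco
    have hnd : ¬ l ∣ 8 * n * q := (Nat.Prime.coprime_iff_not_dvd hl).1 hcl
    have hlq : l ≠ q := fun e => hnd (e ▸ dvd_mul_left _ _)
    have hlc : ∀ c, c ∣ 8 * n → ¬ l ∣ c := fun c hc d => hnd ((d.trans hc).mul_right q)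
    have hl2 : l ≠ 2 := fun e => hlc 8 (dvd_mul_right 8 n) (e ▸ by norm_num)
    have h1 : Rt q l r := (Int.natCast_dvd_natCast.2 (dvd_mul_right l a)).trans h
    have h2 : Rt q a r := (Int.natCast_dvd_natCast.2 (dvd_mul_left a l)).trans h
    obtain ⟨i1, i2, i3⟩ := ih (right_ne_zero_of_mul h0) hca h2
    have hm := fun c (hc : c ∣ 8 * n) => lam_mul hp hl hlq (hlc c hc) h (i1 c hc).1
    have h8 : ∀ x : ℕ, x.Coprime (8 * n * q) → x.Coprime 8 := fun x hx =>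
      (Nat.Coprime.coprime_mul_right_right hx).coprime_mul_right_right
    refine ⟨fun c hc => ⟨(hm c hc).1, ?_⟩, fun N hN => ?_, fun χ hχ => ?_⟩
    · rw [(hm _ dvd_rfl).2, (hm c hc).2, map_mul, (i1 c hc).2,
        Ker.res_lam hp hl hlq (hlc _ dvd_rfl) h1 hc]
    · rw [(hm 8 (dvd_mul_right 8 n)).2, map_mul, i2 N hN, hN.lam l r hl hl2 hlq h1,
        un_mul (h8 l hcl) (h8 a hca)]
    · rw [(hm n (dvd_mul_left n 8)).2, hχ.mul, i3 χ hχ,
        hχ.lam l r hl hl2 hlq (hlc n (dvd_mul_left n 8)) h1, Nat.cast_mul, jacobiSym.mul_left]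

theorem chr_thm : ChrStmt := by
  intro q _ hp _ n b e _ ⟨h0, hco, hd, _⟩
  have h1 : Rt q e.1 e.2 := by
    simpa [nc, Rt] using hd
  have h2 : e.1.Coprime (8 * n * q) := by
    have a1 : e.1.Coprime 2 := hco.coprime_dvd_right ⟨11 * n * q, by ring⟩
    have a2 : e.1.Coprime (n * q) := hco.coprime_dvd_right ⟨22, by ring⟩
    rw [mul_assoc]
    exact Nat.Coprime.mul_right (a1.pow_right 3) a2
  obtain ⟨i1, i2, i3⟩ := key hp n e.2 e.1 h0.ne' h2 h1
  have hy : cy q n e = lam q (8 * n) e.1 e.2 := rfl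
  refine ⟨fun c hc => ?_, (i1 _ dvd_rfl).1, fun N hN => ?_, fun χ hχ => ?_⟩
  · rw [hy, (i1 c hc).2]
    exact (i1 c hc).1
  · rw [hy, (i1 8 (dvd_mul_right 8 n)).2, i2 N hN]
  · rw [hy, (i1 n (dvd_mul_left n 8)).2, i3 χ hχ]

end Pool.Agent.Lib.MP_d6ddbd_nt.GC
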