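import Pool.Agent.Lib.MP_d6ddbd_nt.GC.Stmt

/-! A uniform exponent for the points that are divisible by all powers of two. -/

set_option autoImplicit false
set_option maxSynthPendingDepth 3

open Height
open Pool.Agent.Lib.MP_02f36d_nt (xc yc eq_or_neg_of_xc)
open Pool.Agent.Lib.MP_d6ddbd_nt.K11
open Pool.Agent.Lib.MP_d6ddbd_nt.KI.Pts (Inv toTw no2)

noncomputable section

namespace Pool.Agent.Lib.MP_d6ddbd_nt.GC

namespace Ht

/-- Points divisible by all powers of two. -/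
def Dv (d : ℤ) (P : Pt) : Prop := ∀ j : ℕ, ∃ R ∈ Inv d, P = 2 ^ j • R

variable {d : ℤ} {P : Pt}

theorem Dv.mem (h : Dv d P) : P ∈ Inv d := by
  obtain ⟨R, a, b⟩ := h 0
  rw [b]
  exact nsmul_mem a _

theorem Dv.mul (h : Dv d P) (k : ℕ) : Dv d (k • P) := fun j => by
  obtain ⟨R, a, b⟩ := h j
  exact ⟨k • R, nsmul_mem a _, by rw [b, smul_comm]⟩

theorem Dv.half (h : Dv d P) : ∃ Q, Dv d Q ∧ 2 • Q = P := by
  obtain ⟨Q, a, b⟩ := h 1
  refine ⟨Q, fun j => ?_, by rw [b, pow_one]⟩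
  obtain ⟨R, c, e⟩ := h (j + 1)
  refine ⟨R, c, sub_eq_zero.1 (no2 1 _ (sub_mem a (nsmul_mem c _)) ?_)⟩
  rw [smul_sub, ← b, e, ← mul_nsmul', pow_one, pow_succ', sub_self]

theorem two_ne (h : P ∈ Inv d) (h0 : P ≠ 0) : 2 • P ≠ 0 := fun e =>
  h0 (no2 1 P h (by rwa [pow_one]))

theorem xdl (h : P ∈ Inv d) (h0 : P ≠ 0) {u : ℚ} (hu : (u : ℂ) = xc P) :
    ((No.dl u : ℚ) : ℂ) = xc (2 • P) := by
  have n := two_ne h h0
  have e1 := R1.eq1 h0
  have n1 : yc P ≠ 0 := fun z => n ((R1.two_iff P).2 (Or.inr ⟨z, by rw [← e1, z]; ring⟩))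
  have e2 := (R1.dbl h0 n1).2
  have n2 : fc (u : ℂ) ≠ 0 := by
    rw [hu, ← e1]
    exact pow_ne_zero 2 n1
  rw [e1, ← hu] at e2
  have w : ((fc u : ℚ) : ℂ) = fc (u : ℂ) := by simp [fc]
  rw [No.dl]
  push_cast
  rw [w, div_eq_iff (mul_ne_zero (by norm_num) n2), e2, fd, fc]
  ring

/-- The heights of the divisible points are bounded independently of the twist. -/
theorem bd : ∃ B : ℝ, ∀ d : ℤ, d ≠ 0 → ∀ P, Dv d P → P ≠ 0 →
    ∃ u : ℚ, (u : ℂ) = xc P ∧ logHeight₁ u ≤ B := by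
  obtain ⟨C, hC⟩ := No.ht_dl
  refine ⟨-C / 3, fun d hd P hP h0 => ?_⟩
  let U : Set ℚ := {u | ∃ P, Dv d P ∧ P ≠ 0 ∧ (u : ℂ) = xc P}
  have key : ∀ x ∈ U, ∃ u ∈ U, No.dl u = x := by
    rintro x ⟨P, a, n, b⟩
    obtain ⟨Q, c, rfl⟩ := a.half
    have n0 : Q ≠ 0 := fun z => n (by rw [z, smul_zero])
    obtain ⟨u, -, -, g, -⟩ := toTw hd c.mem n0
    refine ⟨u, ⟨Q, c, n0, g⟩, ?_⟩
    have := (xdl c.mem n0 g).trans b.symm
    exact_mod_cast this
  choose! s hs using key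
  have hU : U.Finite := No.fin_of_inj (C := C) s (fun u hu => (hs u hu).1)
    (fun u hu v hv e => by rw [← (hs u hu).2, e, (hs v hv).2])
    (fun u hu => by have := hC (s u); rwa [(hs u hu).2] at this)
  obtain ⟨u, -, -, g, -⟩ := toTw hd hP.mem h0
  have hu : u ∈ U := ⟨P, hP, h0, g⟩
  obtain ⟨m, ⟨Q, a, n, b⟩, hm⟩ := Set.exists_max_image U logHeight₁ hU ⟨u, hu⟩
  have h1 := hm (No.dl m) ⟨2 • Q, a.mul 2, two_ne a.mem n, xdl a.mem n b⟩
  have h2 := hC m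
  have h3 := hm u hu
  exact ⟨u, g, by linarith⟩

end Ht

open Ht in
theorem ht_thm' : HtStmt := by
  obtain ⟨B, hB⟩ := bd
  have hF := Northcott.finite_le (h := (logHeight₁ : ℚ → ℝ)) B
  let M := hF.toFinset.card
  refine ⟨(2 * M + 2).factorial, Nat.factorial_ne_zero _, fun d hd P _ hN => ?_⟩
  by_contra hn
  have hP : Dv d P := fun j => by
    by_contra z
    exact hn ⟨j, fun R a e => z ⟨R, a, e⟩⟩
  have nz : ∀ k : ℕ, 0 < k → k ≤ 2 * M + 2 → k • P ≠ 0 := fun k a b e => by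
    obtain ⟨t, ht⟩ := Nat.dvd_factorial a b
    exact hN (by rw [ht, mul_nsmul, e, smul_zero])
  have ex : ∀ i : Fin (M + 1), ∃ u ∈ hF.toFinset, (u : ℂ) = xc ((i.1 + 1) • P) := fun i => by
    obtain ⟨u, a, b⟩ := hB d hd _ (hP.mul (i.1 + 1)) (nz _ (by omega) (by omega))
    exact ⟨u, hF.mem_toFinset.2 b, a⟩
  choose f hf using ex
  have two : ∀ i j : Fin (M + 1), i.1 < j.1 → f i ≠ f j := fun i j l e => by
    have a : xc ((i.1 + 1) • P) = xc ((j.1 + 1) • P) := by rw [← (hf i).2, e, (hf j).2]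
    rcases eq_or_neg_of_xc (nz _ (by omega) (by omega)) (nz _ (by omega) (by omega)) a with b | b
    · refine nz (j.1 - i.1) (by omega) (by omega) ?_
      have c : (j.1 + 1) • P = (j.1 - i.1) • P + (i.1 + 1) • P := by
        rw [← add_nsmul]
        congr 1
        omega
      rw [← b] at c
      exact (left_eq_add.1 (c.trans (add_comm _ _)))
    · refine nz (i.1 + 1 + (j.1 + 1)) (by omega) (by omega) ?_
      rw [add_nsmul, b, neg_add_cancel]
  obtain ⟨i, -, j, -, a, b⟩ := Finset.exists_ne_map_eq_of_card_lt_of_maps_to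
    (s := Finset.univ) (t := hF.toFinset) (f := f) (by simp [M]) fun i _ => (hf i).1
  rcases lt_trichotomy i.1 j.1 with l | l | l
  · exact two i j l b
  · exact a (Fin.ext l)
  · exact two j i l b.symm

end Pool.Agent.Lib.MP_d6ddbd_nt.GC
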