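import Pool.Agent.Lib.MP_d6ddbd_nt.GC.Stmt
import Pool.Agent.Lib.MP_d6ddbd_nt.KA.All0
import Pool.Agent.Lib.MP_d6ddbd_nt.KI.Cnt

/-!
The descending chain of Kolyvagin primes.
-/

set_option autoImplicit false
set_option maxSynthPendingDepth 3

open NumberField
open Pool.Agent.Stark (SqCl cl)
open Pool.Agent.Lib.MP_d6ddbd_nt.K11
open Pool.Agent.Lib.MP_d6ddbd_nt.KI (rt cq tw Cy Cb Kl Sel Wq Gp KolI KnI Pn AtK Tv)
open Pool.Agent.Lib.MP_d6ddbd_nt.KI.Chain (cq_in tor_in ex_in odd_kill)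
open Pool.Agent.Lib.MP_d6ddbd_nt.KI.SubB (fv_iff fp)
open Pool.Agent.Lib.MP_d6ddbd_nt.KA (TD Blk wA twA Rl yy WA Bx dkAAll la1All la2All wA_or)
open Pool.Agent.Lib.MP_d6ddbd_nt.KA.SubB (B1 b1_pn bs_bx recip sc_mono sv_zero)
open Pool.Agent.Lib.MP_d6ddbd_nt.KA.Chain (pr_dvd twA_or rl_mono ev)

noncomputable section

namespace Pool.Agent.Lib.MP_d6ddbd_nt.GC

namespace Kol

variable {q k m p : ℕ} {d δ c : ℤ} {n : Finset ℕ} {W : Finset ℂ} {O : ValuationSubring ℂ}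
  {σ₀ φ : G} {X : Finset ℕ → G → Pt} {x y ξ : G → Pt}

/-- A Selmer class that vanishes at the square of a Frobenius element is transverse. -/
theorem up (hp : p.Prime) (h2 : p ≠ 2) (h11 : p ≠ 11) (hc : ¬ (p : ℤ) ∣ d) (hpn : p ∉ n)
    (hT : Tv k {p}) (hO : Ov O p) (hφ : Frob O p φ) (hy : Sel d k n y) (h0 : y (φ * φ) = 0) :
    Sel d k (insert p n) y :=
  ⟨hy.cy, fun v O' a b e => hy.kl v O' a (fun h => b (Finset.mem_insert_of_mem h)) e,
    fun r a O' ψ b e => by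
      rcases Finset.mem_insert.1 a with rfl | a
      · exact KI.Step.ff_all KI.tr_thm hp hT hO hφ hy.cy (fun σ a =>
          (hy.kl r O hp hpn hO).ine hp h2 h11 hO (hy.cy.tor σ) a (KI.cq_ine hp h2 hO hc a)) h0 b e
      · exact hy.ff r a O' ψ b e⟩

/-- A transverse class that is unramified is a Selmer class. -/
theorem low (hp : p.Prime) (h2 : p ≠ 2) (h11 : p ≠ 11) (hc : ¬ (p : ℤ) ∣ d) (hO : Ov O p)
    (hσ : Frob O 1 σ₀) (mv : σ₀ (rt (GF.pst p)) ≠ rt (GF.pst p)) (hx : Sel d k (insert p n) x)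
    (h0 : x σ₀ = 0) : Sel d k n x := by
  have xu : ∀ σ, Frob O 1 σ → x σ = 0 := fun σ a => by
    obtain ⟨u, e⟩ := KI.le_thm Pt k p O _ σ₀ x hp h2 hO hσ mv (fun σ _ => hx.cy.tor σ)
      (fun σ τ a _ => KI.Step.ine_add hp h2 h11 hO hc hx.cy a τ) (hx.cy.fn.on _) σ a
    rw [e, h0, smul_zero]
  have kl := KI.gd_thm d k p x O hp h2 h11 hO hx.cy (fun σ a => KI.cq_ine hp h2 hO hc a) xu
  refine ⟨hx.cy, fun v O' a b e => ?_, fun r a => hx.ff r (Finset.mem_insert_of_mem a)⟩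
  rcases eq_or_ne v p with rfl | hv
  · exact KI.tr_thm.2.1 d k v x O O' hx.cy hp hO e kl
  · exact hx.kl v O' a (fun h => (Finset.mem_insert.1 h).elim hv b) e

variable {L : Type} [Field L] [NumberField L] {θ : L}

/-- Reciprocity at level one. -/
theorem sub (hθ : Cub θ) (ht : TD d δ c) (hn : Pn q c (insert p n)) (hpn : p ∉ n) (hO : Ov O p)
    (hφ : Frob O p φ) (hξ : Sel d 1 n ξ) (hf : ξ (φ * φ) ≠ 0) (hx : Sel d 1 (insert p n) x) :
    Sel d 1 n x := by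
  obtain ⟨hp, h2, h11, -, hc, ty⟩ := hn p (Finset.mem_insert_self p n)
  have hn' : Pn q c n := fun l hl => hn l (Finset.mem_insert_of_mem hl)
  have hB := b1_pn hn
  have hB' := b1_pn hn'
  obtain ⟨σ₀, hσ, mv⟩ := ex_in hp hO
  obtain ⟨α, a0, as, ak⟩ := (kumAll L θ hθ).1 x hx.coc
  obtain ⟨β, b0, bs, bk⟩ := (kumAll L θ hθ).1 ξ hξ.coc
  have wa := dkAAll L θ hθ d δ c _ α x ht hB.n2 hB.n11 hB.nd a0 as hx.coc ak hx.kl
  have wb := dkAAll L θ hθ d δ c n β ξ ht hB'.n2 hB'.n11 hB'.nd b0 bs hξ.coc bk hξ.kl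
  have r := recip la1All hθ ht hB wa (sc_mono wb (Finset.subset_insert p n))
  rw [Finset.sum_insert hpn, Finset.sum_eq_zero fun l h => by
      rw [fp vAll link1All hθ hn a0 as hx ak l (Finset.mem_insert_of_mem h),
        fp vAll link1All hθ hn' b0 bs hξ bk l h, mul_zero, zero_mul, add_zero],
    sv_zero la1All hθ ht hB' wb hp h11 hc hpn, mul_zero, add_zero, add_zero] at r
  have fb : fv p β ≠ 0 := fun h => hf ((fv_iff link1All hθ b0 bs hξ.coc bk hp h2 h11 ty hO hφ).1 h)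
  exact low hp h2 h11 (pr_dvd ht hp h2 h11 hc) hO hσ mv hx
    ((((link1All L θ hθ).2.2 α x a0 as hx.coc ak).2 p O σ₀ φ _ hp h2 h11 ty hO hσ hφ (KI.rt_sq _)
      ((Fin.sq_or (KI.rt_sq _) σ₀).resolve_left mv)).1.1 ((mul_eq_zero.1 r).resolve_right fb))

/-- The number of classes of level one. -/
def ms (θ : L) (d : ℤ) (n : Finset ℕ) : ℕ :=
  (cl '' {α : L | α ≠ 0 ∧ IsSquare (Algebra.norm ℚ α) ∧ ∃ ξ, Sel d 1 n ξ ∧ Kum θ α ξ}).ncard

theorem drop (hθ : Cub θ) (ht : TD d δ c) (hn : Pn q c (insert p n)) (hpn : p ∉ n) (hO : Ov O p)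
    (hφ : Frob O p φ) (hξ : Sel d 1 n ξ) (hf : ξ (φ * φ) ≠ 0) :
    ms θ d (insert p n) < ms θ d n := by
  obtain ⟨hp, h2, h11, -, hc, ty⟩ := hn p (Finset.mem_insert_self p n)
  have hB : B1 c n := (b1_pn hn).mono (Finset.subset_insert p n)
  have := (la2All L θ hθ d δ c (Bx d n) ht (bs_bx hB)).1
  have fin : (WA θ d c (Bx d n) : Set (SqCl L)).Finite :=
    Module.finite_of_finite (ZMod 2) (M := WA θ d c (Bx d n))
  refine Set.ncard_lt_ncard ⟨Set.image_mono fun α ⟨a0, as, x, hx, ak⟩ =>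
    ⟨a0, as, x, sub hθ ht hn hpn hO hφ hξ hf hx, ak⟩, fun h => ?_⟩ (fin.subset (by
      rintro _ ⟨α, ⟨a0, as, x, hx, ak⟩, rfl⟩
      exact Submodule.subset_span ⟨α, (dkAAll L θ hθ d δ c n α x ht hB.n2 hB.n11 hB.nd a0 as hx.coc
        ak hx.kl).wa, rfl⟩))
  obtain ⟨β, b0, bs, bk⟩ := (kumAll L θ hθ).1 ξ hξ.coc
  obtain ⟨α, ⟨a0, as, x, hx, ak⟩, e⟩ := h ⟨β, ⟨b0, bs, ξ, hξ, bk⟩, rfl⟩
  refine hf ((fv_iff link1All hθ b0 bs hξ.coc bk hp h2 h11 ty hO hφ).1 ?_)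
  rw [← Main.fv_congr hp.ne_zero a0 b0 e]
  exact fp vAll link1All hθ hn a0 as hx ak p (Finset.mem_insert_self p n)

theorem kn_ins (hn : KnI m q c n) (hp : KolI m q c p) : KnI m q c (insert p n) := fun l hl => by
  rcases Finset.mem_insert.1 hl with rfl | hl
  exacts [hp, hn l hl]

/-- One step down. -/
theorem down (ht : TD d δ c) (hq : QD q c) (hK : KZ q d c k m W X) (hn : KnI m q c n)
    (hp : KolI m q c p) (hpn : p ∉ n) (hO : Ov O p) (hφ : Frob O p φ) (hy : Sel d k n y)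
    (hz : ∀ u : ℤ, u • (2 • X n) (φ * φ) = 0 →
      ∃ v : ℤ, Cb (twA q d n) ((2 * u) • 2 • X n - v • yy q d n y)) {a : ℕ}
    (r : Rl q d X y (insert p n) a) : Rl q d X y n (a + 2) := by
  obtain ⟨σ₀, hσ, mv⟩ := ex_in hp.pr hO
  have pd : ¬ (p : ℤ) ∣ d := pr_dvd ht hp.pr hp.n2 hp.n11 hp.nd
  have nd : ¬ (p : ℤ) ∣ twA q d (insert p n) := by
    rcases twA_or q d (insert p n) with e | e <;> rw [e]
    · exact pd
    intro h
    rcases (Nat.prime_iff_prime_int.1 hp.pr).dvd_or_dvd (dvd_neg.1 h) with h | h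
    · exact hp.nq ((Nat.prime_dvd_prime_iff_eq hp.pr hq.qf.pr).1 (by exact_mod_cast h))
    · exact pd h
  obtain ⟨⟨u, u1, u2⟩, -⟩ := hK.atp n p O σ₀ φ hn hp hpn hO hσ hφ mv
  have e1 := ev r (hK.cy _ (kn_ins hn hp)).tor (fun σ => by
    unfold yy
    split_ifs
    exacts [hy.cy.tor σ, smul_zero _]) (by
    unfold yy
    split_ifs
    exacts [(hy.kl p O hp.pr hpn hO).ine hp.pr hp.n2 hp.n11 hO (hy.cy.tor σ₀) hσ
      (KI.cq_ine hp.pr hp.n2 hO pd hσ), rfl]) (cq_in hp.pr hp.n2 nd hO hσ)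
    (tor_in hp.pr hp.n2 hp.n11 hO hσ)
  have e2 : 2 ^ a • X n (φ * φ) = 0 := odd_kill (k := k) u1
    (by rw [smul_comm, (hK.cy n hn).tor, smul_zero])
    (by rw [smul_comm, ← u2, ← Fin.sm_n, e1, smul_zero])
  obtain ⟨v, hv⟩ := hz ((2 ^ a : ℕ) : ℤ) (by
    rw [natCast_zsmul, Pi.smul_apply, smul_comm, e2, smul_zero])
  refine ⟨v, hv.of_eq ?_⟩
  rw [show (2 * ((2 ^ a : ℕ) : ℤ)) = ((2 * 2 ^ a : ℕ) : ℤ) by push_cast; rfl, natCast_zsmul,
    ← mul_smul, show 2 * 2 ^ a * 2 = 2 ^ (a + 2) by ring]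

theorem flip (hd : d ≠ 0) (hpn : p ∉ n) (h : twA q d n ≠ d) : twA q d (insert p n) = d := by
  refine if_pos ?_
  have : wA d * (-1) ^ n.card ≠ -1 := fun e => h (if_pos e)
  rw [Finset.card_insert_of_notMem hpn, pow_succ, ← mul_assoc]
  rcases wA_or hd with e | e <;> rcases neg_one_pow_eq_or ℤ n.card with f | f <;>
    simp_all

theorem ind (hC : ChStmt) (hθ : Cub θ) (ht : TD d δ c) (hb : ¬ Blk d) (hq : QD q c)
    (h8 : q % 8 = 7) (k0 : k ≠ 0) (km : k ≤ m) (hW : Wq q m W) (hK : KZ q d c k m W X)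
    (y0 : ¬ Cb d (2 ^ (k - 1) • y)) (t : ℕ) : ∀ n, KnI m q c n → (∀ p ∈ n, Gp W p) →
      Sel d k n y → ms θ d n < t → Rl q d X y n (2 * t + 3) := by
  induction t with
  | zero => intros; omega
  | succ t ih =>
    intro n hn gn sy hm
    have sx := hK.sel n hn gn
    have gi : ∀ {p}, Gp W p → ∀ l ∈ insert p n, Gp W l := fun gp l hl => by
      rcases Finset.mem_insert.1 hl with rfl | hl
      exacts [gp, gn l hl]
    have tv : ∀ {n}, KnI m q c n → Tv k n := fun h => KI.tr_thm.2.2 k m q c _ km h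
    have nm : ∀ {p}, n.sup id < p → p ∉ n := fun big h =>
      absurd (Finset.le_sup (f := id) h) (not_le.2 big)
    by_cases H : ∀ ξ, Sel d 1 n ξ → Cb d ξ ∨ Cb d (ξ - 2 ^ (k - 1) • y)
    · rw [show 2 * (t + 1) + 3 = 3 + 2 * (t + 1) by ring]
      refine rl_mono ?_ _
      by_cases e : twA q d n = d
      · rw [e] at sx
        obtain ⟨u, hu⟩ := KI.cnt_thm.2.2 d k n y k0 (tv hn) sy H _ sx
        exact rl_mono (a := 1) ⟨u, by rwa [yy, if_pos e, e, pow_one]⟩ 2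
      have e' := (twA_or q d n).resolve_left e
      rw [e'] at sx
      obtain ⟨p, O, φ, big, hp, gp, hO, hφ, f1, -, -, f4⟩ := hC q d δ c k m W n _ 0 0 _ (n.sup id)
        ht hb hq h8 k0 km hW hn.pn (sy.top k0) y0 (KI.sel_zero _ _ _) (Or.inl rfl)
        (KI.sel_zero _ _ _) sx
      have hn' := kn_ins hn hp
      have e2 := flip (KA.Chain.sf ht).ne_zero (nm big) e
      have s2 := hK.sel _ hn' (gi gp)
      rw [e2] at s2
      obtain ⟨u, hu⟩ := KI.cnt_thm.2.2 d k _ 0 k0 (tv hn') (KI.sel_zero _ _ _) (fun η hη => by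
        refine Or.inl ((H η (sub hθ ht hn'.pn (nm big) hO hφ (sy.top k0) f1 hη)).resolve_right
          fun h => f1 ?_)
        have := h.val_sq (hη.cy.sub (sy.top k0).cy).tor
          (hn'.pn.tv p (Finset.mem_insert_self p n) O φ hO hφ)
        rwa [Pi.sub_apply, hη.ff p (Finset.mem_insert_self p n) O φ hO hφ, zero_sub,
          neg_eq_zero] at this) _ s2
      refine down (a := 1) ht hq hK hn hp (nm big) hO hφ sy (fun u hu => ⟨0, ?_⟩) ⟨0, ?_⟩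
      · rw [e', zero_smul, sub_zero]
        exact f4 u hu
      · rw [e2]
        simpa using hu
    push Not at H
    obtain ⟨ξ, s1, n1, n2⟩ := H
    obtain ⟨p, O, φ, big, hp, gp, hO, hφ, f1, f2, hz⟩ : ∃ (p : ℕ) (O : ValuationSubring ℂ) (φ : G),
        n.sup id < p ∧ KolI m q c p ∧ Gp W p ∧ Ov O p ∧ Frob O p φ ∧ ξ (φ * φ) ≠ 0 ∧
        y (φ * φ) = 0 ∧ ∀ u : ℤ, u • (2 • X n) (φ * φ) = 0 →
          ∃ v : ℤ, Cb (twA q d n) ((2 * u) • 2 • X n - v • yy q d n y) := by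
      by_cases e : twA q d n = d
      · rw [e] at sx
        obtain ⟨p, O, φ, big, hp, gp, hO, hφ, f1, f2, f3, -⟩ := hC q d δ c k m W n ξ y _ 0
          (n.sup id) ht hb hq h8 k0 km hW hn.pn s1 n1 sy (Or.inr ⟨y0, n2⟩) sx (KI.sel_zero _ _ _)
        exact ⟨p, O, φ, big, hp, gp, hO, hφ, f1, f2, by rwa [yy, if_pos e, e]⟩
      · have e' := (twA_or q d n).resolve_left e
        rw [e'] at sx
        obtain ⟨p, O, φ, big, hp, gp, hO, hφ, f1, f2, -, f4⟩ := hC q d δ c k m W n ξ y 0 _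
          (n.sup id) ht hb hq h8 k0 km hW hn.pn s1 n1 sy (Or.inr ⟨y0, n2⟩) (KI.sel_zero _ _ _) sx
        exact ⟨p, O, φ, big, hp, gp, hO, hφ, f1, f2, fun u hu =>
          ⟨0, by rw [e', zero_smul, sub_zero]; exact f4 u hu⟩⟩
    have hn' := kn_ins hn hp
    exact down ht hq hK hn hp (nm big) hO hφ sy hz (ih _ hn' (gi gp)
      (up hp.pr hp.n2 hp.n11 (pr_dvd ht hp.pr hp.n2 hp.n11 hp.nd) (nm big)
        (tv fun l hl => by rwa [Finset.mem_singleton.1 hl]) hO hφ sy f2)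
      ((drop hθ ht hn'.pn (nm big) hO hφ s1 f1).trans_le (Nat.le_of_lt_succ hm)))

end Kol

theorem kol_thm (h : ChStmt) : KolStmt := by
  obtain ⟨L, _, _, θ, hθ⟩ := Final.exists_cub
  exact fun q d δ c ht hb hq h8 => ⟨2 * (Kol.ms θ d ∅ + 1) + 3, fun k m W x y k0 km hW hK sy y0 =>
    Kol.ind h hθ ht hb hq h8 k0 km hW hK y0 _ ∅ (fun _ h => absurd h (Finset.notMem_empty _))
      (fun _ h => absurd h (Finset.notMem_empty _)) sy (Nat.lt_succ_self _)⟩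

end Pool.Agent.Lib.MP_d6ddbd_nt.GC
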