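import Pool.Agent.Lib.MP_d6ddbd_nt.GC.StN

/-!
A sum of points that is not zero can be recognised.
-/

set_option autoImplicit false

open Pool.Agent.Lib.MP_02f36d_nt (xc yc pt_ext)
open Pool.Agent.Lib.MP_d6ddbd_nt.K11
open Pool.Agent.Sand.Check

noncomputable section

namespace Pool.Agent.Lib.MP_d6ddbd_nt.GC

namespace Num

/-- A point with a sign. -/
def sg (e : ℤ × TC) : Pt := if 0 ≤ e.1 then E11.phi (tau e.2) else -E11.phi (tau e.2)

theorem sg_spec (e : ℤ × TC) : sg e ≠ 0 ∧ xc (sg e) = E11.XX (tau e.2) ∧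
    yc (sg e) = if 0 ≤ e.1 then E11.YY (tau e.2) else -E11.YY (tau e.2) := by
  obtain ⟨a, b, c⟩ := E11.phi_spec (tau e.2)
  unfold sg
  split_ifs
  · exact ⟨a, b, c⟩
  · exact b ▸ c ▸ E11.neg_spec a

theorem sm_eq (L : List (ℤ × TC)) :
    Sm L = ((L.flatMap fun e => (List.range e.1.natAbs).map fun _ => e).map sg).sum := by
  induction L with
  | nil => rfl
  | cons e L ih =>
    simp only [Sm, List.map_cons, List.sum_cons, List.flatMap_cons, List.map_append,
      List.sum_append] at ih ⊢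
    rw [ih]
    congr 1
    simp only [List.map_const', List.length_range, List.map_replicate, List.sum_replicate, sg]
    rw [← natCast_zsmul]
    split_ifs with h
    · rw [Int.natAbs_of_nonneg h]
    · rw [zsmul_neg', show -(e.1.natAbs : ℤ) = e.1 by omega]

theorem sum_eq (M : List (ℤ × TC)) :
    (M.map sg).sum = ∑ i ∈ Finset.range M.length, sg (M.getD i default) := by
  induction M with
  | nil => rfl
  | cons e M ih => simp [Finset.sum_range_succ', ih, add_comm]

theorem inj : Function.Injective fun n : ℕ => E11.phi (tau (0, n + 1, 0)) := fun n n' h => by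
  have e : ∀ n : ℕ, (tau (0, n + 1, 0) : ℂ) = Complex.I * Real.sqrt (n + 1 + 1) := fun n => by
    simp [tau, tz]
  have f : ∀ n : ℕ, tau (0, n + 1, 0) ∈ ModularGroup.fdo := fun n => by
    refine ⟨?_, ?_⟩
    · rw [e, map_mul, Complex.normSq_I, Complex.normSq_ofReal, Real.mul_self_sqrt (by positivity)]
      have : (0 : ℝ) ≤ n := by positivity
      linarith
    · rw [← UpperHalfPlane.coe_re, e]
      simp
  obtain ⟨γ, -, g⟩ := E11.inj (z := tau (0, n + 1, 0)) (w := tau (0, n' + 1, 0))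
    (by rw [← (E11.phi_spec _).2.1, ← (E11.phi_spec _).2.1]; exact congrArg xc h.symm)
    (by rw [← (E11.phi_spec _).2.2, ← (E11.phi_spec _).2.2]; exact congrArg yc h.symm)
  have := ModularGroup.eq_smul_self_of_mem_fdo_mem_fdo (f n) (g ▸ f n')
  rw [← g] at this
  have : Real.sqrt (n + 1 + 1) = Real.sqrt (n' + 1 + 1) := by simpa [tau, tz] using this
  simpa using (Real.sqrt_inj (by positivity) (by positivity)).1 this

/-- The parameters. -/
abbrev PM : Type := List (ℤ × TC) × TC

/-- The points that are added. -/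
def pp (w : PM × ℕ) : Pt := sg (w.1.1.getD w.2 default)

/-- The slope. -/
def sl (w : PM × ℕ) (x : CX) : ℂ := (x.2 - yc (pp w)) / (x.1 - xc (pp w))

/-- The first coordinate of the sum. -/
def uu (w : PM × ℕ) (x : CX) : ℂ := sl w x ^ 2 + 4 - x.1 - xc (pp w)

/-- The second coordinate of the sum. -/
def vv (w : PM × ℕ) (x : CX) : ℂ := -(sl w x * (uu w x - x.1) + x.2)

/-- The coordinates of the sums. -/
def st (a : PM) : ℕ → CX
  | 0 => (E11.XX (tau a.2), E11.YY (tau a.2))
  | n + 1 => (uu (a, n) (st a n), vv (a, n) (st a n))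

/-- The sums. -/
def sm (a : PM) (n : ℕ) : Pt := E11.phi (tau a.2) + ∑ i ∈ Finset.range n, pp (a, i)

theorem st_eq (a : PM) (n : ℕ) (h : ∀ i < n, (st a i).1 ≠ xc (pp (a, i))) :
    sm a n ≠ 0 ∧ st a n = (xc (sm a n), yc (sm a n)) := by
  induction n with
  | zero => simpa [sm, st, eq_comm] using E11.phi_spec (tau a.2)
  | succ n ih =>
    obtain ⟨a0, a1⟩ := ih fun i hi => h i (by omega)
    have hn := h n (by omega)
    rw [a1] at hn
    obtain ⟨b0, b1, b2⟩ := E11.add_spec a0 (sg_spec (a.1.getD n default)).1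
      (m := sl (a, n) (xc (sm a n), yc (sm a n)))
      (div_mul_cancel₀ _ (sub_ne_zero.2 hn)).symm fun e => absurd e hn
    have e : sm a (n + 1) = sm a n + sg (a.1.getD n default) := by
      rw [sm, Finset.sum_range_succ, ← add_assoc]; rfl
    rw [e, st, a1, b2, vv, b1]
    exact ⟨b0, rfl⟩

theorem avoid (M : List (ℤ × TC)) : ∃ t, ∀ i < M.length, (st (M, t) i).1 ≠ xc (pp ((M, t), i)) := by
  classical
  let P := fun i => sg (M.getD i default)
  obtain ⟨_, ⟨n, rfl⟩, hn⟩ := (Set.infinite_range_of_injective inj).exists_notMem_finset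
    ((Finset.range M.length).biUnion fun i =>
      {P i - ∑ j ∈ Finset.range i, P j, -P i - ∑ j ∈ Finset.range i, P j})
  refine ⟨(0, n + 1, 0), fun i => Nat.strong_induction_on i fun i ih hi e => hn ?_⟩
  obtain ⟨a0, a1⟩ := st_eq (M, (0, n + 1, 0)) i fun j hj => ih j hj (hj.trans hi)
  rw [a1] at e
  have p0 : P i ≠ 0 := (sg_spec _).1
  have q := E11.pt_eqn a0
  rw [show xc (sm _ i) = xc (P i) from e, ← E11.pt_eqn p0] at q
  simp only [Finset.mem_biUnion, Finset.mem_range, Finset.mem_insert, Finset.mem_singleton,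
    eq_sub_iff_add_eq]
  obtain ⟨c0, c1, c2⟩ := E11.neg_spec p0
  exact ⟨i, hi, (sq_eq_sq_iff_eq_or_eq_neg.1 q).imp (pt_ext a0 p0 e) fun z =>
    pt_ext a0 c0 (c1 ▸ e) (c2 ▸ z)⟩

theorem re (h : SerStmt) : RE fun M : List (ℤ × TC) => (M.map sg).sum ≠ 0 := by
  have g : PR fun w : PM × ℕ => w.1.1.getD w.2 default := by fun_prop
  have hx : CC fun w => xc (pp w) :=
    (h.1.comp g.snd).of_eq fun w _ => (sg_spec _).2.1.symm
  have hy : CC fun w => yc (pp w) :=
    (Cc.ite (PP.zle (PR.const 0) g.fst) (h.2.comp g.snd) (h.2.comp g.snd).neg).of_eq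
      fun w _ => (sg_spec _).2.2.symm
  have hE : EO fun w (x : CX) => x.1 ≠ xc (pp w) := by simpa using (Cc.fst EO.true).ne hx
  have x1 := Cc.fst hE
  have x2 := Cc.snd hE
  have hx' := hx.mono hE fun _ _ _ => trivial
  have hs : Cc _ sl := (x2.sub (hy.mono hE fun _ _ _ => trivial)).div (x1.sub hx')
    fun _ _ => sub_ne_zero.2
  have hu : Cc _ uu := (((hs.pow 2).add (by simpa using Cc.rat hE 4)).sub x1).sub hx'
  have hv : Cc _ vv := ((hs.mul (hu.sub x1)).add x2).neg
  have z1 : CC fun a => (st a 0).1 := h.1.comp (s := fun a : PM => a.2) (by fun_prop)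
  have z2 : CC fun a => (st a 0).2 := h.2.comp (s := fun a : PM => a.2) (by fun_prop)
  obtain ⟨c1, c2⟩ := chain z1 z2 hu hv fun _ _ => rfl
  have l : PR fun a : PM => (a, a.1.length) := PR.id.pair (Primrec.list_length.comp .fst)
  have d := (c1.comp l).dom
  refine (RE.ex (P := fun M t => (∀ i < M.length, (st (M, t) i).1 ≠ xc (pp ((M, t), i))) ∧
      ((st (M, t) M.length).1 ≠ (st (M, t) 0).1 ∨ (st (M, t) M.length).2 ≠ (st (M, t) 0).2))
    ((((c1.comp l).ne (z1.mono d fun _ _ _ => trivial)).or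
    ((c2.comp l).ne (z2.mono d fun _ _ _ => trivial))).re.of_iff fun _ =>
      and_or_left.symm)).of_iff fun M => ?_
  rw [sum_eq]
  constructor
  · rintro ⟨t, a, b⟩ z
    have e := (st_eq (M, t) _ a).2
    rw [sm, show ∑ i ∈ Finset.range M.length, pp ((M, t), i) = 0 from z, add_zero] at e
    simp [e, st, E11.phi_spec] at b
  · intro z
    obtain ⟨t, a⟩ := avoid M
    obtain ⟨e0, e⟩ := st_eq (M, t) _ a
    refine ⟨t, a, by_contra fun n => z ?_⟩
    rw [e, not_or, not_not, not_not] at n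
    obtain ⟨s0, s1, s2⟩ := E11.phi_spec (tau t)
    exact add_eq_left.1 (pt_ext e0 s0 (n.1.trans s1.symm) (n.2.trans s2.symm))

end Num

theorem num_thm (h : SerStmt) : NumStmt :=
  ((Num.re h).comp (f := fun L : List (ℤ × TC) => L.flatMap fun e =>
    (List.range e.1.natAbs).map fun _ => e) (Primrec.list_flatMap .id
      (PR.map (g := fun (w : List (ℤ × TC) × ℤ × TC) _ => w.2)
        (PR.range (f := fun w : List (ℤ × TC) × ℤ × TC => w.2.1.natAbs)
          (prim_natAbs.comp (Primrec.fst.comp .snd))) (by fun_prop)))).of_iff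
    fun L => by rw [Num.sm_eq]

end Pool.Agent.Lib.MP_d6ddbd_nt.GC
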