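import Pool.Agent.Lib.MP_d6ddbd_nt.GC.Stmt
import Pool.Agent.Lib.MP_d6ddbd_nt.KA.PA

/-! The twisted Heegner system, with the twisted sums written out. -/

set_option autoImplicit false

open Pointwise
open Pool.Agent.Lib.MP_d6ddbd_nt.K11
open Pool.Agent.Lib.MP_d6ddbd_nt.KA (Ok)

noncomputable section

namespace Pool.Agent.Lib.MP_d6ddbd_nt.GC

theorem jac_prod (a : ℤ) (D : Finset ℕ) (h : ∀ l ∈ D, l ≠ 0) :
    jacobiSym a (∏ l ∈ D, l) = ∏ l ∈ D, jacobiSym a l := by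
  induction D using Finset.induction_on with
  | empty => simp
  | insert l D hl ih =>
    have h' : ∀ x ∈ D, x ≠ 0 := fun x hx => h x (Finset.mem_insert_of_mem hx)
    rw [Finset.prod_insert hl, Finset.prod_insert hl,
      jacobiSym.mul_right' a (h l (Finset.mem_insert_self _ _)) (Finset.prod_ne_zero_iff.2 h'),
      ih h']

open PAsm Classical in
theorem pa_thm' : PAStmt := by
  intro Pp a t0 hX q _ hq b δ Q k hb hQ hk
  have hPic := (pic_thm q hq.pr hq.big).2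
  have hKer := kerAll q hq.pr hq.big
  have h11 : Nat.Prime 11 := by norm_num
  have q11 : 11 ≠ q := by have := hq.big; omega
  have rt := (hKer 1 one_ne_zero).2.2.2.2.1
  have hb' := ((hKer 1 one_ne_zero).2.2.2.2.2 11 b h11 q11 (by norm_num) hb).1
  choose! r hr using fun l h h' => (rt l h h').1
  have ex : ∀ l, ∃ (g : Pic q l → ZMod (2 ^ k l)) (dl : ℂ → ZMod (2 ^ k l)),
      k l ≠ 0 → Co l (k l) g dl := fun l => by
    by_cases h : k l = 0
    · exact ⟨0, 0, fun z => (z h).elim⟩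
    · obtain ⟨a1, a2, a4, a5, a6⟩ := hk l h
      exact (co_thm kerAll q hq.pr hq.big l (k l) a1 a2 a4 h a5 a6).imp fun _ h =>
        h.imp fun _ h _ => h
  choose g dl hC using ex
  have cs : ∀ {l} {x y : ZMod (2 ^ k l)}, (k l ≠ 0 → x = y) → x = y := fun {l x y} h =>
    (_root_.em (k l = 0)).elim (fun z => sub z x y) h
  have hg : ∀ l x y, g l (x * y) = g l x + g l y := fun l x y => cs fun h => (hC l h).g_mul x y
  have pl := fun l (h : k l ≠ 0) => ploc_thm vAll g1All pic_thm kerAll q hq.pr hq.big l (k l) _ _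
    (hk l h).1 (hk l h).2.1 (hk l h).2.2.1 h (hC l h)
  have ex : ∀ n, ∃ s : Finset (Pic q n), n ≠ 0 → ∀ x, x ∈ s := fun n => by
    by_cases h : n = 0
    · exact ⟨∅, fun z => (z h).elim⟩
    · have := (hPic n h).1
      exact ⟨Set.finite_univ.toFinset, fun _ x => by simp⟩
  choose s hs using ex
  have n0 : ∀ {c}, Cd k c → ∏ l ∈ c, l ≠ 0 := fun h =>
    Finset.prod_ne_zero_iff.2 fun l hl => (hk l (h l hl)).1.ne_zero
  have nd : ∀ {c l}, Cd k c → l.Prime → l ∉ c → ¬ l ∣ ∏ l ∈ c, l := fun {c l} h hl hc z => by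
    obtain ⟨l', a1, a2⟩ := (Prime.dvd_finsetProd_iff hl.prime _).1 z
    exact hc ((Nat.prime_dvd_prime_iff_eq hl (hk l' (h l' a1)).1).1 a2 ▸ a1)
  have ok : ∀ {c}, Cd k c → Ok (∏ l ∈ c, l) := fun {c} h =>
    ⟨Finset.squarefree_prod_of_pairwise_isCoprime (fun x hx y hy e => Nat.coprime_iff_isRelPrime.1
      ((Nat.coprime_primes (hk x (h x hx)).1 (hk y (h y hy)).1).2 e))
      fun l hl => (hk l (h l hl)).1.squarefree,
    Nat.not_even_iff_odd.1 fun e => nd h Nat.prime_two (fun z => (hk 2 (h 2 z)).2.1 rfl)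
      (even_iff_two_dvd.1 e)⟩
  have dv : ∀ c : Finset ℕ, ∀ l ∈ c, l ∣ ∏ l ∈ c, l := fun c l hl => Finset.dvd_prod_of_mem _ hl
  have fl : ∀ c l, Cd k c → l ≠ 0 → ∀ (x : Pic q (∏ l ∈ c, l)) y,
      y ∈ (s (l * ∏ l ∈ c, l)).filter (fun y => res _ y = x) ↔ res _ y = x :=
    fun c l h hl x y => by simp [hs _ (mul_ne_zero hl (n0 h))]
  have hi := fun c l (h : Cd k c) (hl : k l ≠ 0) (hc : l ∉ c) (sp : ¬ Spl q l) x =>
    hQ.inert _ l x _ (ok h) (hk l hl).1 (hk l hl).2.1 (hk l hl).2.2.1 (nd h (hk l hl).1 hc) sp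
      (fl c l h (hk l hl).1.ne_zero x)
  have lm : ∀ c (v : ℕ) (t : ℤ), Cd k c → v.Prime → v ≠ q → v ∉ c → Rt q v t → ∀ l ∈ c,
      gv g (lam q (∏ l ∈ c, l) v t) l = g l (lam q l v t) := fun c v t h hv hvq hc ht l hl =>
    congrArg (g l) (((hKer _ (n0 h)).2.2.2.2.2 v t hv hvq (nd h hv hc) ht).2.2.2.2.2.2 l
      (dv c l hl)).2
  refine ⟨fun c => T g s Q (∏ l ∈ c, l), fun σ l => g l (ar q l σ),
    fun l => g l (lam q l 11 (1 - b)), fun v l => g l (lam q l v (r v)),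
    ⟨fun c Φ h => ?_,
    fun σ τ h h' => funext fun l => cs fun z => ?_, fun σ h => funext fun l => cs fun z => ?_,
    fun c Φ σ h hΦ hσ => ?_, fun c Φ h hΦ hc => ?_, fun c Φ h hΦ hc => ?_,
    fun c Φ l h hΦ hl hc sp => ?_, fun c Φ l h hΦ hl hc sp l11 => ?_, fun c Φ h hΦ hl hc => ?_,
    fun c Φ p O φ h hΦ hl hc sp hO hφ => ?_,
    fun v O σ l h1 h2 h3 h4 h5 => cs fun z => (pl l z).1 v O σ h1 h5.symm h2 h3 h4,
    fun l O φ l' hl sp hO hφ ne => ?_, fun σ l s h hl => (pl l hl).2.1 σ s h,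
    fun l hl l11 => ((pl l hl).2.2 11 _ h11 (by norm_num) l11.symm q11 hb').1,
    fun l p π i O hl sp hp sp' hi hπ hO => ?_, hX.es, fun O φ l l' hO hF hl hl' l11 l11' => ?_,
    fun v O φ hv hO hF hφ => ?_, fun X h1 h2 => ?_⟩, fun D n h e => ?_⟩
  · let H : AddSubgroup Pt := ⟨⟨⟨{P | AlgP P}, fun {x y} => rAll.1.1.2.1 x y⟩, rAll.1.1.1⟩,
      fun {x} => rAll.1.1.2.2.1 x⟩
    exact H.sum_mem fun x _ => H.zsmul_mem (hQ.alg _ x (ok h)) _
  · exact (congrArg _ (((hPic l (hk l z).1.ne_zero).2.2.2 σ h).2.1 τ h')).trans (hg l _ _)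
  · exact (congrArg _ ((hPic l (hk l z).1.ne_zero).2.2.2 σ h).2.2.1).trans (g_inv hg l _)
  · rw [← shift hg (hs _ (n0 h)) hΦ (ar q _ σ) _ fun l hl =>
      congrArg (g l) (((hPic _ (n0 h)).2.2.2 σ hσ).2.2.2 l (dv c l hl)), T_eq, Finset.smul_sum,
      Finset.smul_sum]
    exact Finset.sum_congr rfl fun x _ => by rw [KA.PA.sm, hQ.act _ x σ (ok h) hσ, smul_comm]
  · rw [← PAsm.flip hg (hs _ (n0 h)) hΦ (lam q _ 11 (1 - b)) _ (lm c 11 _ h h11 q11 hc hb'), T_eq,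
      Finset.smul_sum, Finset.smul_sum]
    exact Finset.sum_congr rfl fun x _ => by
      rw [KA.PA.sm, hQ.conj0 _ x (ok h) (nd h h11 hc), smul_comm]
  · have e := PAsm.flip (P := Q) hg (hs _ (n0 h)) hΦ 1 0 fun l _ => by
      have a : g l 1 = 0 := by simpa using hg l 1 1
      rw [gv, map_one, a, Pi.zero_apply]
    simp only [zero_sub, one_mul] at e
    rw [← e, T_eq, Finset.smul_sum]
    exact Finset.sum_congr rfl fun x _ => by rw [KA.PA.sm, hQ.conj1 _ x (ok h) (dv c 11 hc)]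
  · rw [Finset.prod_insert hc, push (hs _ (n0 h)) hΦ (dv c), T_eq, Finset.smul_sum]
    exact Finset.sum_congr rfl fun x _ => by rw [(hi c l h hl hc sp x).1, smul_comm]
  · have r1 := hr l (hk l hl).1 (hk l hl).2.1 sp
    have r2 := lm c l _ h (hk l hl).1 (hk l hl).2.2.1 hc r1
    have r3 := shift (P := Q) hg (hs _ (n0 h)) hΦ (lam q _ l (r l))⁻¹
      (-fun l' => g l' (lam q l' l (r l))) fun l' hl' => by
        rw [Pi.neg_apply, ← r2 l' hl', gv, gv, map_inv, g_inv hg]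
    simp only [sub_neg_eq_add] at r3
    rw [Finset.prod_insert hc, push (hs _ (n0 h)) hΦ (dv c), ← shift hg (hs _ (n0 h)) hΦ _ _ r2,
      ← r3, T_eq, Finset.smul_sum, Finset.smul_sum, Finset.smul_sum, ← Finset.sum_sub_distrib,
      ← Finset.sum_sub_distrib]
    exact Finset.sum_congr rfl fun x _ => by
      rw [hQ.split _ l _ x _ (ok h) (hk l hl).1 (hk l hl).2.1 l11 (hk l hl).2.2.1
        (nd h (hk l hl).1 hc) r1 (fl c l h (hk l hl).1.ne_zero x), KA.PA.z2]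
  · rw [Finset.prod_insert hc, push (hs _ (n0 h)) hΦ (dv c),
      ← shift hg (hs _ (n0 h)) hΦ _ _ (lm c 11 _ h h11 q11 hc hb'), T_eq, Finset.smul_sum,
      ← Finset.sum_sub_distrib]
    exact Finset.sum_congr rfl fun x _ => by
      rw [hQ.eleven _ x _ (ok h) (nd h h11 hc) (fl c 11 h h11.ne_zero x), KA.PA.z3]
  · rw [Finset.prod_insert hc, T_eq, T_eq, fib (hs _ (n0 h)), Finset.smul_sum,
      ← Finset.sum_sub_distrib]
    refine (E1 O).sum_mem fun x _ => ?_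
    rw [← cnt (hs _ (mul_ne_zero (hk p hl).1.ne_zero (n0 h))) hΦ (dv c) hc x
      (fib_thm pic_thm kerAll q hq.pr hq.big _ p _ _ _ (n0 h) (hk p hl).1 (hk p hl).2.1
        (hk p hl).2.2.1 (nd h (hk p hl).1 hc) sp ((hk p hl).2.2.2.2 sp) (hC p hl) x), KA.PA.sm, z4,
      ← Finset.sum_sub_distrib]
    refine (E1 O).sum_mem fun y hy => ?_
    rw [KA.PA.z5]
    exact (E1 O).zsmul_mem ((hi c p h hl hc sp x).2 O φ hO hφ y hy) _
  · by_cases z : k l' = 0
    · exact ⟨1, odd_one, sub z _ _⟩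
    · exact ((pl l' z).2.2 l _ (hk l hl).1 (hk l hl).2.1 ne.symm (hk l hl).2.2.1
        (hr l (hk l hl).1 (hk l hl).2.1 sp)).2.1 O φ hO hφ
  · obtain ⟨c1, u, hu, e⟩ := ((pl p hp).2.2 l _ (hk l hl).1 (hk l hl).2.1 (fun z => sp' (z ▸ sp))
      (hk l hl).2.2.1 (hr l (hk l hl).1 (hk l hl).2.1 sp)).2.2 π hπ
    rw [← (hC p hp).val π i O sp' c1 hi hO, ← odd_val hu hi (dl p π), ← e]
  · obtain ⟨w, w1, w2⟩ := KA.PA.frob_lam (c := l * l') hq.pr hq.big h11 (by norm_num) q11 hb'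
      (mul_ne_zero (hk l hl).1.ne_zero (hk l' hl').1.ne_zero) (fun z => by
        rcases (Nat.Prime.dvd_mul h11).1 z with z | z
        · exact l11 ((Nat.prime_dvd_prime_iff_eq h11 (hk l hl).1).1 z).symm
        · exact l11' ((Nat.prime_dvd_prime_iff_eq h11 (hk l' hl').1).1 z).symm) hO hF
    refine ⟨hh q, w, by exact_mod_cast (pic_thm q hq.pr hq.big).1, w1, ?_, ?_⟩
    · rw [← PLoc.g_zpow (hC l hl), ← PLoc.g_zpow (hC l hl), w2 l (dvd_mul_right l l')]
    · rw [← PLoc.g_zpow (hC l' hl'), ← PLoc.g_zpow (hC l' hl'), w2 l' (dvd_mul_left l' l)]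
  · obtain ⟨π, h1, h2, h3⟩ := KA.PA.frob_kp hq.pr hq.big hv hO hF hφ
    refine ⟨π, h1, ⟨_, h2⟩, fun l O' hl hlv sp hO' e => ?_⟩
    have nv : ¬ v ∣ l := fun h => hlv ((Nat.prime_dvd_prime_iff_eq hv (hk l hl).1).1 h).symm
    have hc := PLoc.cop_pow hv nv h1 h2
    exact ((hC l hl).g_eq _ π hc (h3 l (hk l hl).1.ne_zero nv)).trans ((ZMod.val_eq_zero _).1
      (Nat.eq_zero_of_dvd_of_lt (((hC l hl).val π _ O' sp hc le_rfl hO').2 e) (ZMod.val_lt _)))
  · rw [Finset.prod_empty, T_eq]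
    simpa only [one_zsmul] using hQ.base _ X (hs 1 one_ne_zero) h1 h2
  · subst e
    refine ⟨fun x => KK.chi D (gv g x), ⟨?_, fun x y => ?_, fun v t hv v2 vq nv ht => ?_⟩,
      fun s' hs' => ?_⟩
    · refine Finset.prod_eq_one fun l _ => (KK.sg_eq_one _).2 ?_
      have a : g l 1 = 0 := by simpa using hg l 1 1
      rw [gv, map_one, a, ZMod.val_zero]
      exact Even.zero
    · rw [KK.chi, KK.chi, KK.chi, ← Finset.prod_mul_distrib]
      refine Finset.prod_congr rfl fun l hl => ?_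
      rw [gv, gv, gv, map_mul, hg, KK.sg_add (h l hl)]
    · have vD : v ∉ D := fun z => nv (dv D v z)
      rw [jac_prod v D fun l hl => (hk l (h l hl)).1.ne_zero]
      refine Finset.prod_congr rfl fun l hl => ?_
      have vl : v ≠ l := fun z => vD (z ▸ hl)
      have e := ((pl l (h l hl)).2.2 v t hv v2 vl vq ht).1
      rw [lm D v t h hv vq vD ht l hl]
      rw [← KK.sg_eq_one] at e
      have c : (v : ℤ).gcd l = 1 := by
        rw [Int.gcd_natCast_natCast]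
        exact (Nat.coprime_primes hv (hk l (h l hl)).1).2 vl
      rcases jacobiSym.eq_one_or_neg_one c with z | z
      · rw [z, e.2 z]
      · rcases KK.sg_or (g l (lam q l v t)) with y | y
        · rw [e.1 y, y]
        · rw [y, z]
    · have : s' = s (∏ l ∈ D, l) := Finset.ext fun x => iff_of_true (hs' x) (hs _ (n0 h) x)
      rw [this, T_eq]

end Pool.Agent.Lib.MP_d6ddbd_nt.GC
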