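import Pool.Agent.Lib.MP_d6ddbd_nt.GC.Chr
import Pool.Agent.Lib.MP_d6ddbd_nt.KA.GalA
import Pool.Agent.Lib.MP_d6ddbd_nt.KA.Xa2

/-!
The point of the upper half plane that belongs to a class.
-/

set_option autoImplicit false

open Pointwise
open Pool.Agent.Lib.MP_9177b7_ag.CM (sp sp_le mem_sp left_mem_sp right_mem_sp smul_sp)
open Pool.Agent.Lib.MP_d6ddbd_nt.K11
open Pool.Agent.Lib.MP_d6ddbd_nt.KA (lvA hQ Ok galA_thm xi_ex xa2_thm)

noncomputable section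

namespace Pool.Agent.Lib.MP_d6ddbd_nt.GC

namespace PhiA

theorem sp_neg (x y : ℂ) : sp (-x) y = sp x y :=
  le_antisymm (sp_le.2 ⟨neg_mem (left_mem_sp x y), right_mem_sp x y⟩)
    (sp_le.2 ⟨by simpa using neg_mem (left_mem_sp (-x) y), right_mem_sp _ y⟩)

variable {q : ℕ} [hq : Fact (q % 4 = 3)]

theorem mul_tz {c : ℕ} (hc : c ≠ 0) {e : ℕ × ℤ} (ha : 0 < e.1) (hd : (e.1 : ℤ) ∣ nc q 1 e.2) :
    ((c : ℂ) * om q - ((c * e.2 : ℤ) : ℂ)) * tz (tc q c e) = -(e.1 : ℂ) := by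
  obtain ⟨a, r⟩ := e
  simp only at ha hd ⊢
  have h4 := hq.out
  have hk : 0 < (q + 1) / 4 := by omega
  have hN : 0 < nc q 1 r := by
    have : (0 : ℤ) < ((q + 1) / 4 : ℕ) := by exact_mod_cast hk
    have h2 : 0 ≤ r ^ 2 - r := by nlinarith [sq_nonneg (2 * r - 1), sq_nonneg r, sq_nonneg (r - 1)]
    simp only [nc]
    push_cast at this ⊢
    linarith
  obtain ⟨m, hm⟩ : a ∣ (nc q 1 r).natAbs := Int.natCast_dvd.1 hd
  have hm0 : m ≠ 0 := by
    rintro rfl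
    rw [mul_zero, Int.natAbs_eq_zero] at hm
    exact hN.ne' hm
  have e1 : (nc q 1 r).natAbs / a = m := by rw [hm, Nat.mul_div_cancel_left _ ha]
  have e2 : ((nc q 1 r : ℤ) : ℂ) = a * m := by
    rw [← abs_of_pos hN, ← Int.natCast_natAbs, hm]
    push_cast
    rfl
  have e3 : ((2 * c * m - 1 : ℕ) : ℂ) + 1 = 2 * c * m := by
    have : 1 ≤ 2 * c * m := Nat.pos_of_ne_zero (by positivity)
    rw [Nat.cast_sub this]
    push_cast
    ring
  have e4 : ((q - 1 : ℕ) : ℝ) + 1 = q := by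
    rw [Nat.cast_sub (by omega)]
    simp
  have e5 := om_sq h4
  have e6 : Complex.I * Real.sqrt q = 2 * om q - 1 := by
    rw [om]
    ring
  have c0 : (c : ℂ) ≠ 0 := Nat.cast_ne_zero.2 hc
  have m0 : (m : ℂ) ≠ 0 := Nat.cast_ne_zero.2 hm0
  simp only [tz, tc, e1, e3, e4, e6]
  simp only [nc] at e2
  push_cast at e2 e5 ⊢
  field_simp
  linear_combination 2 * e5 - 2 * e2

theorem lev11 {c a : ℕ} {r : ℤ} (hd : (a : ℤ) ∣ nc q 1 r) (ha : a.Coprime 11) :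
    Oc q c * sp a (((11 * c : ℕ) : ℂ) * om q - (((11 * c : ℕ) * r : ℤ) : ℂ)) =
      sp a (c * om q - c * r) := by
  obtain ⟨k, hk⟩ := hd
  have e2 : ((nc q 1 r : ℤ) : ℂ) = a * k := by rw [hk]; push_cast; rfl
  have e5 := om_sq hq.out
  simp only [nc] at e2
  obtain ⟨u, v, e⟩ := Nat.isCoprime_iff_coprime.2 ha
  have e' : (u : ℂ) * a + v * 11 = 1 := by exact_mod_cast e
  refine le_antisymm (Submodule.mul_le.2 fun x hx y hy => ?_) (sp_le.2 ⟨?_, ?_⟩)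
  · obtain ⟨m, n, rfl⟩ := mem_sp.1 hx
    obtain ⟨m', n', rfl⟩ := mem_sp.1 hy
    refine mem_sp.2 ⟨m * m' + n * m' * c * r - 11 * n * n' * c ^ 2 * k,
      11 * m * n' + n * m' * a + 11 * n * n' * c * (1 - r), ?_⟩
    push_cast at e2 e5 ⊢
    linear_combination -(11 : ℂ) * n * n' * c ^ 2 * e5 + 11 * n * n' * c ^ 2 * e2
  · simpa using Submodule.mul_mem_mul (one_mem_Oc q c) (left_mem_sp (a : ℂ) _)
  · have h1 := Submodule.mul_mem_mul (one_mem_Oc q c)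
      (left_mem_sp (a : ℂ) (((11 * c : ℕ) : ℂ) * om q - (((11 * c : ℕ) * r : ℤ) : ℂ)))
    have h2 := Submodule.mul_mem_mul (one_mem_Oc q c)
      (right_mem_sp (a : ℂ) (((11 * c : ℕ) : ℂ) * om q - (((11 * c : ℕ) * r : ℤ) : ℂ)))
    have h3 := Submodule.mul_mem_mul (right_mem_sp (1 : ℂ) ((c : ℂ) * om q))
      (left_mem_sp (a : ℂ) (((11 * c : ℕ) : ℂ) * om q - (((11 * c : ℕ) * r : ℤ) : ℂ)))
    refine Ker.of_eq (add_mem (add_mem (Ker.zmul u h3) (Ker.zmul v h2))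
      (Ker.zmul (-(u * c * r)) h1)) ?_
    push_cast
    linear_combination -((c : ℂ) * om q - c * r) * e'

theorem lev (hp : q.Prime) (h44 : 44 < q) {c a : ℕ} {b r : ℤ} (hb : Rt q 11 b)
    (hd : (a : ℤ) ∣ nc q 1 r) (ha : a.Coprime 11) (hr : (11 : ℤ) ∣ r - b) :
    lvA q c b (La q c a (c * r)) = sp a ((c * om q - ((c * r : ℤ) : ℂ)) * (1 / 11)) := by
  rw [lvA]
  split_ifs with h
  · obtain ⟨c, rfl⟩ := h
    rw [Nat.mul_div_cancel_left _ (by norm_num), La, lev11 hd ha]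
    congr 1
    push_cast
    ring
  · obtain ⟨k, hk⟩ := hr
    have hk' : (r : ℂ) - b = 11 * k := by exact_mod_cast hk
    have e1 : pid q c 11 b = pid q c 11 r := by
      refine le_antisymm (sp_le.2 ⟨left_mem_sp _ _, mem_sp.2 ⟨c * k, 1, ?_⟩⟩)
        (sp_le.2 ⟨left_mem_sp _ _, mem_sp.2 ⟨-(c * k), 1, ?_⟩⟩)
      · push_cast
        linear_combination -(c : ℂ) * hk'
      · push_cast
        linear_combination (c : ℂ) * hk'
    have h1 : ((11 : ℕ) : ℤ) ∣ r ^ 2 - r + ((q + 1) / 4 : ℕ) := by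
      obtain ⟨j, hj⟩ := hb
      refine ⟨j + k * (r + b - 1), ?_⟩
      push_cast at hj ⊢
      linear_combination hj + (r + b - 1) * hk
    have h2 : (a : ℤ) ∣ r ^ 2 - r + ((q + 1) / 4 : ℕ) := by simpa [nc] using hd
    have h3 : Rt q (11 * a) r := by
      rw [Rt, Nat.cast_mul]
      exact (Nat.isCoprime_iff_coprime.2 ha.symm).mul_dvd h1 h2
    have e2 := pid_mul_pid (c := c) hp (by norm_num) (by omega) h h3
    rw [lvl, e1, show La q c a (c * r) = pid q c a r from rfl, e2, pid, smul_sp]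
    congr 1
    · push_cast
      ring
    · ring

end PhiA

open PhiA

theorem phi_thm : PhiStmt := by
  intro q _ hp h44 n c b e x hn hc hb hg hx
  obtain ⟨a0, hX, -⟩ := xi_ex xa2_thm
  have c0 : c ≠ 0 := by
    rintro rfl
    exact mul_ne_zero (by norm_num) hn.1.ne_zero (zero_dvd_iff.1 hc)
  have h121 : ¬ 121 ∣ c := fun h => by
    have h1 : 11 * 11 ∣ n := (by norm_num : Nat.Coprime (11 * 11) 8).dvd_of_dvd_mul_left
      (h.trans hc)
    exact absurd (Nat.isUnit_iff.1 (hn.1 11 h1)) (by norm_num)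
  have hG := fun y => (galA_thm _ _ _ hX q hp h44 b c hb c0 h121 y).1
  have h11 : e.1.Coprime 11 := hg.2.1.coprime_dvd_right ⟨2 * n * q, by ring⟩
  have hz := mul_tz c0 hg.1 hg.2.2.1
  have hP : E11.Pr (La q c e.1 (c * e.2)) (lvA q c b (La q c e.1 (c * e.2)))
      ((c : ℂ) * om q - ((c * e.2 : ℤ) : ℂ)) (tau (tc q c e)) := by
    refine ⟨fun h => ?_, ?_, ?_⟩
    · rw [h, zero_mul, eq_comm, neg_eq_zero, Nat.cast_eq_zero] at hz
      exact hg.1.ne' hz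
    · rw [smul_sp, show ((tau (tc q c e) : UpperHalfPlane) : ℂ) = tz (tc q c e) from rfl, hz,
        sp_neg, mul_one, La]
    · rw [smul_sp, show ((tau (tc q c e) : UpperHalfPlane) : ℂ) = tz (tc q c e) from rfl, hz,
        sp_neg, lev hp h44 hb hg.2.2.1 h11 hg.2.2.2]
  have h1 : hQ E11.Pp b x = E11.phi (tau (tc q c e)) := by rw [← (hG x _ hx).2, hP.pp]
  refine ⟨h1, fun x' h => ?_⟩
  obtain ⟨l1, l2⟩ := hG x' _ (cl_out x')
  obtain ⟨d, z, k⟩ := E11.lv_pr l1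
  have h2 : E11.phi z = E11.phi (tau (tc q c e)) := by rw [← k.pp, l2, h, h1]
  obtain ⟨γ, hγ, rfl⟩ := E11.inj (z := tau (tc q c e)) (w := z)
    (by rw [← (E11.phi_spec z).2.1, h2, (E11.phi_spec _).2.1])
    (by rw [← (E11.phi_spec z).2.2, h2, (E11.phi_spec _).2.2])
  have h3 := hP.smul hγ
  have h4 := hx.smul (mul_ne_zero k.1 (inv_ne_zero h3.1))
  rw [h3.2.1, smul_smul, inv_mul_cancel_right₀ h3.1, ← k.2.1] at h4
  exact (cl_out x').unique h4

end Pool.Agent.Lib.MP_d6ddbd_nt.GC
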