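import Pool.Agent.Lib.MP_d6ddbd_nt.GC.Stmt

/-! Every class has a good representative. -/

set_option autoImplicit false

open Pointwise
open Pool.Agent.Lib.MP_9177b7_ag.CM (sp sp_le mem_sp smul_sp)
open Pool.Agent.Lib.MP_d6ddbd_nt.K11

noncomputable section

namespace Pool.Agent.Lib.MP_d6ddbd_nt.GC

namespace Rep

/-- A primitive form represents a number prime to a given one. -/
theorem exi (u t m : ℤ) (h : Int.gcd (Int.gcd u t) m = 1) (M : ℕ) (hM : M ≠ 0) :
    ∃ x y : ℤ, IsCoprime x y ∧ (u * x ^ 2 + t * x * y + m * y ^ 2).natAbs.Coprime M := by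
  classical
  have key : ∀ (s : Finset ℕ) (p : ℕ), p.Prime → (∀ l ∈ s, l.Prime) →
      ((p : ℤ) ∣ ∏ l ∈ s, (l : ℤ) ↔ p ∈ s) := fun s p hp hs =>
    ⟨fun z => by
      obtain ⟨l, a, b⟩ := (Prime.dvd_finsetProd_iff (Nat.prime_iff_prime_int.1 hp) _).1 z
      rwa [(Nat.prime_dvd_prime_iff_eq hp (hs l a)).1 (Int.natCast_dvd_natCast.1 b)],
    fun z => Finset.dvd_prod_of_mem (fun l : ℕ => (l : ℤ)) z⟩
  have pr : ∀ (P : ℕ → Prop) [DecidablePred P], ∀ l ∈ M.primeFactors.filter P, l.Prime :=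
    fun P _ l hl => Nat.prime_of_mem_primeFactors (Finset.mem_filter.1 hl).1
  refine ⟨∏ l ∈ M.primeFactors.filter fun l : ℕ => (l : ℤ) ∣ u ∧ ¬ (l : ℤ) ∣ m, l,
    ∏ l ∈ M.primeFactors.filter fun l : ℕ => ¬ (l : ℤ) ∣ u, l, ?_, ?_⟩
  · refine Int.isCoprime_iff_gcd_eq_one.2 (Nat.eq_one_iff_not_exists_prime_dvd.2 fun p hp d => ?_)
    have d' := Int.natCast_dvd_natCast.2 d
    have a := (key _ p hp (pr _)).1 (d'.trans (Int.gcd_dvd_left _ _))
    have b := (key _ p hp (pr _)).1 (d'.trans (Int.gcd_dvd_right _ _))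
    exact (Finset.mem_filter.1 b).2 (Finset.mem_filter.1 a).2.1
  · refine Nat.Coprime.symm (Nat.coprime_of_dvd fun p hp d e => ?_)
    have hp' := Nat.prime_iff_prime_int.1 hp
    have hm : p ∈ M.primeFactors := Nat.mem_primeFactors.2 ⟨hp, d, hM⟩
    have a := key _ p hp (pr fun l : ℕ => (l : ℤ) ∣ u ∧ ¬ (l : ℤ) ∣ m)
    have b := key _ p hp (pr fun l : ℕ => ¬ (l : ℤ) ∣ u)
    rw [Finset.mem_filter, and_iff_right hm] at a b
    rw [← Int.natCast_dvd] at e
    generalize (∏ l ∈ M.primeFactors.filter fun l : ℕ => (l : ℤ) ∣ u ∧ ¬ (l : ℤ) ∣ m, (l : ℤ)) = x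
      at a e
    generalize (∏ l ∈ M.primeFactors.filter fun l : ℕ => ¬ (l : ℤ) ∣ u, (l : ℤ)) = y at b e
    by_cases hu : (p : ℤ) ∣ u
    · have hy : ¬ (p : ℤ) ∣ y := fun z => b.1 z hu
      by_cases hm : (p : ℤ) ∣ m
      · have hx : ¬ (p : ℤ) ∣ x := fun z => (a.1 z).2 hm
        have e' : (p : ℤ) ∣ t * x * y := by
          have := dvd_sub (dvd_sub e (hu.mul_right (x ^ 2))) (hm.mul_right (y ^ 2))
          rwa [show u * x ^ 2 + t * x * y + m * y ^ 2 - u * x ^ 2 - m * y ^ 2 = t * x * y by ring]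
            at this
        have ht := (hp'.dvd_or_dvd ((hp'.dvd_or_dvd e').resolve_right hy)).resolve_right hx
        have := Int.dvd_coe_gcd (Int.dvd_coe_gcd hu ht) hm
        rw [h] at this
        exact hp'.not_dvd_one this
      · have hx := a.2 ⟨hu, hm⟩
        have := dvd_sub e (hx.mul_right (u * x + t * y))
        rw [show u * x ^ 2 + t * x * y + m * y ^ 2 - x * (u * x + t * y) = m * y ^ 2 by ring]
          at this
        exact hy (hp'.dvd_of_dvd_pow ((hp'.dvd_or_dvd this).resolve_left hm))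
    · have hy := b.2 hu
      have := dvd_sub e (hy.mul_right (t * x + m * y))
      rw [show u * x ^ 2 + t * x * y + m * y ^ 2 - y * (t * x + m * y) = u * x ^ 2 by ring] at this
      exact hu (a.1 (hp'.dvd_of_dvd_pow ((hp'.dvd_or_dvd this).resolve_left hu))).1

/-- Change of basis. -/
theorem basis {w : ℂ} {u t m x y z s : ℤ} (hu : u ≠ 0) (hw : w ^ 2 = t * w - u * m)
    (h : x * s - y * z = 1) (g : ℤ) :
    ((x * u + y * (t - w)) / u) • sp u w = sp (u * x ^ 2 + t * x * y + m * y ^ 2 : ℤ)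
      (w + (x * z * u + y * z * t + y * s * m + g * (u * x ^ 2 + t * x * y + m * y ^ 2) : ℤ)) := by
  have hu' : (u : ℂ) ≠ 0 := Int.cast_ne_zero.2 hu
  have h' : (x : ℂ) * s - y * z = 1 := by exact_mod_cast h
  have e : ((x * u + y * (t - w)) / u : ℂ) * w = x * w + y * m := by
    field_simp
    linear_combination -(y : ℂ) * hw
  rw [smul_sp, div_mul_cancel₀ _ hu', e]
  refine le_antisymm (sp_le.2 ⟨mem_sp.2 ⟨s + y * g, -y, ?_⟩, mem_sp.2 ⟨-z - x * g, x, ?_⟩⟩)
    (sp_le.2 ⟨mem_sp.2 ⟨x, y, ?_⟩, mem_sp.2 ⟨z + g * x, s + g * y, ?_⟩⟩)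
  · push_cast
    linear_combination ((x : ℂ) * u + y * t) * h'
  · push_cast
    linear_combination ((y : ℂ) * m) * h'
  · push_cast
    ring
  · push_cast
    linear_combination w * h'

end Rep

theorem rep_thm (h : RedStmt) : RepStmt := by
  intro q hq hp h44 n b hn Y
  have c0 : 8 * n ≠ 0 := by omega
  obtain ⟨h1, h2⟩ := h q hp h44 (8 * n) c0
  obtain ⟨u, v, u0, -, -, hY⟩ := h2 Y
  obtain ⟨⟨m, hm⟩, hg⟩ := (h1 u v u0).1 hY.inv
  have u0' : (u : ℤ) ≠ 0 := by omega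
  rw [hm, Int.mul_ediv_cancel_left _ u0'] at hg
  obtain ⟨x, y, ⟨s, z', hs⟩, hc⟩ := Rep.exi _ _ _ hg (22 * n * q)
    (mul_ne_zero (by omega) hp.ne_zero)
  obtain ⟨z, rfl⟩ : ∃ z, z' = -z := ⟨-z', by ring⟩
  have hd : x * s - y * z = 1 := by linear_combination hs
  generalize hcn : 8 * n = c at *
  generalize ht : (c : ℤ) - 2 * v = t at *
  generalize hf : u * x ^ 2 + t * x * y + m * y ^ 2 = f at hc
  have hk : 1 ≤ (q + 1) / 4 := by omega
  have f0 : 0 ≤ f := by
    have hk' : (1 : ℤ) ≤ ((q + 1) / 4 : ℕ) := by exact_mod_cast hk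
    have e : 4 * u * f = (2 * u * x + t * y) ^ 2 +
        (c : ℤ) ^ 2 * (4 * ((q + 1) / 4 : ℕ) - 1) * y ^ 2 := by
      rw [nc] at hm
      rw [← hf, ← ht]
      linear_combination -4 * y ^ 2 * hm
    have : 0 ≤ 4 * u * f := by
      rw [e]
      have : (0 : ℤ) ≤ 4 * ((q + 1) / 4 : ℕ) - 1 := by omega
      positivity
    exact nonneg_of_mul_nonneg_right this (by omega)
  obtain ⟨a, rfl⟩ := Int.eq_ofNat_of_zero_le f0
  rw [Int.natAbs_natCast] at hc
  have a2 : a.Coprime 2 := hc.coprime_dvd_right ⟨11 * n * q, by ring⟩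
  have a11 : a.Coprime 11 := hc.coprime_dvd_right ⟨2 * n * q, by ring⟩
  have ac : a.Coprime c := hcn ▸ Nat.Coprime.mul_right (a2.pow_right 3)
    (hc.coprime_dvd_right ⟨22 * q, by ring⟩)
  have a0 : 0 < a := Nat.pos_of_ne_zero fun e => by simp [e] at a2
  have ac' : IsCoprime (a : ℤ) c := Nat.isCoprime_iff_coprime.2 ac
  obtain ⟨i, j, hij⟩ := ac'.mul_right (Nat.isCoprime_iff_coprime.2 a11)
  generalize hκ : x * z * u + y * z * t + y * s * m = κ
  have hw : ((c : ℂ) * om q - v) ^ 2 = t * (c * om q - v) - (u : ℤ) * m := by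
    have e := com_sq hq.out c
    have e' : ((nc q c v : ℤ) : ℂ) = ((u * m : ℤ) : ℂ) := congrArg _ hm
    rw [nc] at e'
    rw [← ht]
    push_cast at e e' ⊢
    linear_combination e - e'
  have hb := Rep.basis u0' hw hd (i * (v - κ - c * b))
  rw [hf, hκ] at hb
  have hr : v - (κ + i * (v - κ - c * b) * a) = c * (b + 11 * (j * (v - κ - c * b))) := by
    push_cast at hij
    linear_combination -(v - κ - c * b) * hij
  refine ⟨(a, b + 11 * (j * (v - κ - c * b))), ⟨a0, hc, ?_, ⟨j * (v - κ - c * b), by ring⟩⟩, ?_⟩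
  · refine (ac'.pow_right (n := 2)).dvd_of_dvd_mul_left ?_
    have e : (c : ℤ) ^ 2 * nc q 1 (b + 11 * (j * (v - κ - c * b))) =
        nc q c (v - (κ + i * (v - κ - c * b) * a)) := by
      rw [hr, nc, nc]
      push_cast
      ring
    generalize i * (v - κ - c * b) = g at e
    refine ⟨u * z ^ 2 + t * z * s + m * s ^ 2 + g * (t + 2 * κ + g * a), ?_⟩
    have e' : κ ^ 2 + t * κ + u * m = a * (u * z ^ 2 + t * z * s + m * s ^ 2) := by
      rw [← hf, ← hκ]
      linear_combination (-u * m * (x * s - y * z + 1) - t * (x * z * u + y * z * t + y * s * m)) * hd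
    rw [e, nc]
    rw [nc] at hm
    linear_combination hm + e' + (κ + g * a) * ht
  · have hμ : (x * (u : ℤ) + y * (t - ((c : ℂ) * om q - v))) / (u : ℤ) ≠ 0 := fun e => by
      rw [e, smul_sp, zero_mul, zero_mul] at hb
      obtain ⟨_, _, e'⟩ := mem_sp.1 (sp_le.1 hb.ge).1
      rw [mul_zero, mul_zero, add_zero, eq_comm, Int.cast_eq_zero] at e'
      omega
    have := hY.smul hμ
    rw [La, ← Int.cast_natCast (R := ℂ) u, hb] at this
    rw [La, ← hr]
    convert this using 2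
    · simp
    · push_cast
      ring

end Pool.Agent.Lib.MP_d6ddbd_nt.GC
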