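import Pool.Agent.Lib.MP_d6ddbd_nt.GC.StN
import Pool.Agent.Lib.MP_d6ddbd_nt.E11.Exp

/-!
The modular parametrisation is computable, given the local parameter and the exponential.
-/

set_option autoImplicit false

open Pool.Agent.Sand.Check Finset Filter Topology

noncomputable section

namespace Pool.Agent.Lib.MP_d6ddbd_nt.GC

variable {α : Type} [Primcodable α] {q : α → ℂ}

/-- An upper bound of the norm. -/
def rho (z : ℂ) : ℝ := (1 + Complex.normSq z) / 2

theorem rho_ge (z : ℂ) : ‖z‖ ≤ rho z := by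
  rw [rho, Complex.normSq_eq_norm_sq]
  nlinarith [sq_nonneg (‖z‖ - 1)]

theorem rho_lt {z : ℂ} (h : ‖z‖ < 1) : rho z < 1 := by
  rw [rho, Complex.normSq_eq_norm_sq]
  nlinarith [norm_nonneg z]

theorem rho_nn (z : ℂ) : 0 ≤ rho z := (norm_nonneg z).trans (rho_ge z)

theorem cc_rho (h : CC q) : CC fun a => (rho (q a) : ℂ) :=
  (((Cc.rat EO.true 1).add h.normSq.ofReal).mul (Cc.rat EO.true (1 / 2))).of_eq fun a _ => by
    simp [rho, div_eq_mul_inv]

theorem cc_geo (h : CC q) (h1 : ∀ a, ‖q a‖ < 1) : CC fun a => ((1 - rho (q a))⁻¹ : ℝ) :=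
  (((Cc.rat EO.true 1).sub (cc_rho h)).inv fun a _ _ => by
    beta_reduce
    exact_mod_cast (sub_pos.2 (rho_lt (h1 a))).ne').of_eq fun a _ => by simp

theorem cc_sigma (k : ℕ) : CC fun n : ℕ => (ArithmeticFunction.sigma k n : ℂ) := by
  have p : PP fun w : ℕ × ℕ => w.1 % (w.2 + 1) = 0 :=
    PP.eq (Primrec.nat_mod.comp Primrec.fst (Primrec.succ.comp Primrec.snd)) (PR.const _)
  have h : CC fun w : ℕ × ℕ => if w.1 % (w.2 + 1) = 0 then ((w.2 + 1 : ℕ) : ℂ) ^ k else (0 : ℚ) :=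
    Cc.ite p ((Cc.nat EO.true (by fun_prop)).pow k) (Cc.rat EO.true 0)
  refine (h.sum.comp (s := fun n : ℕ => (n, n)) (by fun_prop)).of_eq fun n _ => ?_
  beta_reduce
  rw [ArithmeticFunction.sigma_apply, Nat.divisors, sum_filter, sum_Ico_eq_sum_range]
  push_cast
  refine sum_congr (by simp) fun i _ => ?_
  simp [Nat.dvd_iff_mod_eq_zero, add_comm]

theorem pr_asc (j : ℕ) : PR fun n : ℕ => (n + 1).ascFactorial j := by
  induction j with
  | zero => exact PR.const 1
  | succ j ih =>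
    simp only [Nat.ascFactorial_succ]
    fun_prop

/-- Series with divisor sums as coefficients. -/
theorem cc_ser (k : ℕ) (c : ℤ) (h : CC q) (h1 : ∀ a, ‖q a‖ < 1) {F : α → ℂ}
    (s : ∀ a, HasSum (fun n : ℕ =>
      (if n = 0 then 1 else c * ArithmeticFunction.sigma k n : ℂ) * q a ^ n) (F a)) : CC F := by
  have p : PP fun w : α × ℕ => w.2 = 0 := by fun_prop
  have t : CC fun w : α × ℕ =>
      (if w.2 = 0 then 1 else c * ArithmeticFunction.sigma k w.2 : ℂ) * q w.1 ^ w.2 :=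
    (Cc.ite p (by simpa using Cc.rat EO.true 1) ((Cc.int EO.true (PR.const c)).mul
      ((cc_sigma k).comp (by fun_prop)))).mul (CC.npow (h.comp (by fun_prop)) (by fun_prop))
  have b : CC fun w : α × ℕ => (((c.natAbs + 1 : ℕ) * ((w.2 + 1).ascFactorial (k + 1) *
      rho (q w.1) ^ w.2) : ℝ) : ℂ) :=
    ((Cc.nat EO.true (PR.const (c.natAbs + 1))).mul ((Cc.nat EO.true ((pr_asc (k + 1)).comp
      (g := fun w : α × ℕ => w.2) (by fun_prop))).mul (CC.npow ((cc_rho h).comp
        (s := fun w : α × ℕ => w.1) (by fun_prop)) (n := fun w => w.2) (by fun_prop)))).of_eq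
      fun w _ => by push_cast; rfl
  have B : CC fun a => (((c.natAbs + 1 : ℕ) * ((k + 1).factorial *
      (1 - rho (q a))⁻¹ ^ (k + 2)) : ℝ) : ℂ) :=
    ((Cc.nat EO.true (PR.const (c.natAbs + 1))).mul ((Cc.nat EO.true
      (PR.const (k + 1).factorial)).mul ((cc_geo h h1).pow (k + 2)))).of_eq
      fun w _ => by push_cast; rfl
  refine CC.hasSum t b.1 B.1 (fun w => ?_) s fun a => ?_
  · have e1 : (w.2 + 1 : ℝ) ^ (k + 1) ≤ (w.2 + 1).ascFactorial (k + 1) := by
      exact_mod_cast Nat.pow_succ_le_ascFactorial (w.2 + 1) (k + 1)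
    have e2 : (ArithmeticFunction.sigma k w.2 : ℝ) ≤ (w.2 + 1 : ℝ) ^ (k + 1) := by
      exact_mod_cast (ArithmeticFunction.sigma_le_pow_succ k w.2).trans
        (Nat.pow_le_pow_left (Nat.le_succ _) _)
    have e3 : (1 : ℝ) ≤ (w.2 + 1 : ℝ) ^ (k + 1) := one_le_pow₀ (by simp)
    rw [Complex.ofReal_re, norm_mul, norm_pow, ← mul_assoc]
    refine mul_le_mul ?_ (pow_le_pow_left₀ (norm_nonneg _) (rho_ge _) _) (by positivity)
      (by positivity)
    rw [Nat.cast_add, Nat.cast_one, Nat.cast_natAbs, Int.cast_abs]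
    split_ifs
    · rw [norm_one]
      nlinarith [abs_nonneg (c : ℝ)]
    · rw [norm_mul, Complex.norm_intCast, Complex.norm_natCast]
      nlinarith [abs_nonneg (c : ℝ)]
  · simp only [Complex.ofReal_re, Nat.ascFactorial_eq_factorial_mul_choose, Nat.cast_mul, mul_assoc]
    refine HasSum.mul_left _ (HasSum.mul_left _ ?_)
    simpa using hasSum_choose_mul_geometric_of_norm_lt_one (k + 1) (r := rho (q a))
      (by rw [Real.norm_of_nonneg (rho_nn _)]; exact rho_lt (h1 a))

theorem norm_euler {z : ℂ} (h : ‖z‖ < 1) (N : ℕ) :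
    ‖∏ i ∈ range N, (1 - z ^ (i + 1))‖ ≤ Real.exp (1 - rho z)⁻¹ := by
  have g := hasSum_geometric_of_lt_one (rho_nn z) (rho_lt h)
  refine (Finset.norm_prod_le _ _).trans ((prod_le_prod (g := fun i => Real.exp (rho z ^ i))
    (fun _ _ => norm_nonneg _) fun i _ => ?_).trans ?_)
  · refine (norm_sub_le _ _).trans (le_trans ?_ (Real.add_one_le_exp _))
    rw [norm_one, norm_pow, add_comm, add_le_add_iff_right]
    exact (pow_le_pow_of_le_one (norm_nonneg _) h.le (Nat.le_succ i)).trans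
      (pow_le_pow_left₀ (norm_nonneg _) (rho_ge _) _)
  · rw [← Real.exp_sum]
    exact Real.exp_le_exp.2 (sum_le_hasSum _ (fun i _ => pow_nonneg (rho_nn z) i) g)

/-- The Euler product. -/
theorem cc_euler (h : CC q) (h1 : ∀ a, ‖q a‖ < 1)
    (hexp : ∀ g : α → ℂ, CC g → CC fun a => Complex.exp (g a)) :
    CC fun a => ∏' n : ℕ, (1 - q a ^ (n + 1)) := by
  have p : CC fun w : α × ℕ => q w.1 ^ (w.2 + 1) := CC.npow (h.comp (by fun_prop)) (by fun_prop)
  have t : CC fun w : α × ℕ => -(q w.1 ^ (w.2 + 1)) * ∏ i ∈ range w.2, (1 - q w.1 ^ (i + 1)) :=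
    p.neg.mul (CC.prod (f := fun w => 1 - q w.1 ^ (w.2 + 1))
      (by simpa using (Cc.rat EO.true 1).sub p))
  have x := hexp _ (cc_geo h h1)
  have b : CC fun w : α × ℕ => ((rho (q w.1) ^ w.2 * Real.exp (1 - rho (q w.1))⁻¹ : ℝ) : ℂ) :=
    ((CC.npow ((cc_rho h).comp (s := fun w : α × ℕ => w.1) (by fun_prop)) (n := fun w => w.2)
      (by fun_prop)).mul (x.comp (s := fun w : α × ℕ => w.1) (by fun_prop))).of_eq
      fun w _ => by push_cast; rfl
  have B : CC fun a => (((1 - rho (q a))⁻¹ * Real.exp (1 - rho (q a))⁻¹ : ℝ) : ℂ) :=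
    ((cc_geo h h1).mul x).of_eq fun w _ => by push_cast; rfl
  have le : ∀ w : α × ℕ, ‖-(q w.1 ^ (w.2 + 1)) * ∏ i ∈ range w.2, (1 - q w.1 ^ (i + 1))‖ ≤
      rho (q w.1) ^ w.2 * Real.exp (1 - rho (q w.1))⁻¹ := fun w => by
    rw [norm_mul, norm_neg, norm_pow]
    exact mul_le_mul ((pow_le_pow_of_le_one (norm_nonneg _) (h1 _).le (Nat.le_succ _)).trans
      (pow_le_pow_left₀ (norm_nonneg _) (rho_ge _) _)) (norm_euler (h1 _) _) (norm_nonneg _)
      (pow_nonneg (rho_nn _) _)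
  have g := fun a => (hasSum_geometric_of_lt_one (rho_nn (q a)) (rho_lt (h1 a))).mul_right
    (Real.exp (1 - rho (q a))⁻¹)
  have r : CC fun a => ∏' n : ℕ, (1 - q a ^ (n + 1)) - 1 := by
    refine CC.hasSum t b.1 B.1 le (fun a => ?_) g
    rw [(Summable.of_norm_bounded (g a).summable fun n => le (a, n)).hasSum_iff_tendsto_nat]
    refine ((ModularForm.multipliable_one_sub_pow (h1 a)).hasProd.tendsto_prod_nat.sub_const
      1).congr fun n => ?_
    induction n with
    | zero => simp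
    | succ n ih =>
      rw [sum_range_succ, ← ih, prod_range_succ]
      ring
  simpa using r.add (Cc.rat EO.true 1)

open UpperHalfPlane
open Pool.Agent.Lib.MP_9177b7_ag.CM Pool.Agent.Lib.MP_9177b7_ag.CM.Norm

variable {z : α → ℍ}

theorem cc_E2 (h : CC fun a => X.qq 1 (z a)) : CC fun a => EisensteinSeries.E2 (z a) :=
  cc_ser 1 (-24) h (fun _ => X.qq_lt one_pos _) fun a => by
    simpa [Function.Periodic.qParam] using EisensteinSeries.hasSum_qExpansion_E2 (z := z a)

theorem cc_E4 (h : CC fun a => X.qq 1 (z a)) : CC fun a => ModularForm.E₄ (z a) :=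
  cc_ser 3 240 h (fun _ => X.qq_lt one_pos _) fun a => by
    have := HQ_form ModularForm.E₄ (z a)
    rw [← Kron.map_e4] at this
    simpa [Kron.e4, apply_ite] using this

theorem cc_xy (h : CC fun a => X.qq 1 (z a))
    (hexp : ∀ g : α → ℂ, CC g → CC fun a => Complex.exp (g a)) :
    (CC fun a => E11.XX (z a)) ∧ CC fun a => E11.YY (z a) := by
  have h' : CC fun a => X.qq 1 (E11.up (z a)) :=
    (h.pow 11).of_eq fun a _ => (E11.qq_upl (by norm_num) 1 _).symm
  have p : CC fun a => X.pe (z a) := cc_euler h (fun _ => X.qq_lt one_pos _) hexp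
  have p' : CC fun a => X.pe (E11.up (z a)) := cc_euler h' (fun _ => X.qq_lt one_pos _) hexp
  have c : ∀ r : ℚ, CC fun _ : α => (r : ℂ) := Cc.rat EO.true
  have H : CC fun a => E11.Hh (z a) :=
    (h.mul ((p.pow 2).mul (p'.pow 2))).of_eq fun a _ => (E11.Hh_eq _).symm
  have i : CC fun a => (E11.Hh (z a))⁻¹ := H.inv fun a _ _ => E11.Hh_ne _
  have m : CC fun a => E11.hm (z a) :=
    ((((((c 11).mul (cc_E2 h')).sub (cc_E2 h)).mul (c (1 / 10))).mul i).sub (c (22 / 5))).of_eq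
      fun a _ => by
        simp only [E11.hm, E11.e2]
        push_cast
        ring
  have n : CC fun a => E11.an (z a) :=
    (((((c 121).mul (cc_E4 h')).sub (cc_E4 h)).mul (c (1 / 120))).mul (i.pow 2)).of_eq
      fun a _ => by
        simp only [E11.an]
        push_cast
        ring
  have x : CC fun a => E11.xf (z a) :=
    (((((m.pow 2).add ((c 2).mul m)).add n).mul (c (1 / 2))).sub (c 7)).of_eq fun a _ => by
      simp only [E11.xf]
      push_cast
      ring
  exact ⟨((c 4).mul x).of_eq fun a _ => by simp [E11.XX],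
    (((c 8).mul (((m.add (c 1)).mul (x.sub (c 16))).sub (c 61))).add (c 4)).of_eq fun a _ => by
      simp [E11.YY, E11.yf]⟩

theorem ser_of (hq : CC fun t : TC => X.qq 1 (tau t))
    (hexp : ∀ g : TC → ℂ, CC g → CC fun t => Complex.exp (g t)) : SerStmt := cc_xy hq hexp

end Pool.Agent.Lib.MP_d6ddbd_nt.GC
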