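import Pool.Agent.Lib.MP_d6ddbd_nt.GC.SerA
import Pool.Agent.Lib.MP_d6ddbd_nt.GC.SerB

/-!
The modular parametrisation is computable.
-/

set_option autoImplicit false

namespace Pool.Agent.Lib.MP_d6ddbd_nt.GC

theorem ser_thm : SerStmt := ser_of cc_qq cc_exp

end Pool.Agent.Lib.MP_d6ddbd_nt.GC
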