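import Pool.Agent.Lib.MP_d6ddbd_nt.GC.Stmt

/-!
The twisted sum over the class group as a weighted sum of points of the upper half plane.
-/

set_option autoImplicit false

open Pool.Agent.Lib.MP_d6ddbd_nt.K11
open Pool.Agent.Lib.MP_d6ddbd_nt.KA (PS NN Qd hQ un Ok)

noncomputable section

namespace Pool.Agent.Lib.MP_d6ddbd_nt.GC

namespace SumA

theorem un_val {l : ℕ} (h : l.Coprime 8) : ((un l : (ZMod 8)ˣ) : ZMod 8).val = l % 8 := by
  rw [un, dif_pos h, ZMod.coe_unitOfCoprime, ZMod.val_natCast]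

theorem un_ext {t : (ZMod 8)ˣ} {l : ℕ} (h : l.Coprime 8) (e : (t : ZMod 8).val = l % 8) :
    t = un l :=
  Units.ext (ZMod.val_injective 8 (by rw [un_val h, e]))

theorem val_one : ((1 : (ZMod 8)ˣ) : ZMod 8).val = 1 := rfl

theorem sum_units {M : Type} [AddCommMonoid M] (f : (ZMod 8)ˣ → M) :
    ∑ t, f t = f 1 + f (un 3) + f (un 5) + f (un 7) := by
  have h3 := un_val (l := 3) (by norm_num)
  have h5 := un_val (l := 5) (by norm_num)
  have h7 := un_val (l := 7) (by norm_num)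
  have ne : ∀ {s t : (ZMod 8)ˣ}, (s : ZMod 8).val ≠ (t : ZMod 8).val → s ≠ t := by
    intro s t h e
    exact h (by rw [e])
  have hu : (Finset.univ : Finset (ZMod 8)ˣ) = {1, un 3, un 5, un 7} := by
    symm
    rw [Finset.eq_univ_iff_forall]
    intro t
    have h1 := ZMod.val_coe_unit_coprime t
    have h2 := ZMod.val_lt (t : ZMod 8)
    simp only [Finset.mem_insert, Finset.mem_singleton]
    generalize hv : (t : ZMod 8).val = v at h1 h2
    interval_cases v
    all_goals first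
      | (exfalso; revert h1; decide)
      | exact Or.inl (Units.ext (ZMod.val_injective 8 (hv.trans val_one.symm)))
      | exact Or.inr (Or.inl (un_ext (by norm_num) hv))
      | exact Or.inr (Or.inr (Or.inl (un_ext (by norm_num) hv)))
      | exact Or.inr (Or.inr (Or.inr (un_ext (by norm_num) hv)))
  rw [hu, Finset.sum_insert, Finset.sum_insert, Finset.sum_pair, ← add_assoc, ← add_assoc]
  · exact ne (by rw [h5, h7]; decide)
  · simp only [Finset.mem_insert, Finset.mem_singleton, not_or]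
    exact ⟨ne (by rw [h3, h5]; decide), ne (by rw [h3, h7]; decide)⟩
  · simp only [Finset.mem_insert, Finset.mem_singleton, not_or]
    exact ⟨ne (by rw [val_one, h3]; decide), ne (by rw [val_one, h5]; decide),
      ne (by rw [val_one, h7]; decide)⟩

variable {q : ℕ} [Fact (q % 4 = 3)]

/-- The contribution of the class with coordinates `x`, `t`. -/
def Gw (δ : ℤ) (P : ∀ n : ℕ, ℕ → Pic q n → (ZMod 8)ˣ → Pt) (n : ℕ) (x : Pic q n)
    (t : (ZMod 8)ˣ) : Pt :=
  (5 * wt δ 1 (t : ZMod 8).val) • P n 1 x t + (5 * wt δ 2 (t : ZMod 8).val) • P n 2 x t +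
    (5 * wt δ 4 (t : ZMod 8).val) • P n 4 x t + (5 * wt δ 8 (t : ZMod 8).val) • P n 8 x t

theorem sum_Gw (δ : ℤ) (P : ∀ n : ℕ, ℕ → Pic q n → (ZMod 8)ˣ → Pt) (n : ℕ) (x : Pic q n) :
    ∑ t, Gw δ P n x t = Qd δ P n x := by
  have h3 := un_val (l := 3) (by norm_num)
  have h5 := un_val (l := 5) (by norm_num)
  have h7 := un_val (l := 7) (by norm_num)
  have e5 : ∀ R : Pt, (5 : ℤ) • R = 5 • R := fun R => by exact_mod_cast natCast_zsmul R 5
  rw [sum_units]
  simp only [Gw, h3, h5, h7, val_one, Qd, KA.tz, wt]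
  by_cases a1 : δ = 1
  · simp [a1, e5]
  by_cases a2 : δ = -1
  · simp [a2, e5]
    abel
  by_cases a3 : δ = 2
  · simp [a3, e5]
    abel
  · simp [a1, a2, a3, e5]
    abel

theorem four {M : Type} [AddCommGroup M] (c w₁ w₂ w₃ w₄ : ℤ) (A B C D : M) :
    (5 * c * w₁) • A + ((5 * c * w₂) • B + ((5 * c * w₃) • C + ((5 * c * w₄) • D + 0))) =
      c • ((5 * w₁) • A + (5 * w₂) • B + (5 * w₃) • C + (5 * w₄) • D) := by
  module

theorem sm_flat {α : Type} (f : α → List (ℤ × TC)) (T : List α) :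
    Sm (T.flatMap f) = (T.map fun e => Sm (f e)).sum := by
  induction T with
  | nil => simp [Sm]
  | cons e T ih =>
    rw [List.flatMap_cons, List.map_cons, List.sum_cons, ← ih]
    simp only [Sm, List.map_append, List.sum_append]

end SumA

open SumA

theorem sum_thm (hC : ChrStmt) (hP : PhiStmt) : SumStmt := by
  intro q _ hq h44 a t0 b r δ N P n T χ s hb hN hS _ hn hT hχ hs
  classical
  have n0 : n ≠ 0 := hn.1.ne_zero
  have key : ∀ e ∈ T, Sm ([1, 2, 4, 8].map fun i =>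
      (5 * jacobiSym e.1 n * wt δ i (e.1 % 8), tc q (i * n) e)) =
      χ (res n (cy q n e)) • Gw δ P n (res n (cy q n e)) (N (res 8 (cy q n e))) := by
    intro e he
    have hg := hT.1 e he
    obtain ⟨c1, -, c3, c4⟩ := hC q hq h44 n b e n0 hg
    have c8 : e.1.Coprime 8 := by
      have h2 : e.1.Coprime 2 := hg.2.1.coprime_dvd_right ⟨11 * n * q, by ring⟩
      exact h2.pow_right 3
    have hp : ∀ i, i ∣ 8 → E11.phi (tau (tc q (i * n) e)) =
        P n i (res n (cy q n e)) (N (res 8 (cy q n e))) := by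
      intro i hi
      have hd : i * n ∣ 8 * n := Nat.mul_dvd_mul_right hi n
      rw [hS.eq n i _ _ (cy q n e) hn hi rfl rfl]
      exact (hP q hq h44 n (i * n) b e _ hn hd hb hg (c1 _ hd)).1.symm
    have hv : e.1 % 8 = ((N (res 8 (cy q n e)) : (ZMod 8)ˣ) : ZMod 8).val := by
      rw [c3 N hN, un_val c8]
    simp only [Sm, List.map_cons, List.map_nil, List.sum_cons, List.sum_nil, Gw]
    rw [hp 1 (by norm_num), hp 2 (by norm_num), hp 4 (by norm_num), hp 8 (by norm_num), hv,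
      ← c4 χ hχ]
    exact four _ _ _ _ _ _ _ _ _
  rw [HP, HL, sm_flat, List.map_congr_left key]
  have e1 : (T.map fun e => χ (res n (cy q n e)) •
      Gw δ P n (res n (cy q n e)) (N (res 8 (cy q n e)))) =
      (T.map (cy q n)).map fun y => χ (res n y) • Gw δ P n (res n y) (N (res 8 y)) := by
    rw [List.map_map]
    rfl
  rw [e1, ← List.sum_toFinset _ hT.2.1]
  simp only [← sum_Gw, Finset.smul_sum]
  rw [← Finset.sum_product']
  symm
  refine Finset.sum_bij (fun y _ => (res n y, N (res 8 y))) ?_ ?_ ?_ ?_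
  · intro y _
    exact Finset.mem_product.2 ⟨hs _, Finset.mem_univ _⟩
  · intro y _ y' _ h
    obtain ⟨h1, h2⟩ := Prod.ext_iff.1 h
    exact (hN.lift n hn.2 (res n y') (N (res 8 y'))).unique ⟨h1, h2⟩ ⟨rfl, rfl⟩
  · rintro ⟨x, t⟩ _
    obtain ⟨y, ⟨h1, h2⟩, -⟩ := hN.lift n hn.2 x t
    exact ⟨y, List.mem_toFinset.2 (hT.2.2 y), Prod.ext h1 h2⟩
  · intro y _
    rfl

end Pool.Agent.Lib.MP_d6ddbd_nt.GC
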