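import Pool.Agent.Lib.MP_d6ddbd_nt.GC.Ar
import Pool.Agent.Lib.MP_d6ddbd_nt.K11.Ker
import Pool.Agent.Lib.MP_d6ddbd_nt.K11.Pic

/-!
Systems of representatives exist and can be recognised.
-/

set_option autoImplicit false
set_option maxSynthPendingDepth 3

open Pointwise
open Pool.Agent.Lib.MP_9177b7_ag.CM (sp sp_le mem_sp left_mem_sp right_mem_sp smul_sp)
open Pool.Agent.Lib.MP_d6ddbd_nt.K11
open Pool.Agent.Lib.MP_d6ddbd_nt.K11.Comp (zsub zpow nabs ndvd zdvd)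
open Pool.Agent.Lib.MP_d6ddbd_nt.KA (Ok hQ)
open Pool.Agent.Sand.Check

noncomputable section

namespace Pool.Agent.Lib.MP_d6ddbd_nt.GC

namespace SyP

open ArP

/-- Integer matrices with an inverse of the determinant. -/
abbrev Mx : Type := (ℤ × ℤ) × (ℤ × ℤ) × ℤ

/-- A witness for the homothety of two lattices. -/
def Hm (q c a : ℕ) (t : ℤ) (u : ℕ) (v : ℤ) (m : Mx) : Prop :=
  (m.1.1 * m.2.1.2 - m.1.2 * m.2.1.1) * m.2.2 = 1 ∧
  -(m.1.2 * ((c : ℤ) ^ 2 * ((q + 1) / 4 : ℕ))) - t * (m.1.1 * u - m.1.2 * v) =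
    a * (m.2.1.1 * u - m.2.1.2 * v) ∧
  m.1.1 * u - m.1.2 * v + m.1.2 * c - t * m.1.2 = a * m.2.1.2

theorem hm_iff {q c a u : ℕ} [hq : Fact (q % 4 = 3)] {t v : ℤ} (hc : c ≠ 0) (ha : a ≠ 0)
    (hu : u ≠ 0) : (∃ m, Hm q c a t u v m) ↔ ∃ μ : ℂ, μ ≠ 0 ∧ La q c u v = μ • La q c a t := by
  have hw := com_sq hq.out c
  have a0 : (a : ℂ) ≠ 0 := by exact_mod_cast ha
  have u0 : (u : ℂ) ≠ 0 := by exact_mod_cast hu
  have ind : ∀ x y : ℤ, (x : ℂ) + y * (c * om q) = 0 → x = 0 ∧ y = 0 := fun x y h => by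
    obtain ⟨h1, h2⟩ := Ker.indep (q := q) (a := x) (b := y * c) (by push_cast; linear_combination h)
    exact ⟨h1, (mul_eq_zero.1 h2).resolve_right (by exact_mod_cast hc)⟩
  simp only [La, smul_sp]
  generalize (c : ℂ) * om q = w at hw ind
  generalize hN : (c : ℤ) ^ 2 * ((q + 1) / 4 : ℕ) = N at hw
  constructor
  · rintro ⟨⟨⟨p, o⟩, ⟨r, s⟩, D⟩, h1, h2, h3⟩
    simp only [hN] at h1 h2 h3
    have k1 : ((p : ℂ) * s - o * r) * D = 1 := by exact_mod_cast h1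
    have k2 : -((o : ℂ) * N) - t * (p * u - o * v) = a * (r * u - s * v) := by exact_mod_cast h2
    have k3 : (p : ℂ) * u - o * v + o * (c : ℤ) - t * o = a * s := by exact_mod_cast h3
    obtain ⟨μ, e1⟩ : ∃ μ : ℂ, μ * a = p * u + o * (w - v) := ⟨_, div_mul_cancel₀ _ a0⟩
    have e2 : μ * (w - t) = r * u + s * (w - v) := by
      refine mul_left_cancel₀ a0 ?_
      linear_combination (w - t) * e1 + o * hw + k2 + w * k3
    refine ⟨μ, fun z => u0 ?_, le_antisymm (sp_le.2 ⟨mem_sp.2 ⟨D * s, -(D * o), ?_⟩,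
      mem_sp.2 ⟨-(D * r), D * p, ?_⟩⟩) (sp_le.2 ⟨mem_sp.2 ⟨p, o, e1.symm⟩,
        mem_sp.2 ⟨r, s, e2.symm⟩⟩)⟩
    · rw [z] at e1 e2
      linear_combination -(u : ℂ) * k1 - D * s * e1 + D * o * e2
    · push_cast
      linear_combination (u : ℂ) * k1 + D * s * e1 - D * o * e2
    · push_cast
      linear_combination (w - v) * k1 - D * r * e1 + D * p * e2
  · rintro ⟨μ, -, h⟩
    obtain ⟨p, o, e1⟩ := mem_sp.1 (h.symm ▸ left_mem_sp (μ * a) (μ * (w - t)))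
    obtain ⟨r, s, e2⟩ := mem_sp.1 (h.symm ▸ right_mem_sp (μ * a) (μ * (w - t)))
    obtain ⟨p', o', e3⟩ := mem_sp.1 (h ▸ left_mem_sp (u : ℂ) (w - v))
    obtain ⟨r', s', e4⟩ := mem_sp.1 (h ▸ right_mem_sp (u : ℂ) (w - v))
    obtain ⟨f1, f2⟩ := ind ((p' * p + o' * r - 1) * u - (p' * o + o' * s) * v) (p' * o + o' * s)
      (by push_cast; linear_combination p' * e1 + o' * e2 + e3)
    obtain ⟨-, f4⟩ := ind ((r' * p + s' * r) * u - (r' * o + s' * s - 1) * v) (r' * o + s' * s - 1)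
      (by push_cast; linear_combination r' * e1 + s' * e2 + e4)
    obtain ⟨f5, f6⟩ := ind (-(o * N) - t * (p * u - o * v) - a * (r * u - s * v))
      (p * u - o * v + o * c - t * o - a * s)
      (by push_cast at hw ⊢; linear_combination (w - t) * e1 - a * e2 - o * hw)
    rw [f2, zero_mul, sub_zero] at f1
    have f3 := (mul_eq_zero.1 f1).resolve_right (by exact_mod_cast hu)
    refine ⟨((p, o), (r, s), p' * s' - o' * r'), ?_, ?_, ?_⟩
    · linear_combination (r' * o + s' * s) * f3 + f4 - (r' * p + s' * r) * f2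
    · simp only [hN]
      linear_combination f5
    · linear_combination f6

/-- A bounded form of primitivity. -/
def Pm (q c u : ℕ) (v : ℤ) : Prop := 0 < u ∧ (u : ℤ) ∣ nc q c v ∧
  ∀ k ∈ List.range (u + 1), k ∣ u → (k : ℤ) ∣ c - 2 * v → (k : ℤ) * u ∣ nc q c v → k = 1

theorem pm_iff {q c u : ℕ} {v : ℤ} : Pm q c u v ↔ 0 < u ∧ Prim q c u v := by
  refine and_congr_right fun hu => and_congr_right ?_
  rintro ⟨j, hj⟩
  have u0 : (u : ℤ) ≠ 0 := by omega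
  rw [hj, Int.mul_ediv_cancel_left _ u0]
  simp only [mul_comm (u : ℤ), mul_dvd_mul_iff_right u0]
  constructor
  · intro H
    have h1 := Int.gcd_dvd_left (Int.gcd u (c - 2 * v)) j
    have h2 := Int.natCast_dvd_natCast.1 (h1.trans (Int.gcd_dvd_left _ _))
    exact H _ (List.mem_range.2 (Nat.lt_succ_of_le (Nat.le_of_dvd hu h2))) h2
      (h1.trans (Int.gcd_dvd_right _ _)) (Int.gcd_dvd_right _ _)
  · intro H k _ h1 h2 h3
    exact Nat.dvd_one.1 (H ▸ Int.dvd_gcd (Int.dvd_coe_gcd (Int.natCast_dvd_natCast.2 h1) h2) h3)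

section

variable {α β : Type} [Primcodable α] [Primcodable β]

attribute [local fun_prop] PR.zadd

theorem hmP : PP fun w : (((ℕ × ℕ) × ℕ × ℤ) × ℕ × ℤ) × Mx =>
    Hm w.1.1.1.1 w.1.1.1.2 w.1.1.2.1 w.1.1.2.2 w.1.2.1 w.1.2.2 w.2 := by
  unfold Hm
  fun_prop

theorem pmP0 : PP fun w : ℕ × ℕ × ℕ × ℤ => Pm w.1 w.2.1 w.2.2.1 w.2.2.2 :=
  PP.and (by fun_prop) (PP.and (by fun_prop) (PP.all (by fun_prop) (PP.imp (by fun_prop)
    (PP.imp (by fun_prop) (PP.imp (by fun_prop) (by fun_prop))))))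

theorem okP : PP Ok := by
  have h : PP fun n : ℕ => n % 2 = 1 ∧ ∀ k ∈ List.range (n + 1), k * k ∣ n → k = 1 :=
    PP.and (by fun_prop) (PP.all (by fun_prop) (PP.imp (by fun_prop) (by fun_prop)))
  exact h.of_iff fun n => ⟨fun ⟨a, b⟩ => ⟨fun k hk => Nat.isUnit_iff.2 (b k (List.mem_range.2
    (Nat.lt_succ_of_le (Nat.le_of_dvd (by omega) ((dvd_mul_right k k).trans hk)))) hk),
      Nat.odd_iff.2 a⟩, fun ⟨a, b⟩ => ⟨Nat.odd_iff.1 b, fun k _ hk => Nat.isUnit_iff.1 (a k hk)⟩⟩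

theorem goodP0 : PP fun w : (ℕ × ℕ × ℤ) × ℕ × ℤ => Good w.1.1 w.1.2.1 w.1.2.2 w.2 := by
  have h : PP fun w : (ℕ × ℕ × ℤ) × ℕ × ℤ => 0 < w.2.1 ∧ (∀ k ∈ List.range (w.2.1 + 1),
      k ∣ w.2.1 → k ∣ 22 * w.1.2.1 * w.1.1 → k = 1) ∧ (w.2.1 : ℤ) ∣ nc w.1.1 1 w.2.2 ∧
        (11 : ℤ) ∣ w.2.2 - w.1.2.2 :=
    PP.and (by fun_prop) (PP.and (PP.all (by fun_prop) (PP.imp (by fun_prop)
      (PP.imp (by fun_prop) (by fun_prop)))) (by fun_prop))
  refine h.of_iff fun w => and_congr_right fun a => and_congr_left' ⟨fun H => ?_,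
    fun H k _ h1 h2 => Nat.eq_one_of_dvd_coprimes H h1 h2⟩
  exact H _ (List.mem_range.2 (Nat.lt_succ_of_le (Nat.gcd_le_left _ a))) (Nat.gcd_dvd_left _ _)
    (Nat.gcd_dvd_right _ _)

@[fun_prop] theorem lenP {f : α → List β} (hf : PR f) : PR fun a => (f a).length :=
  Primrec.list_length.comp hf

theorem two {f g : α → β} (hf : PR f) (hg : PR g) : PR fun a => [f a, g a] :=
  Primrec.list_cons.comp hf (Primrec.list_cons.comp hg (.const []))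

end

/-- Two representatives give different points. -/
def Df (q n : ℕ) (e e' : ℕ × ℤ) : Prop := Sm [(1, tc q (8 * n) e), (-1, tc q (8 * n) e')] ≠ 0

/-- The representatives give different points. -/
def Nd (q n : ℕ) (T : List (ℕ × ℤ)) : Prop := ∀ i ∈ List.range T.length,
  ∀ j ∈ List.range T.length, i < j → Df q n (T.getD i (0, 0)) (T.getD j (0, 0))

/-- The lattice is homothetic to the lattice of a representative. -/
def He (q c : ℕ) (T : List (ℕ × ℤ)) (u : ℕ) (v : ℤ) : Prop :=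
  Pm q c u v → ∃ e ∈ T, ∃ m, Hm q c e.1 (c * e.2) u v m

/-- Every reduced lattice is homothetic to the lattice of a representative. -/
def Cp (q c : ℕ) (T : List (ℕ × ℤ)) : Prop := ∀ u ∈ List.range (c * q + 1),
  ∀ i ∈ List.range (2 * (c * q) + 1), He q c T u (i - (c * q : ℕ))

theorem dfR (hN : NumStmt) : RE fun w : (ℕ × ℕ) × (ℕ × ℤ) × ℕ × ℤ => Df w.1.1 w.1.2 w.2.1 w.2.2 :=
  RE.comp (P := fun L => Sm L ≠ 0) hN (two (by fun_prop) (by fun_prop))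

theorem ndR (hN : NumStmt) : RE fun w : (ℕ × ℕ) × List (ℕ × ℤ) => Nd w.1.1 w.1.2 w.2 :=
  RE.all (by fun_prop) (RE.all (by fun_prop) (RE.imp (by fun_prop)
    ((dfR hN).comp (f := fun x : (((ℕ × ℕ) × List (ℕ × ℤ)) × ℕ) × ℕ =>
      (x.1.1.1, x.1.1.2.getD x.1.2 (0, 0), x.1.1.2.getD x.2 (0, 0))) (by fun_prop))))

theorem heR : RE fun w : ((ℕ × ℕ) × List (ℕ × ℤ)) × ℕ × ℤ =>
    He w.1.1.1 w.1.1.2 w.1.2 w.2.1 w.2.2 := by
  have h := RE.ex (P := fun (w : ((ℕ × ℕ) × ℕ × ℤ) × ℕ × ℤ) (m : Mx) =>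
    Hm w.1.1.1 w.1.1.2 w.1.2.1 w.1.2.2 w.2.1 w.2.2 m) hmP.re
  have h1 := h.comp (f := fun x : (((ℕ × ℕ) × List (ℕ × ℤ)) × ℕ × ℤ) × ℕ × ℤ =>
    ((x.1.1.1, x.2.1, x.1.1.1.2 * x.2.2), x.1.2)) (by fun_prop)
  have h2 := pmP0.comp (f := fun w : ((ℕ × ℕ) × List (ℕ × ℤ)) × ℕ × ℤ =>
    (w.1.1.1, w.1.1.2, w.2)) (by fun_prop)
  exact RE.imp h2 (RE.exl (l := fun w : ((ℕ × ℕ) × List (ℕ × ℤ)) × ℕ × ℤ => w.1.2)
    (P := fun w e => ∃ m, Hm w.1.1.1 w.1.1.2 e.1 (w.1.1.2 * e.2) w.2.1 w.2.2 m) (by fun_prop) h1)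

theorem cpR : RE fun w : (ℕ × ℕ) × List (ℕ × ℤ) => Cp w.1.1 w.1.2 w.2 := by
  have h := heR.comp (f := fun x : (((ℕ × ℕ) × List (ℕ × ℤ)) × ℕ) × ℕ =>
    (x.1.1, x.1.2, (x.2 : ℤ) - (x.1.1.1.2 * x.1.1.1.1 : ℕ))) (by fun_prop)
  have h1 := RE.all (l := fun x : ((ℕ × ℕ) × List (ℕ × ℤ)) × ℕ =>
    List.range (2 * (x.1.1.2 * x.1.1.1) + 1))
    (P := fun x i => He x.1.1.1 x.1.1.2 x.1.2 x.2 (i - (x.1.1.2 * x.1.1.1 : ℕ))) (by fun_prop) h
  exact RE.all (l := fun x : (ℕ × ℕ) × List (ℕ × ℤ) => List.range (x.1.2 * x.1.1 + 1))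
    (P := fun x u => ∀ i ∈ List.range (2 * (x.1.2 * x.1.1) + 1),
      He x.1.1 x.1.2 x.2 u (i - (x.1.2 * x.1.1 : ℕ))) (by fun_prop) h1

variable {q n : ℕ} [Fact (q % 4 = 3)] {b : ℤ} {T : List (ℕ × ℤ)}

theorem df_iff (hC : ChrStmt) (hF : PhiStmt) (hq : QF q) (hn : Ok n) (hb : Rt q 11 b)
    {e e' : ℕ × ℤ} (h : Good q n b e) (h' : Good q n b e') :
    Df q n e e' ↔ cy q n e ≠ cy q n e' := by
  have n0 := hn.1.ne_zero
  obtain ⟨a1, -⟩ := hF q hq.pr hq.big n (8 * n) b e _ hn dvd_rfl hb h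
    (hC q hq.pr hq.big n b e n0 h).2.1
  obtain ⟨a2, a3⟩ := hF q hq.pr hq.big n (8 * n) b e' _ hn dvd_rfl hb h'
    (hC q hq.pr hq.big n b e' n0 h').2.1
  have k : Sm [(1, tc q (8 * n) e), (-1, tc q (8 * n) e')] =
      hQ E11.Pp b (cy q n e) - hQ E11.Pp b (cy q n e') := by
    rw [a1, a2, sub_eq_add_neg]
    simp only [Sm, List.map_cons, List.map_nil, List.sum_cons, List.sum_nil, one_smul, neg_smul,
      add_zero]
  rw [Df, k, sub_ne_zero]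
  exact not_congr ⟨a3 _, congrArg _⟩

theorem nd_iff (hC : ChrStmt) (hF : PhiStmt) (hq : QF q) (hn : Ok n) (hb : Rt q 11 b)
    (h : ∀ e ∈ T, Good q n b e) : Nd q n T ↔ (T.map (cy q n)).Nodup := by
  rw [List.Nodup, List.pairwise_map, List.pairwise_iff_getElem]
  simp only [Nd, List.mem_range]
  refine ⟨fun H i j hi hj l => ?_, fun H i hi j hj l => ?_⟩
  · have := H i hi j hj l
    rw [List.getD_eq_getElem _ _ hi, List.getD_eq_getElem _ _ hj] at this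
    exact (df_iff hC hF hq hn hb (h _ (List.getElem_mem hi)) (h _ (List.getElem_mem hj))).1 this
  · rw [List.getD_eq_getElem _ _ hi, List.getD_eq_getElem _ _ hj]
    exact (df_iff hC hF hq hn hb (h _ (List.getElem_mem hi)) (h _ (List.getElem_mem hj))).2
      (H i j hi hj l)

theorem cp_iff (hR : RedStmt) (hC : ChrStmt) (hq : QF q) (hn : Ok n)
    (h : ∀ e ∈ T, Good q n b e) : Cp q (8 * n) T ↔ ∀ y, y ∈ T.map (cy q n) := by
  have n0 := hn.1.ne_zero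
  have c0 : 8 * n ≠ 0 := by omega
  obtain ⟨r1, r2⟩ := hR q hq.pr hq.big (8 * n) c0
  have cl := fun e he => (hC q hq.pr hq.big n b e n0 (h e he)).2.1
  constructor
  · intro H y
    obtain ⟨u, v, u0, h1, h2, h3⟩ := r2 y
    have h4 : |v| ≤ (8 * n * q : ℕ) := by exact_mod_cast h2
    have e : v = ((v + (8 * n * q : ℕ)).toNat : ℤ) - (8 * n * q : ℕ) := by
      have := abs_le.1 h4
      omega
    obtain ⟨x, hx, hm⟩ := H u (List.mem_range.2 (by omega)) (v + (8 * n * q : ℕ)).toNat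
      (List.mem_range.2 (by have := abs_le.1 h4; omega))
      (e ▸ pm_iff.2 ⟨u0, (r1 u v u0).1 h3.inv⟩)
    rw [← e] at hm
    obtain ⟨μ, m0, hμ⟩ := (hm_iff c0 (h x hx).1.ne' u0.ne').1 hm
    exact List.mem_map.2 ⟨x, hx, ((cl x hx).smul m0).unique (hμ ▸ h3)⟩
  · intro H u _ i _ hp
    obtain ⟨u0, hp⟩ := pm_iff.1 hp
    obtain ⟨y, hy⟩ := ((r1 u _ u0).2 hp).cl
    obtain ⟨x, hx, rfl⟩ := List.mem_map.1 (H y)
    exact ⟨x, hx, (hm_iff c0 (h x hx).1.ne' u0.ne').2 ((cl x hx).exists_smul hy)⟩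

end SyP

open SyP ArP in
theorem sy_thm (hR : RedStmt) (hP : RepStmt) (hC : ChrStmt) (hF : PhiStmt) (hN : NumStmt)
    (_hA : ArStmt) : SyStmt := by
  refine ⟨RE.of_iff (P := fun w : ℕ × ℕ × ℤ × List (ℕ × ℤ) => QF w.1 ∧ Ok w.2.1 ∧
    Rt w.1 11 w.2.2.1 ∧ (∀ e ∈ w.2.2.2, Good w.1 w.2.1 w.2.2.1 e) ∧ Nd w.1 w.2.1 w.2.2.2 ∧
      Cp w.1 (8 * w.2.1) w.2.2.2) ?_ fun w => ?_, fun q _ n b hq hn => ?_⟩
  · exact (qfP.comp (by fun_prop)).re.and ((okP.comp (by fun_prop)).re.and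
      ((PP.re (by fun_prop)).and ((PP.all (by fun_prop) (goodP0.comp
        (f := fun x : (ℕ × ℕ × ℤ × List (ℕ × ℤ)) × ℕ × ℤ => ((x.1.1, x.1.2.1, x.1.2.2.1), x.2))
          (by fun_prop))).re.and (((ndR hN).comp
        (f := fun w : ℕ × ℕ × ℤ × List (ℕ × ℤ) => ((w.1, w.2.1), w.2.2.2)) (by fun_prop)).and
          (cpR.comp (f := fun w : ℕ × ℕ × ℤ × List (ℕ × ℤ) => ((w.1, 8 * w.2.1), w.2.2.2))
            (by fun_prop))))))
  · refine and_congr_right fun hq => and_congr_right fun hn => and_congr_right fun hb => ?_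
    have : Fact (w.1 % 4 = 3) := ⟨hq.m4⟩
    exact ⟨fun ⟨a, b, c⟩ => ⟨this, a, (nd_iff hC hF hq hn hb a).1 b, (cp_iff hR hC hq hn a).1 c⟩,
      fun ⟨_, a, b, c⟩ => ⟨a, (nd_iff hC hF hq hn hb a).2 b, (cp_iff hR hC hq hn a).2 c⟩⟩
  · have n0 := hn.1.ne_zero
    have : Finite (Pic q (8 * n)) := ((pic_thm q hq.pr hq.big).2 _ (by omega)).1
    have := Fintype.ofFinite (Pic q (8 * n))
    choose f h1 h2 using hP q hq.pr hq.big n b n0
    have e : (Finset.univ.toList.map f).map (cy q n) = Finset.univ.toList := by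
      rw [List.map_map]
      exact List.map_id'' (fun y => (hC q hq.pr hq.big n b _ n0 (h1 y)).2.1.unique (h2 y)) _
    refine ⟨Finset.univ.toList.map f, fun x hx => ?_, by rw [e]; exact Finset.nodup_toList _,
      fun y => ?_⟩
    · obtain ⟨y, -, rfl⟩ := List.mem_map.1 hx
      exact h1 y
    · rw [e]
      exact Finset.mem_toList.2 (Finset.mem_univ y)

end Pool.Agent.Lib.MP_d6ddbd_nt.GC
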