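import Pool.Agent.Lib.MP_d6ddbd_nt.GC.Stmt
import Pool.Agent.Lib.MP_d6ddbd_nt.KA.All

/-!
The system of level `k`, with its bottom point made explicit.
-/

set_option autoImplicit false
set_option maxSynthPendingDepth 3

open Pool.Agent.Lib.MP_02f36d_nt (xc yc)
open Pool.Agent.Lib.MP_d6ddbd_nt.K11
open Pool.Agent.Lib.MP_d6ddbd_nt.K11.KK hiding pa cc tst dep_tst tst_eq rho_one rho_pow rho_conj
  exists_om es_tor a_par a_kol mem_D prod_pst chi_rho chi_nu act_not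
open Pool.Agent.Lib.MP_d6ddbd_nt.KI (rt cq tw rt_sq cq_prod cq_ine cq_eq_one cq_or cq_of cq_one
  cq_mul cq_sq cq_two cq_pow cq_inv KolI KnI vA rA cq_qd_fix ine_om rt_neg rt_alg Wq Gp
  ex_ine_pst cb_cob_iff)
open Pool.Agent.Lib.MP_d6ddbd_nt.KA hiding PAStmt SysStmt ChStmt tz

noncomputable section

namespace Pool.Agent.Lib.MP_d6ddbd_nt.GC

namespace Sys

open KHa in
theorem kh {q : ℕ} {d δ c : ℤ} (s : ℕ) (hd : TD d δ c) (hq : QD q c) (h8 : q % 8 = 7)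
    (X : ∀ k : ℕ → ℕ, (Finset ℕ → (A k → ℤ) →+ Pt) → Prop)
    (hT : ∀ k, AdA q k → ∃ a S ρ ν j, HT q δ k a S ρ ν j ∧ X k S) :
    ∃ K r₁ r₂ m k W a S ρ ν j, X k S ∧ Wq q m W ∧ KH q d δ c K r₁ r₂ m s k W a S ρ ν j := by
  classical
  have hA := KA.aux_thm K11.vAll K11.rAll
  have h1 : ∀ l : ℕ, ∃ π, l.Prime → (l : ℤ) ∣ c → Gen q l π := fun l => by
    by_cases h : l.Prime ∧ (l : ℤ) ∣ c
    · obtain ⟨π, hπ⟩ := odd_thm pic_thm kerAll q l hq.qf h.1 (Main.d_ne_two hq.fam h.2)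
        (by rintro rfl; exact hq.nd h.2) (hq.spl l h.1 h.2)
      exact ⟨π, fun _ _ => hπ⟩
    · exact ⟨0, fun h1 h2 => absurd ⟨h1, h2⟩ h⟩
  choose π hπ using h1
  obtain ⟨K, hK⟩ : ∃ K, K = 2 * TT d c + 9 := ⟨_, rfl⟩
  obtain ⟨m, hm⟩ : ∃ m, m = TT d c + s + 4 := ⟨_, rfl⟩
  obtain ⟨r₁, O₁, -, hr₁, hO₁, g₁⟩ := hA q c K 0 π (fun l => if nr l = 1 then 0 else 1) hq
    (by omega) (fun l => by split_ifs <;> omega) hπ
  obtain ⟨r₂, O₂, hlt, hr₂, hO₂, g₂⟩ := hA q c K r₁ π (fun _ => 2) hq (by omega)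
    (fun _ => le_rfl) hπ
  obtain ⟨k, hk⟩ : ∃ k, k = kk q d c K r₁ r₂ m := ⟨_, rfl⟩
  have kd : ∀ l : ℕ, l.Prime → (l : ℤ) ∣ ee d * c → k l = 1 := fun l a b => hk ▸ kk_d a b
  have k₁ : k r₁ = K := hk ▸ kk_r hr₁ (Or.inl rfl)
  have k₂ : k r₂ = K := hk ▸ kk_r hr₂ (Or.inr rfl)
  have kp : ∀ p, KolI m q c p → k p = m := fun p hp => hk ▸ kk_kol hr₁ hr₂ hp
  obtain ⟨a, S, ρ, ν, j, hs, hX⟩ := hT k (hk ▸ adm hq hr₁ hr₂)
  have h3 : ∀ v : ℕ, ∃ π : ℂ, v = 2 ∨ v = 11 → (π ∈ OK q ∧ π ≠ 0) ∧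
      ∃ (O : ValuationSubring ℂ) (φ : G), Ov O v ∧ Frob O v φ ∧ φ (om q) = om q ∧
        ∀ p O', KolI m q c p → Ov O' p →
          (starRingEnd ℂ π / π) ^ ((p + 1) / 2 ^ m) - 1 ∈ O'.nonunits → ρ φ p = 0 := fun v => by
    by_cases hv : v = 2 ∨ v = 11
    · have vp : v.Prime := by rcases hv with rfl | rfl <;> norm_num
      obtain ⟨O, hO⟩ := vAll.1.1 v vp
      obtain ⟨φ, hφ⟩ := vAll.1.2.2.2.2 v O vp hO
      have hG : φ (om q) = om q := by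
        rcases hv with rfl | rfl
        · exact KI.SubA.frob_two h8 hO hφ
        · exact (vAll.2.1.2.2.2.2.2.2.2.1 q 11 O φ hq.qf.pr hq.qf.m4 vp (by norm_num)
            (by have := hq.qf.big; omega) hO hφ).2 hq.qf.s11
      obtain ⟨π, p1, ⟨h, p2⟩, p3⟩ := hs.pi v O φ vp hO hφ hG
      refine ⟨π, fun _ => ⟨⟨p1, fun z => ?_⟩, O, φ, hO, hφ, hG, fun p O' hp h1 h2 =>
        p3 p O' (by rw [kp p hp]; omega) ?_ hp.inert h1 (by rwa [kp p hp])⟩⟩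
      · rw [z, map_zero] at p2
        have : (0 : ℝ) < (v : ℝ) ^ h := pow_pos (by exact_mod_cast vp.pos) h
        exact this.ne p2
      · rcases hv with rfl | rfl
        exacts [hp.n2, hp.n11]
    · exact ⟨0, fun h => absurd h hv⟩
  choose π' hπ' using h3
  choose w hw using fun v : ℕ =>
    IsAlgClosed.exists_pow_nat_eq (starRingEnd ℂ (π' v) / π' v) (Nat.two_pow_pos m)
  have hv : ∀ l : ℕ, l.Prime → (l : ℤ) ∣ c → ∀ r O, RD q c K r → k r = K → Ov O r → ∀ i ≤ 2,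
      (2 ^ i ∣ (j l r).val ↔
        (starRingEnd ℂ (π l) / π l) ^ ((r + 1) / 2 ^ i) - 1 ∈ O.nonunits) :=
    fun l hl hc r O hr e hO i hi => hs.val l r (π l) i O
      (by rw [kd l hl (hc.mul_left _)]; omega) (hq.spl l hl hc) (by omega) hr.inert (by omega)
      (hπ l hl hc) hO
  refine ⟨K, r₁, r₂, m, k, {w 2, w 11}, a, S, ρ, ν, j, hX, fun u hu => ?_, hd, hq, h8, hr₁, hr₂,
    hlt.ne, hK.ge, hm.ge, kd, k₁, k₂, kp, ⟨K + m + 1, fun l => hk ▸ kk_le l⟩, hs,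
    fun l hl hc => ?_, fun l hl hc => ?_, fun v hv => ?_⟩
  · obtain ⟨v, hv, rfl⟩ : ∃ v, (v = 2 ∨ v = 11) ∧ u = w v := by
      rcases Finset.mem_insert.1 hu with h | h
      · exact ⟨2, Or.inl rfl, h⟩
      · exact ⟨11, Or.inr rfl, Finset.mem_singleton.1 h⟩
    exact ⟨π' v, (hπ' v hv).1.1, (hπ' v hv).1.2, hw v⟩
  · have h5 := hv l hl hc r₁ O₁ hr₁ k₁ hO₁ 1 (by omega)
    have h6 := hv l hl hc r₁ O₁ hr₁ k₁ hO₁ 2 le_rfl
    obtain ⟨f1, f2⟩ := g₁ l hl hc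
    refine ⟨fun e => ?_, fun e => ?_⟩
    · simp only [e, if_true] at f2
      have := mt h5.1 (f2 (by omega))
      omega
    · have e' : ¬ nr l = 1 := by omega
      simp only [e', if_false] at f1 f2
      have h7 := h5.2 (f1 1 le_rfl)
      have h9 := mt h6.1 (f2 (by omega))
      omega
  · have h7 := (hv l hl hc r₂ O₂ hr₂ k₂ hO₂ 2 le_rfl).2 ((g₂ l hl hc).1 2 le_rfl)
    omega
  · obtain ⟨-, O, φ, p2, p3, p4, p5⟩ := hπ' v hv
    refine ⟨O, φ, p2, p3, p4, fun p hp hg => ?_⟩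
    obtain ⟨O', f, g⟩ := hg
    refine p5 p O' hp f ?_
    rw [← hw, ← pow_mul, Nat.mul_div_cancel' hp.dv]
    exact g _ (by rcases hv with rfl | rfl <;> simp)

section

open KA.K Finset

variable {q : ℕ} {d δ c : ℤ} {K r₁ r₂ m s : ℕ} {k : ℕ → ℕ} {W : Finset ℂ} {a : ℕ → ℤ}
  {S : Finset ℕ → (A k → ℤ) →+ Pt} {ρ : G → A k} {ν : A k} {j : ℕ → A k}
  (C : KH q d δ c K r₁ r₂ m s k W a S ρ ν j)

include C

theorem kx : ∃ M ξ x S', 2 ^ (TT d c + 1 + s) • S' ∅ = ((sys C).Q ∅ 0 : Pt) ∧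
    KS q d c r₁ r₂ m M ξ ∧ KX q d c (TT d c + 1 + s) m W x S' ∧
    (M = TT d c → ∀ n, KnI m q c n → ∀ σ, 2 ^ s • x n σ = ξ n 0 σ) := by
  obtain ⟨M, X, h, hk⟩ := ks C n11_thm g11All m11_thm ke_thm
  have hm := C.hm
  have hsq := fun n => cq_sq (twA q d n)
  have hex : ∀ n, ∃ T : AlgS rA.1, (2 : ℤ) ^ (TT d c + 1 + s) • T = (sys C).Q n 0 ∧
      (M / 2 = TT d c → ∀ σ, 2 ^ s • ((sys C).cx (cq (twA q d n)) (TT d c + 1 + s) T σ : Pt) =
        ((sys C).coc (X n 0) σ : Pt)) := by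
    intro n
    by_cases e : M / 2 = TT d c
    · have x2 := h.eq n 0 (Nat.zero_le _)
      rw [show 2 * 0 + M % 2 = 0 by have := h.le; omega, Nat.sub_zero, e] at x2
      obtain ⟨T, hT⟩ := exists_div s (X n 0)
      have e1 : (2 : ℤ) ^ (s + 1) • T = (2 : ℤ) • X n 0 := by rw [pow_succ', mul_smul, hT]
      have e2 : (2 : ℤ) ^ TT d c • (2 : ℤ) ^ (s + 1) • T = (sys C).Q n 0 := by rw [e1, x2]
      have inv : (sys C).InvX (cq (twA q d n)) (s + 1) T := (sys C).invX_of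
        (e1 ▸ h.mem n 0) e2 (by omega) (hsq n) (invQ C n)
      have e3 : TT d c + 1 + s = TT d c + (s + 1) := by omega
      refine ⟨T, by rw [e3, pow_add, mul_smul, e2], fun _ σ => ?_⟩
      rw [e3, level inv, ← coe_pow, inv.half (cq_or _ _), hT]
    · obtain ⟨T, hT⟩ := exists_div (TT d c + 1 + s) ((sys C).Q n 0)
      exact ⟨T, hT, fun h1 => absurd h1 e⟩
  choose T hT hc using hex
  have hT0 : ∀ n, (2 : ℤ) ^ 0 • (2 : ℤ) ^ (TT d c + 1 + s) • T n = (sys C).Q n 0 := fun n => by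
    rw [pow_zero, one_smul, hT]
  have inv : ∀ n, (sys C).InvX (cq (twA q d n)) (TT d c + 1 + s) (T n) := fun n =>
    (sys C).invX_of (hT n ▸ (sys C).Q_mem n 0) (hT0 n) (by omega) (hsq n) (invQ C n)
  have fx : ∀ n σ, cq (twA q d n) σ • σ • (sys C).Q n 0 = (sys C).Q n 0 →
      ((sys C).cx (cq (twA q d n)) (TT d c + 1 + s) (T n) σ : Pt) =
        tw (twA q d n) σ (T n) - T n := fun n σ h =>
    congrArg Subtype.val ((sys C).cx_fix (by rwa [hT]))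
  refine ⟨M / 2, _, fun n σ => ((sys C).cx (cq (twA q d n)) (TT d c + 1 + s) (T n) σ : Pt),
    fun n => T n, by rw [← hT, coe_pow], hk, ⟨fun n _ => ⟨fun σ => ?_,
      fun σ τ => congrArg Subtype.val ((inv n).mul (cq_mul _ σ τ)), ?_⟩, fun n => (T n).2,
    fun n v O σ _ hv vn hO hσ hG => fx n σ (fixQ C hG fun p hp =>
      C.ht.iner v O σ p hv hO hσ hG fun e => vn (e ▸ hp)), fun v hv => ?_,
    fun σ => fx ∅ σ (fixQ0 C σ), fun n p O σ φ hn hp pn hO hσ hφ e1 => ?_⟩,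
    fun e n _ σ => hc n e σ⟩
  · rw [← coe_pow, (inv n).tor]; rfl
  · refine ⟨{xc (T n).1, yc (T n).1, rt (twA q d n)}, fun z hz => ?_, fun σ hσ => ?_⟩
    · simp only [Finset.mem_insert, Finset.mem_singleton] at hz
      rcases hz with rfl | rfl | rfl
      exacts [(T n).2.1, (T n).2.2, rt_alg _]
    · have : σ • T n = T n := Subtype.ext (act_ext (smul_eq_zero' _ _)
        ((xc_smul _ _).trans (hσ _ (by simp))) ((yc_smul _ _).trans (hσ _ (by simp))))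
      rw [(sys C).cx_stab (cq_eq_one.2 (hσ _ (by simp))) this]; rfl
  · obtain ⟨O, φ, h1, h2, h3, h4⟩ := C.gw v hv
    exact ⟨O, φ, h1, h2, fun n hn hg => fx n φ (fixQ C h3 fun p hp => h4 p (hn p hp) (hg p hp))⟩
  · obtain ⟨⟨o, ho, m1⟩, m2⟩ := (atP C hn hp pn hO hσ hφ (rt_sq _) (rt_neg e1)).mainX (by omega)
      (inv n) (hT0 n) (inv _) (hT0 _) ((tw_GK C _ (ine_om C.qd.qf.pr C.qd.qf.m4 hp.pr hp.nq hO
        hσ)).trans (cq_ine hp.pr hp.n2 hO (kol_nd C hp) hσ)) (cq_two _ _) (cq_two _ _)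
    exact ⟨⟨o, ho, congrArg Subtype.val m1⟩, congrArg Subtype.val m2⟩

omit C in
theorem dep_chi (D : Finset ℕ) {E : Finset ℕ} (h : D ⊆ E) : K11.Dep (k := k) E (chi D) :=
  fun _ _ e => chi_congr fun l hl => e l (h hl)

theorem r_nd {r : ℕ} (h : KA.RD q c K r) : r ∉ DD d c := fun e => by
  rcases (memD' C).1 e with e | e
  exacts [h.n11 e.1, h.nd e.2]

theorem bot : ((sys C).Q ∅ 0 : Pt) = (a r₁ * a r₂) • S (DD d c) (chi (DD d c)) := by
  have k0 : KnI m q c ∅ := fun _ h => absurd h (Finset.notMem_empty _)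
  have cr := cdR C
  have e1 : tst d c k K r₁ r₂ m ν ∅ (tf2 (ph 0) ∅) = chi (DD d c) := by
    funext g
    rw [tst_eq d c (dep_tf2 _ _)]
    simp [tf2, ps, ph]
  have e2 : cc d c r₁ r₂ ∅ = insert r₁ (insert r₂ (DD d c)) := by
    ext l
    simp [cc]
  have c2 : Cd k (insert r₂ (DD d c)) := fun l hl => by
    rcases mem_insert.1 hl with rfl | hl
    exacts [cr _ (by simp), cdD C l hl]
  change (YY C ∅ _ : Pt) = _
  rw [YY_pos C k0, e1, e2, C.ht.inert _ _ r₁ c2 (dep_chi _ (subset_insert _ _)) (cr _ (by simp))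
    (by simp [C.ne, r_nd C C.rd₁]) C.rd₁.inert, C.ht.inert _ _ r₂ (cdD C) (dep_chi _ subset_rfl)
    (cr _ (by simp)) (r_nd C C.rd₂) C.rd₂.inert, mul_smul]

theorem odd_u : Odd (a r₁ * a r₂) :=
  ((a_par C.ht C.rd₁.pr C.rd₁.n2 C.rd₁.n11).1 C.rd₁.ty).mul
    ((a_par C.ht C.rd₂.pr C.rd₂.n2 C.rd₂.n11).1 C.rd₂.ty)

theorem inv_GK {σ : G} (h : σ (om q) = om q) :
    σ • S (DD d c) (chi (DD d c)) = cq d σ • S (DD d c) (chi (DD d c)) := by
  rw [C.ht.act _ _ σ (cdD C) (dep_chi _ subset_rfl) h, cq_GK C h, mul_smul,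
    ← map_zsmul (S (DD d c)) (chi (DD d c) (ρ σ))]
  congr 2
  funext g
  rw [chi_sub (cdD C), Pi.smul_apply, smul_eq_mul, mul_comm]

theorem inv_cj : cj • S (DD d c) (chi (DD d c)) =
    (s0 d δ * chi (DD d c) (nv d ν)) • S (DD d c) (chi (DD d c)) := by
  have el : 11 ∈ DD d c ↔ (11 : ℤ) ∣ d := by
    have a4 : ¬ (11 : ℤ) ∣ c := C.td.fam.n11
    simp [memD' C, a4]
  have h1 : cj • S (DD d c) (chi (DD d c)) =
      s0 d δ • S (DD d c) fun g => chi (DD d c) (nv d ν - g) := by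
    unfold s0 nv
    split_ifs with h
    · rw [C.ht.conj1 _ _ (cdD C) (dep_chi _ subset_rfl) (el.2 h), one_smul]
      simp only [zero_sub]
    · exact C.ht.conj0 _ _ (cdD C) (dep_chi _ subset_rfl) fun b => h (el.1 b)
  rw [h1, mul_smul, ← map_zsmul (S (DD d c)) (chi (DD d c) (nv d ν))]
  congr 2
  funext g
  rw [chi_sub (cdD C), Pi.smul_apply, smul_eq_mul]

theorem inv : S (DD d c) (chi (DD d c)) ∈ KI.Pts.Inv (twA q d ∅) := fun σ => by
  unfold KI.tw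
  by_cases h : σ (om q) = om q
  · rw [inv_GK C h, tw_GK C ∅ h, smul_smul, cq_sq, one_smul]
  · have e : σ = σ * cj * cj := by rw [mul_assoc, cj_mul_cj, mul_one]
    have e1 : cq (twA q d ∅) σ = cq d (σ * cj) * (s0 d δ * chi (DD d c) (nv d ν)) := by
      conv_lhs => rw [e]
      rw [cq_mul, tw_GK C ∅ (not_GK h), cq_cj (twA_ne C.td.ne C.qd.qf.pr.ne_zero ∅), tw_sign C,
        card_empty, pow_zero, mul_one]
    have e2 : σ • S (DD d c) (chi (DD d c)) = cq (twA q d ∅) σ • S (DD d c) (chi (DD d c)) := by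
      rw [e1]
      conv_lhs => rw [e]
      rw [mul_smul, inv_cj C, gz, inv_GK C (not_GK h), smul_smul, mul_comm]
    rw [e2, smul_smul, cq_sq, one_smul]

end

end Sys

open Sys in
theorem sys_thm' (hA : PAStmt) (hS : SumStmt) : SysStmt := by
  classical
  intro L _ _ θ hθ q _ d δ c b T s hR hT
  have hd := hR.td
  have hq := hR.qd
  obtain ⟨a0, hX, ha⟩ := xi_ex xa2_thm
  have hx : XA E11.Pp a0 E11.t0 := ⟨hX, ha, xel_thm, xev_thm a0 _ hX ha⟩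
  obtain ⟨N, hN⟩ := gen2_thm q hq.qf.pr hq.qf.big hR.m8
  have hr : Rt q 2 0 := by
    obtain ⟨n, hn⟩ : ∃ n : ℕ, (q + 1) / 4 = 2 * n := ⟨(q + 1) / 8, by have := hR.m8; omega⟩
    refine ⟨n, ?_⟩
    rw [hn]
    push_cast
    ring
  obtain ⟨P, hp⟩ := psAll _ a0 _ hx q hq.qf.pr hq.qf.big b 0 N hR.rt hr hN
  have hQ := qs_thm qb_thm _ a0 _ hx q hq.qf hR.m8 b 0 δ N P hR.rt hr hN hp hd.dl hR.gq
  have sq : Squarefree (cn d c) := Int.squarefree_natAbs.2 hd.ec_sf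
  have ok : Ok (cn d c) := ⟨sq, by
    have := hd.ec_m4
    rw [cn, Nat.odd_iff]
    omega⟩
  have : Finite (Pic q (cn d c)) := ((pic_thm q hq.qf.pr hq.qf.big).2 _ sq.ne_zero).1
  have := Fintype.ofFinite (Pic q (cn d c))
  obtain ⟨K, r₁, r₂, m, k, W, a, S, ρ, ν, j, hH, hW, H⟩ := kh s hd hq hR.m8
    (fun k S => Cd k (KA.K.DD d c) → S (KA.K.DD d c) (chi (KA.K.DD d c)) = HP δ q (cn d c) T)
    fun k hk => by
      obtain ⟨S, ρ, ν, j, h, h'⟩ := hA _ a0 _ hX q hq.qf b δ _ k hR.rt hQ hk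
      refine ⟨a0, S, ρ, ν, j, h, fun hc => ?_⟩
      obtain ⟨χ, c1, c2⟩ := h' _ (cn d c) hc (Nat.prod_primeFactors_of_squarefree sq).symm
      rw [c2 Finset.univ Finset.mem_univ]
      exact hS q hq.qf.pr hq.qf.big a0 _ b 0 δ N P _ T χ _ hR.rt hN hp hd.dl ok hT c1
        Finset.mem_univ
  replace hH := hH (KA.K.cdD H)
  refine ⟨hH ▸ inv H, ?_⟩
  obtain ⟨M, ξ, x, S', B, Y, X, E⟩ := kx H
  have hm := H.hm
  refine ⟨TT d c + 1 + s, m, W, x, S' ∅, a r₁ * a r₂, by omega, by omega, hW,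
    ⟨X.cy, fun n hn hg => ?_, X.atp⟩, X.alg ∅, X.bot, odd_u H, by rw [B, bot H, hH],
    fun hQA n hn hc => ?_⟩
  · refine locx_thm q d _ _ n _ (S' n) hq.qf (Chain.sf hd) (Chain.nq hd hq) (Chain.twA_or q d n)
      (X.cy n hn) (X.alg n) (fun v O σ a b c f g => X.iner n v O σ hn a b c f g) (fun v hv => ?_)
      fun p hp O φ a b => ?_
    · obtain ⟨O, φ, a, b, c⟩ := X.frob v hv
      exact ⟨O, φ, a, b, c n hn hg⟩
    · obtain ⟨σ, f, g⟩ := ex_ine_pst (hn p hp).pr a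
      have := (X.atp (n.erase p) p O σ φ (fun p' h => hn p' (Finset.mem_of_mem_erase h)) (hn p hp)
        (Finset.notMem_erase p n) a f b g).2
      rwa [Finset.insert_erase hp] at this
  · obtain ⟨α, A, B⟩ := ckAll L θ hθ q d δ c K r₁ r₂ m M ξ hd hq H.rd₁ H.rd₂ Y
    have as : Asw θ d δ c := by
      by_cases e : (11 : ℤ) ∣ d
      · by_cases e' : rx d
        · exact asw2_thm la1All la2All chebAAll const_thm L θ hθ d δ c e'
        · exact asw1_thm const_thm la1All la2All chebAAll L θ hθ d δ c e e'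
      · exact asw0_thm const_thm la1All la2All chebAAll L θ hθ d δ c e
    obtain ⟨e, f⟩ := as q m M α hd hR.nb hQA (by omega) A Y.le n hn hc
    have g : 2 ^ s • x n = ξ n 0 := funext (E e n hn)
    have o := Y.coc n 0 hn
    refine ⟨fun σ => ?_, fun h => f ?_⟩
    · rw [pow_succ', mul_smul, E e n hn]
      exact o.two σ
    · rw [g] at h
      exact ((kumAll L θ hθ).2 _ _ (A.mem n 0 hn).ne o (B n hn)).2 ((cb_cob_iff o.two).1 h)

end Pool.Agent.Lib.MP_d6ddbd_nt.GC
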