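import Pool.Agent.Lib.MP_d6ddbd_nt.GC.Ar
import Pool.Agent.Lib.MP_d6ddbd_nt.GC.Asm
import Pool.Agent.Lib.MP_d6ddbd_nt.GC.Ch
import Pool.Agent.Lib.MP_d6ddbd_nt.GC.Chr
import Pool.Agent.Lib.MP_d6ddbd_nt.GC.Ht
import Pool.Agent.Lib.MP_d6ddbd_nt.GC.Kol
import Pool.Agent.Lib.MP_d6ddbd_nt.GC.Num
import Pool.Agent.Lib.MP_d6ddbd_nt.GC.PA
import Pool.Agent.Lib.MP_d6ddbd_nt.GC.Phi
import Pool.Agent.Lib.MP_d6ddbd_nt.GC.Red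
import Pool.Agent.Lib.MP_d6ddbd_nt.GC.Rep
import Pool.Agent.Lib.MP_d6ddbd_nt.GC.Ser
import Pool.Agent.Lib.MP_d6ddbd_nt.GC.Sum
import Pool.Agent.Lib.MP_d6ddbd_nt.GC.Sy
import Pool.Agent.Lib.MP_d6ddbd_nt.GC.Sys

/-!
The certificate, without hypotheses.
-/

set_option autoImplicit false

namespace Pool.Agent.Lib.MP_d6ddbd_nt.GC

theorem cert : CertStmt :=
  cert_of ar_thm (sy_thm red_thm (rep_thm red_thm) chr_thm phi_thm (num_thm ser_thm) ar_thm)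
    (num_thm ser_thm) ht_thm' (sys_thm' pa_thm' (sum_thm chr_thm phi_thm)) (kol_thm ch_thm')

end Pool.Agent.Lib.MP_d6ddbd_nt.GC
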