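import Pool.Agent.Lib.MP_d6ddbd_nt.GC.Stmt
import Pool.Agent.Lib.MP_d6ddbd_nt.K11.Comp

/-!
The arithmetic conditions of the certificate are primitive recursive.
-/

set_option autoImplicit false

open Pool.Agent.Lib.MP_d6ddbd_nt.K11
open Pool.Agent.Lib.MP_d6ddbd_nt.K11.Comp (zsub zpow nabs ndvd zdvd prime famP fdP)
open Pool.Agent.Lib.MP_d6ddbd_nt.KA (TD Blk Gq ee rx)
open Pool.Agent.Sand.Check

noncomputable section

namespace Pool.Agent.Lib.MP_d6ddbd_nt.GC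

namespace ArP

section

variable {α β γ : Type} [Primcodable α] [Primcodable β] [Primcodable γ]

attribute [local fun_prop] PR.zadd

@[fun_prop] theorem nsub {f g : α → ℕ} (hf : PR f) (hg : PR g) : PR fun a => f a - g a :=
  Primrec.nat_sub.comp hf hg

@[fun_prop] theorem ndiv {f g : α → ℕ} (hf : PR f) (hg : PR g) : PR fun a => f a / g a :=
  Primrec.nat_div.comp hf hg

@[fun_prop] theorem nmod {f g : α → ℕ} (hf : PR f) (hg : PR g) : PR fun a => f a % g a :=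
  Primrec.nat_mod.comp hf hg

@[fun_prop] theorem fcP {y : α → ℤ} (hy : PR y) : PR fun a => fc (y a) := by
  unfold fc
  fun_prop

@[fun_prop] theorem ncP {q c : α → ℕ} {v : α → ℤ} (hq : PR q) (hc : PR c) (hv : PR v) :
    PR fun a => nc (q a) (c a) (v a) := by
  unfold nc
  fun_prop

@[fun_prop] theorem tcP {q c : α → ℕ} {e : α → ℕ × ℤ} (hq : PR q) (hc : PR c) (he : PR e) :
    PR fun a => tc (q a) (c a) (e a) := by
  unfold tc
  fun_prop

@[fun_prop] theorem eeP {d : α → ℤ} (hd : PR d) : PR fun a => ee (d a) :=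
  PR.ite (by fun_prop) (by fun_prop) (by fun_prop)

@[fun_prop] theorem rtP {q l : α → ℕ} {r : α → ℤ} (hq : PR q) (hl : PR l) (hr : PR r) :
    PP fun a => Rt (q a) (l a) (r a) := by
  unfold Rt
  fun_prop

/-- Squares modulo `l`. -/
def Sq (l : ℕ) (z : ℤ) : Prop := ∃ s ∈ List.range l, (l : ℤ) ∣ z - (s : ℤ) * (s : ℤ)

@[fun_prop] theorem sqP {l : α → ℕ} {z : α → ℤ} (hl : PR l) (hz : PR z) :
    PP fun a => Sq (l a) (z a) :=
  PP.ex (by fun_prop) (by fun_prop)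

theorem zprod {f : α → List ℤ} (hf : PR f) : PR fun a => (f a).prod :=
  PR.of_eq (Primrec.list_foldr (h := fun _ (p : ℤ × ℤ) => p.1 * p.2) hf (Primrec.const 1)
    (show PR fun w : α × ℤ × ℤ => w.2.1 * w.2.2 by fun_prop)) fun _ => List.prod_eq_foldr.symm

theorem flat {f : α → List β} {g : α → β → List γ} (hf : PR f)
    (hg : PR fun w : α × β => g w.1 w.2) : PR fun a => (f a).flatMap (g a) :=
  Primrec.list_flatMap hf hg

@[fun_prop] theorem wtP {d : α → ℤ} {i t : α → ℕ} (hd : PR d) (hi : PR i) (ht : PR t) :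
    PR fun a => wt (d a) (i a) (t a) := by
  have h : PR fun a => if d a = 2 then 7 else 3 :=
    PR.ite (by fun_prop) (by fun_prop) (by fun_prop)
  have h' : PP fun a => t a = if d a = 2 then 7 else 3 := PP.eq ht h
  exact PR.ite (by fun_prop) (PR.ite (by fun_prop) (by fun_prop) (by fun_prop))
    (PR.ite (by fun_prop) (PR.ite (by fun_prop) (by fun_prop)
      (PR.ite (by fun_prop) (by fun_prop) (by fun_prop)))
      (PR.ite ((PP.and (by fun_prop) (PP.or (by fun_prop) h')).or (by fun_prop))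
        (by fun_prop) (by fun_prop)))

end

attribute [local fun_prop] PR.zadd

theorem all_iff {l : ℕ} (h : l ≠ 0) (P : ZMod l → Prop) :
    (∀ x, P x) ↔ ∀ y ∈ List.range l, P (y : ℕ) := by
  have : NeZero l := ⟨h⟩
  exact ⟨fun H y _ => H y, fun H x => by
    simpa using H x.val (List.mem_range.2 (ZMod.val_lt x))⟩

theorem sq_iff {l : ℕ} (h : l ≠ 0) (z : ℤ) : Sq l z ↔ IsSquare (z : ZMod l) := by
  have : NeZero l := ⟨h⟩
  constructor
  · rintro ⟨s, -, hs⟩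
    have := (ZMod.intCast_zmod_eq_zero_iff_dvd _ l).2 hs
    push_cast at this
    exact ⟨s, sub_eq_zero.1 this⟩
  · rintro ⟨s, hs⟩
    refine ⟨s.val, List.mem_range.2 (ZMod.val_lt s), (ZMod.intCast_zmod_eq_zero_iff_dvd _ l).1 ?_⟩
    push_cast
    rw [ZMod.natCast_zmod_val, hs, sub_self]

theorem fc_iff (l y : ℕ) : (l : ℤ) ∣ fc (y : ℤ) ↔ fc (y : ZMod l) = 0 := by
  rw [← ZMod.intCast_zmod_eq_zero_iff_dvd]
  simp [fc]

theorem nr_iff {q : ℕ} (h : q ≠ 0) : (∃ y ∈ List.range q, (q : ℤ) ∣ fc (y : ℤ) ∧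
    ∀ z ∈ List.range q, (q : ℤ) ∣ fc (z : ℤ) → z = y) ↔ nr q = 1 := by
  have : NeZero q := ⟨h⟩
  rw [nr, Nat.card_eq_one_iff_exists]
  simp only [fc_iff, List.mem_range]
  constructor
  · rintro ⟨y, -, a, b⟩
    refine ⟨⟨y, a⟩, fun z => Subtype.ext ?_⟩
    have := b z.1.val (ZMod.val_lt _) (by simpa using z.2)
    simp [← this]
  · rintro ⟨x, hx⟩
    refine ⟨x.1.val, ZMod.val_lt _, by simpa using x.2, fun z hz a => ?_⟩
    have := congrArg (fun u : {x : ZMod q // fc x = 0} => u.1.val) (hx ⟨z, a⟩)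
    simpa [ZMod.val_natCast, Nat.mod_eq_of_lt hz] using this

theorem nrP : PP fun q : ℕ => q ≠ 0 ∧ nr q = 1 :=
  (PP.and (by fun_prop) (PP.ex (p := fun q y : ℕ => (q : ℤ) ∣ fc (y : ℤ) ∧
    ∀ z ∈ List.range q, (q : ℤ) ∣ fc (z : ℤ) → z = y) (by fun_prop) (PP.and (by fun_prop)
      (PP.all (by fun_prop) (PP.imp (by fun_prop) (by fun_prop)))))).of_iff fun _ =>
    and_congr_right fun h => nr_iff h

theorem spl_iff {l : ℕ} (h : l ≠ 0) (q : ℕ) : Sq l (-q) ↔ Spl q l := by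
  rw [sq_iff h, Spl]
  simp

theorem qfP : PP QF := by
  have h : PP fun q : ℕ => q.Prime ∧ 44 < q ∧ q % 4 = 3 ∧ Sq 11 (-q) := by fun_prop
  exact h.of_iff fun q => ⟨fun ⟨a, b, c, d⟩ => ⟨a, b, c, (spl_iff (by norm_num) q).1 d⟩,
    fun H => ⟨H.pr, H.big, H.m4, (spl_iff (by norm_num) q).2 H.s11⟩⟩

theorem bd {d : ℤ} (h : d ≠ 0) {l : ℕ} (hl : (l : ℤ) ∣ d) : l ∈ List.range (d.natAbs + 1) :=
  List.mem_range.2 (Nat.lt_succ_of_le (Nat.le_of_dvd (by omega) (Int.natCast_dvd.1 hl)))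

theorem qdP : PP fun w : ℕ × ℤ => QD w.1 w.2 := by
  have h : PP fun w : ℕ × ℤ => Fam w.2 ∧ QF w.1 ∧ ¬ (w.1 : ℤ) ∣ w.2 ∧ (w.1 ≠ 0 ∧ nr w.1 = 1) ∧
      ∀ l ∈ List.range (w.2.natAbs + 1), l.Prime → (l : ℤ) ∣ w.2 → Sq l (-w.1) :=
    (famP.comp (by fun_prop)).and ((qfP.comp (by fun_prop)).and (PP.and (by fun_prop)
      ((nrP.comp (f := fun w : ℕ × ℤ => w.1) (by fun_prop)).and (PP.all (by fun_prop)
        (PP.imp (by fun_prop) (PP.imp (by fun_prop) (by fun_prop)))))))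
  exact h.of_iff fun w => ⟨fun ⟨a, b, c, d, e⟩ => ⟨a, b, c, d.2, fun l p m =>
    (spl_iff p.ne_zero _).1 (e l (bd a.sf.ne_zero m) p m)⟩, fun H => ⟨H.fam, H.qf, H.nd,
      ⟨H.qf.pr.ne_zero, H.ty⟩, fun l _ p m => (spl_iff p.ne_zero _).2 (H.spl l p m)⟩⟩

theorem gqP : PP fun q : ℕ => q ≠ 0 ∧ Gq q := by
  have h : PP fun q : ℕ => (q ≠ 0 ∧ nr q = 1) ∧
      ∀ y ∈ List.range q, (q : ℤ) ∣ fc (y : ℤ) → ¬ Sq q (2 * (18 - y)) :=
    nrP.and (PP.all (by fun_prop) (PP.imp (by fun_prop) (by fun_prop)))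
  refine h.of_iff fun q => ?_
  rw [and_assoc, Gq]
  refine and_congr_right fun a => and_congr_right fun _ => ?_
  rw [all_iff a]
  simp [fc_iff, sq_iff a]

/-- The Legendre symbol. -/
def lg (l : ℕ) (a : ℤ) : ℤ := by
  classical exact if (l : ℤ) ∣ a then 0 else if Sq l a then 1 else -1

theorem lgP : PR fun w : ℕ × ℤ => lg w.1 w.2 := by
  classical
  exact PR.ite (by fun_prop) (by fun_prop) (PR.ite (by fun_prop) (by fun_prop) (by fun_prop))

theorem lg_eq {l : ℕ} (h : l.Prime) (a : ℤ) : lg l a = jacobiSym a l := by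
  have := Fact.mk h
  rw [← jacobiSym.legendreSym.to_jacobiSym, lg, legendreSym, quadraticChar_apply, quadraticCharFun]
  simp only [sq_iff h.ne_zero, ZMod.intCast_zmod_eq_zero_iff_dvd]

theorem rxP : PP rx := by
  have h : PP fun d : ℤ => (11 : ℤ) ∣ d ∧ ∃ r ∈ List.range 11, (121 : ℤ) ∣ d + 11 * (r : ℤ) ∧
      lg 11 r = -1 :=
    PP.and (by fun_prop) (PP.ex (by fun_prop) (PP.and (by fun_prop)
      (PP.eq (lgP.comp (g := fun w : ℤ × ℕ => (11, (w.2 : ℤ))) (by fun_prop)) (by fun_prop))))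
  refine h.of_iff fun d => and_congr_right fun a => ?_
  simp only [lg_eq (by norm_num : Nat.Prime 11), List.mem_range]
  constructor
  · rintro ⟨r, -, b, c⟩
    rw [← c]
    exact jacobiSym.mod_left' (by push_cast; omega)
  · intro c
    refine ⟨(d / -11 % 11).toNat, by omega, by omega, ?_⟩
    rw [← c]
    exact jacobiSym.mod_left' (by push_cast; omega)

theorem blkP : PP Blk := by
  have h : PP fun d : ℤ => rx d ∧ ¬ (2 : ℤ) ∣ d ∧ ∀ l ∈ List.range (d.natAbs + 1), l.Prime →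
      (l : ℤ) ∣ d → l ≠ 11 → ∀ y ∈ List.range l, (l : ℤ) ∣ fc (y : ℤ) → Sq l (11 * fd (y : ℤ)) :=
    rxP.and (PP.and (by fun_prop) (PP.all (by fun_prop) (PP.imp (by fun_prop) (PP.imp (by fun_prop)
      (PP.imp (by fun_prop) (PP.all (by fun_prop) (PP.imp (by fun_prop) (by fun_prop))))))))
  refine h.of_iff fun d => and_congr_right fun _ => ?_
  rw [← even_iff_two_dvd, Int.not_even_iff_odd]
  refine and_congr_right fun o => ?_
  have e : ∀ l : ℕ, l.Prime → ((∀ y ∈ List.range l, (l : ℤ) ∣ fc (y : ℤ) →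
      Sq l (11 * fd (y : ℤ))) ↔ ∀ x : ZMod l, fc x = 0 → IsSquare (11 * fd x)) := fun l p => by
    rw [all_iff p.ne_zero]
    simp [fc_iff, sq_iff p.ne_zero, fd]
  exact ⟨fun H l p m n => (e l p).1 (H l (bd (by rintro rfl; simp at o) m) p m n),
    fun H l _ p m n => (e l p).2 (H l p m n)⟩

theorem tdP : PP fun w : ℤ × ℤ × ℤ => TD w.1 w.2.1 w.2.2 := by
  have h : PP fun w : ℤ × ℤ × ℤ => Fam w.2.2 ∧
      (w.2.1 = 1 ∨ w.2.1 = -1 ∨ w.2.1 = 2 ∨ w.2.1 = -2) ∧ w.1 = w.2.1 * ee w.1 * w.2.2 :=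
    (famP.comp (by fun_prop)).and (by fun_prop)
  exact h.of_iff fun w => ⟨fun ⟨a, b, c⟩ => ⟨a, b, c⟩, fun H => ⟨H.fam, H.dl, H.eq⟩⟩

theorem arP : PP fun w : ℤ × ℤ × ℤ × ℕ × ℤ => Ar w.1 w.2.1 w.2.2.1 w.2.2.2.1 w.2.2.2.2 := by
  have h : PP fun w : ℤ × ℤ × ℤ × ℕ × ℤ => TD w.1 w.2.1 w.2.2.1 ∧ ¬ Blk w.1 ∧
      QD w.2.2.2.1 w.2.2.1 ∧ w.2.2.2.1 % 8 = 7 ∧
      ((2 : ℤ) ∣ w.2.1 → w.2.2.2.1 ≠ 0 ∧ Gq w.2.2.2.1) ∧ Rt w.2.2.2.1 11 w.2.2.2.2 :=
    (tdP.comp (f := fun w : ℤ × ℤ × ℤ × ℕ × ℤ => (w.1, w.2.1, w.2.2.1)) (by fun_prop)).and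
      ((blkP.comp (by fun_prop)).not.and
        ((qdP.comp (f := fun w : ℤ × ℤ × ℤ × ℕ × ℤ => (w.2.2.2.1, w.2.2.1)) (by fun_prop)).and
          (PP.and (by fun_prop) ((PP.imp (by fun_prop)
            (gqP.comp (f := fun w : ℤ × ℤ × ℤ × ℕ × ℤ => w.2.2.2.1) (by fun_prop))).and
              (by fun_prop)))))
  exact h.of_iff fun w => ⟨fun ⟨a, b, c, d, e, f⟩ =>
    ⟨a, b, c, d, fun g => (e (even_iff_two_dvd.1 g)).2, f⟩, fun H => ⟨H.td, H.nb, H.qd, H.m8,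
      fun g => ⟨H.qd.qf.pr.ne_zero, H.gq (even_iff_two_dvd.2 g)⟩, H.rt⟩⟩

/-- The Jacobi symbol for a squarefree denominator. -/
def jc (a : ℤ) (n : ℕ) : ℤ :=
  ((List.range (n + 1)).map fun l => if l.Prime ∧ l ∣ n then lg l a else 1).prod

theorem jcP0 : PR fun w : ℤ × ℕ => jc w.1 w.2 :=
  zprod (PR.map (by fun_prop) (PR.ite (by fun_prop)
    (lgP.comp (g := fun u : (ℤ × ℕ) × ℕ => (u.2, u.1.1)) (by fun_prop)) (by fun_prop)))

@[fun_prop] theorem jcP {α : Type} [Primcodable α] {a : α → ℤ} {n : α → ℕ} (ha : PR a)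
    (hn : PR n) : PR fun x => jc (a x) (n x) :=
  PR.comp (f := fun w : ℤ × ℕ => jc w.1 w.2) (g := fun x => (a x, n x)) jcP0 (ha.pair hn)

/-- One entry of the list. -/
def en (δ : ℤ) (q n : ℕ) (e : ℕ × ℤ) (i : ℕ) : ℤ × TC :=
  (5 * jc e.1 n * wt δ i (e.1 % 8), tc q (i * n) e)

theorem enP {α : Type} [Primcodable α] {δ : α → ℤ} {q n i : α → ℕ} {e : α → ℕ × ℤ} (hδ : PR δ)
    (hq : PR q) (hn : PR n) (he : PR e) (hi : PR i) :
    PR fun a => en (δ a) (q a) (n a) (e a) (i a) :=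
  (((PR.const 5).mul (jcP he.fst.cast hn)).mul (wtP hδ hi (nmod he.fst (PR.const 8)))).pair
    (tcP hq (hi.nmul hn) he)

theorem hlP {α : Type} [Primcodable α] {δ : α → ℤ} {q n : α → ℕ} {T : α → List (ℕ × ℤ)}
    (hδ : PR δ) (hq : PR q) (hn : PR n) (hT : PR T) :
    PR fun a => (T a).flatMap fun e => [1, 2, 4, 8].map (en (δ a) (q a) (n a) e) :=
  flat hT (PR.map (PR.const _) (enP (hδ.comp PR.id.fst.fst) (hq.comp PR.id.fst.fst)
    (hn.comp PR.id.fst.fst) PR.id.fst.snd PR.id.snd))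

theorem jac_prod (a : ℤ) (s : Finset ℕ) (h : ∀ l ∈ s, l ≠ 0) :
    jacobiSym a (∏ l ∈ s, l) = ∏ l ∈ s, jacobiSym a l := by
  induction s using Finset.induction_on with
  | empty => simp
  | insert l s hl ih =>
    rw [Finset.prod_insert hl, Finset.prod_insert hl, jacobiSym.mul_right' a (h l (by simp))
      (Finset.prod_ne_zero_iff.2 fun m hm => h m (by simp [hm])),
      ih fun m hm => h m (by simp [hm])]

theorem jc_eq (a : ℤ) {n : ℕ} (h : Squarefree n) : jc a n = jacobiSym a n := by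
  have e : n.primeFactors = (Finset.range (n + 1)).filter fun l => l.Prime ∧ l ∣ n := by
    ext l
    simp only [Nat.mem_primeFactors, Finset.mem_filter, Finset.mem_range]
    exact ⟨fun ⟨p, m, z⟩ => ⟨Nat.lt_succ_of_le (Nat.le_of_dvd (Nat.pos_of_ne_zero z) m), p, m⟩,
      fun ⟨_, p, m⟩ => ⟨p, m, h.ne_zero⟩⟩
  conv_rhs => rw [← Nat.prod_primeFactors_of_squarefree h]
  rw [jac_prod a _ fun l hl => (Nat.prime_of_mem_primeFactors hl).ne_zero, e, Finset.prod_filter,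
    jc]
  refine Eq.trans rfl (Finset.prod_congr rfl fun l _ => ?_ :
    (∏ l ∈ Finset.range (n + 1), if l.Prime ∧ l ∣ n then lg l a else 1) = _)
  split_ifs with p
  · exact lg_eq p.1 a
  · rfl

end ArP

open ArP in
theorem ar_thm : ArStmt := by
  refine ⟨arP, ?_, tcP PR.id.fst PR.id.snd.fst PR.id.snd.snd, _,
    hlP PR.id.fst PR.id.snd.fst PR.id.snd.snd.fst PR.id.snd.snd.snd, fun δ q n T h => ?_⟩
  · unfold cn
    fun_prop
  · unfold en
    simp only [HL, jc_eq _ h.1]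

end Pool.Agent.Lib.MP_d6ddbd_nt.GC
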