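import Pool.Agent.Lib.MP_215a10_lc.Dec.Check1

/-!
Effectively open sets and computable functions.
-/

set_option autoImplicit false

open Pool.Agent.Sand.Check

noncomputable section

namespace Pool.Agent.Lib.MP_d6ddbd_nt.GC

variable {α β γ : Type} [Primcodable α] [Primcodable β] [Primcodable γ]

attribute [local fun_prop] PR.zadd

/-! ### Rational numbers -/

/-- Codes of rational numbers. -/
abbrev QC : Type := ℤ × ℕ

/-- The number with a given code. -/
def val (q : QC) : ℝ := q.1 / (q.2 + 1)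

theorem ex_val (r : ℚ) : ∃ q, val q = r := ⟨(r.num, r.den - 1), by
  have : ((r.den - 1 : ℕ) : ℝ) + 1 = r.den := by exact_mod_cast Nat.sub_add_cancel r.pos
  simp only [val, this, Rat.cast_def]⟩

theorem val_btwn {x y : ℝ} (h : x < y) : ∃ q, x < val q ∧ val q < y := by
  obtain ⟨r, h⟩ := exists_rat_btwn h
  obtain ⟨q, e⟩ := ex_val r
  exact ⟨q, e ▸ h⟩

theorem val_sq {x y : ℝ} (h : x < y) (hy : 0 < y) :
    ∃ q, 0 < val q ∧ x < val q * val q ∧ val q * val q < y := by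
  obtain ⟨r, h0, h⟩ := exists_rat_pow_btwn two_ne_zero h hy
  obtain ⟨q, e⟩ := ex_val r
  exact ⟨q, by rw [e]; exact_mod_cast h0, by rw [e, ← sq]; exact h⟩

/-- Primitive recursive functions with rational values. -/
@[fun_prop] def PQ (f : α → ℝ) : Prop := ∃ c : α → QC, PR c ∧ ∀ a, f a = val (c a)

@[fun_prop] theorem PQ.code {c : α → QC} (h : PR c) : PQ fun a => val (c a) := ⟨c, h, fun _ => rfl⟩

@[fun_prop] theorem PQ.int {f : α → ℤ} (h : PR f) : PQ fun a => (f a : ℝ) :=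
  ⟨fun a => (f a, 0), by fun_prop, fun a => by simp [val]⟩

@[fun_prop] theorem PQ.nat {f : α → ℕ} (h : PR f) : PQ fun a => (f a : ℝ) :=
  ⟨fun a => (f a, 0), by fun_prop, fun a => by simp [val]⟩

theorem PQ.rat (r : ℚ) : PQ fun _ : α => (r : ℝ) :=
  let ⟨q, e⟩ := ex_val r
  ⟨fun _ => q, by fun_prop, fun _ => e.symm⟩

theorem PQ.of_eq {f g : α → ℝ} (h : PQ f) (e : ∀ a, f a = g a) : PQ g := funext e ▸ h

theorem PQ.zero : PQ fun _ : α => 0 := (PQ.rat 0).of_eq fun _ => by simp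

theorem PQ.one : PQ fun _ : α => 1 := (PQ.rat 1).of_eq fun _ => by simp

@[fun_prop] theorem PQ.comp {f : β → ℝ} {g : α → β} (h : PQ f) (hg : PR g) :
    PQ fun a => f (g a) :=
  let ⟨c, h, e⟩ := h
  ⟨fun a => c (g a), h.comp hg, fun _ => e _⟩

@[fun_prop] theorem PQ.neg {f : α → ℝ} (h : PQ f) : PQ fun a => -f a :=
  let ⟨c, h, e⟩ := h
  ⟨fun a => (-(c a).1, (c a).2), by fun_prop, fun a => by simp [e, val, neg_div]⟩

@[fun_prop] theorem PQ.add {f g : α → ℝ} (h : PQ f) (h' : PQ g) : PQ fun a => f a + g a :=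
  let ⟨c, h, e⟩ := h
  let ⟨c', h', e'⟩ := h'
  ⟨fun a => ((c a).1 * ((c' a).2 + 1 : ℕ) + (c' a).1 * ((c a).2 + 1 : ℕ),
    (c a).2 * (c' a).2 + (c a).2 + (c' a).2), by fun_prop, fun a => by
      simp only [e, e', val]
      push_cast
      rw [div_add_div _ _ (by positivity) (by positivity)]
      congr 1 <;> ring⟩

@[fun_prop] theorem PQ.mul {f g : α → ℝ} (h : PQ f) (h' : PQ g) : PQ fun a => f a * g a :=
  let ⟨c, h, e⟩ := h
  let ⟨c', h', e'⟩ := h'
  ⟨fun a => ((c a).1 * (c' a).1, (c a).2 * (c' a).2 + (c a).2 + (c' a).2), by fun_prop, fun a => by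
      simp only [e, e', val]
      push_cast
      rw [div_mul_div_comm]
      congr 1
      ring⟩

theorem PQ.lt {f g : α → ℝ} (h : PQ f) (h' : PQ g) : PP fun a => f a < g a := by
  obtain ⟨c, h, e⟩ := h
  obtain ⟨c', h', e'⟩ := h'
  refine PP.of_iff (p := fun a => ¬ (c' a).1 * ((c a).2 + 1 : ℕ) ≤ (c a).1 * ((c' a).2 + 1 : ℕ))
    (by fun_prop) fun a => ?_
  rw [e, e', val, val, div_lt_div_iff₀ (by positivity) (by positivity), not_le]
  norm_cast

/-! ### Recursion -/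

theorem RE.chain [Inhabited β] {P : α → ℕ → β → Prop} {T : α → ℕ → β → β → Prop}
    (h0 : RE fun w : α × β => P w.1 0 w.2)
    (hT : RE fun w : (α × ℕ) × β × β => T w.1.1 w.1.2 w.2.1 w.2.2)
    (h : ∀ a n b, P a (n + 1) b ↔ ∃ b', P a n b' ∧ T a n b' b) :
    RE fun w : (α × ℕ) × β => P w.1.1 w.1.2 w.2 := by
  refine (RE.ex (P := fun (w : (α × ℕ) × β) (L : List β) => P w.1.1 0 (L.getD 0 default) ∧
    (∀ i ∈ List.range w.1.2, T w.1.1 i (L.getD i default) (L.getD (i + 1) default)) ∧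
      L.getD w.1.2 default = w.2)
    ((h0.comp (f := fun w : ((α × ℕ) × β) × List β => (w.1.1.1, w.2.getD 0 default))
      (by fun_prop)).and ((RE.all (by fun_prop) (hT.comp
        (f := fun w : (((α × ℕ) × β) × List β) × ℕ => ((w.1.1.1.1, w.2),
          w.1.2.getD w.2 default, w.1.2.getD (w.2 + 1) default)) (by fun_prop))).and
      (PP.re (by fun_prop))))).of_iff ?_
  rintro ⟨⟨a, n⟩, b⟩
  simp only [List.mem_range]
  constructor
  · rintro ⟨L, h1, h2, rfl⟩
    induction n with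
    | zero => exact h1
    | succ n ih => exact (h a n _).2 ⟨_, ih fun i hi => h2 i (by omega), h2 n (by omega)⟩
  · intro hp
    obtain ⟨F, h1, h2, h3⟩ : ∃ F : ℕ → β, P a 0 (F 0) ∧ (∀ i < n, T a i (F i) (F (i + 1))) ∧
        F n = b := by
      induction n generalizing b with
      | zero => exact ⟨fun _ => b, hp, by simp, rfl⟩
      | succ n ih =>
        obtain ⟨b', p, t⟩ := (h a n b).1 hp
        obtain ⟨F, h1, h2, rfl⟩ := ih b' p
        refine ⟨Function.update F (n + 1) b, by simpa using h1, fun i hi => ?_, by simp⟩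
        rw [Function.update_of_ne (by omega)]
        rcases Nat.lt_succ_iff_lt_or_eq.1 hi with e | rfl
        · rw [Function.update_of_ne (by omega)]
          exact h2 i e
        · simpa using t
    have e : ∀ i ≤ n, ((List.range (n + 1)).map F).getD i default = F i := fun i hi => by
      simp [List.getD_eq_getElem?_getD, List.getElem?_range (Nat.lt_succ_of_le hi)]
    exact ⟨_, by rwa [e 0 (by omega)], fun i hi => by
      rw [e i hi.le, e (i + 1) hi]; exact h2 i hi, by rw [e n le_rfl, h3]⟩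

/-! ### Effectively open sets -/

/-- The space of the variables. -/
abbrev CX : Type := ℂ × ℂ

/-- Codes of half spaces. -/
abbrev BB : Type := (ℤ × ℤ × ℤ × ℤ) × QC

/-- Integral linear forms. -/
def lf (c : ℤ × ℤ × ℤ × ℤ) (x : CX) : ℝ :=
  c.1 * x.1.re + c.2.1 * x.1.im + c.2.2.1 * x.2.re + c.2.2.2 * x.2.im

/-- Finite intersections of half spaces. -/
def Ub (l : List BB) (x : CX) : Prop := ∀ b ∈ l, val b.2 < lf b.1 x

/-- Families of effectively open sets. -/
def EO (S : α → CX → Prop) : Prop := ∃ T : α → List BB → Prop,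
  RE (fun w : α × List BB => T w.1 w.2) ∧ (∀ a l l', l ⊆ l' → T a l → T a l') ∧
    ∀ a x, S a x ↔ ∃ l, Ub l x ∧ T a l

variable {S S' D D' : α → CX → Prop}

theorem Ub.app {l l' : List BB} {x : CX} (h : Ub l x) (h' : Ub l' x) : Ub (l ++ l') x :=
  fun b hb => (List.mem_append.1 hb).elim (h b) (h' b)

theorem EO.of_iff (h : EO S) (e : ∀ a x, S a x ↔ S' a x) : EO S' :=
  (funext fun a => funext fun x => propext (e a x) : S = S') ▸ h

theorem EO.const {P : α → Prop} (h : RE P) : EO fun a _ => P a :=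
  ⟨fun a _ => P a, h.comp (by fun_prop), fun _ _ _ _ h => h, fun _ _ =>
    ⟨fun h => ⟨[], by simp [Ub], h⟩, fun h => h.choose_spec.2⟩⟩

theorem EO.pp {P : α → Prop} (h : PP P) : EO fun a _ => P a := EO.const h.re

theorem EO.true : EO fun (_ : α) _ => True :=
  EO.pp ((PP.eq (PR.const 0) (PR.const 0)).of_iff fun _ => by simp)

theorem EO.re {P : α → Prop} (h : EO fun a _ => P a) : RE P := by
  obtain ⟨T, h, -, e⟩ := h
  exact (RE.ex (P := fun a (l : List BB) => (∀ b ∈ l, val b.2 < 0) ∧ T a l)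
    ((PP.all (p := fun _ (b : BB) => val b.2 < 0) (by fun_prop)
      (PQ.lt (by fun_prop) PQ.zero)).re.and h)).of_iff fun a => by
      simp [e a 0, Ub, lf]

theorem EO.comp {f : β → α} (h : EO S) (hf : PR f) : EO fun b x => S (f b) x :=
  let ⟨T, h, m, e⟩ := h
  ⟨fun b => T (f b), h.app2 (by fun_prop) (by fun_prop), fun _ => m _, fun _ => e _⟩

theorem EO.and (h : EO S) (h' : EO S') : EO fun a x => S a x ∧ S' a x :=
  let ⟨T, h, m, e⟩ := h
  let ⟨T', h', m', e'⟩ := h'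
  ⟨fun a l => T a l ∧ T' a l, h.and h', fun a l l' s t => ⟨m a l l' s t.1, m' a l l' s t.2⟩,
    fun a x => by
      beta_reduce
      rw [e, e']
      exact ⟨fun ⟨⟨l, u, t⟩, l', u', t'⟩ => ⟨l ++ l', u.app u', m _ _ _ (by simp) t,
        m' _ _ _ (by simp) t'⟩, fun ⟨l, u, t, t'⟩ => ⟨⟨l, u, t⟩, l, u, t'⟩⟩⟩

theorem EO.or (h : EO S) (h' : EO S') : EO fun a x => S a x ∨ S' a x :=
  let ⟨T, h, m, e⟩ := h
  let ⟨T', h', m', e'⟩ := h'
  ⟨fun a l => T a l ∨ T' a l, h.or h', fun a l l' s t => t.imp (m a l l' s) (m' a l l' s),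
    fun a x => by simp only [e, e', and_or_left, exists_or]⟩

theorem EO.ex {S : α → β → CX → Prop} (h : EO fun w : α × β => S w.1 w.2) :
    EO fun a x => ∃ b, S a b x :=
  let ⟨T, h, m, e⟩ := h
  ⟨fun a l => ∃ b, T (a, b) l, RE.ex (h.app2 (by fun_prop) (by fun_prop)),
    fun a l l' s t => t.imp fun b => m _ l l' s, fun a x => by
      simp only [fun b => e (a, b) x, ← exists_and_left]
      exact exists_comm⟩

theorem EO.all {S : α → β → CX → Prop} {L : α → List β} (hL : PR L)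
    (h : EO fun w : α × β => S w.1 w.2) : EO fun a x => ∀ b ∈ L a, S a b x := by
  obtain ⟨T, h, m, e⟩ := h
  refine ⟨fun a l => ∀ b ∈ L a, T (a, b) l, RE.all (by fun_prop)
    (h.app2 (by fun_prop) (by fun_prop)), fun a l l' s t b hb => m _ l l' s (t b hb),
    fun a x => ⟨?_, fun ⟨l, u, t⟩ b hb => (e (a, b) x).2 ⟨l, u, t b hb⟩⟩⟩
  beta_reduce
  induction L a with
  | nil => exact fun _ => ⟨[], by simp [Ub], by simp⟩
  | cons b L ih =>
    intro H
    obtain ⟨l, u, t⟩ := ih fun b hb => H b (by simp [hb])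
    obtain ⟨l', u', t'⟩ := (e (a, b) x).1 (H b (by simp))
    exact ⟨l ++ l', u.app u', fun b' hb => by
      rcases List.mem_cons.1 hb with rfl | hb
      exacts [m _ _ _ (by simp) t', m _ _ _ (by simp) (t _ hb)]⟩

theorem EO.half : EO fun (b : BB) x => val b.2 < lf b.1 x :=
  ⟨fun b l => b ∈ l, PP.re (by fun_prop), fun _ _ _ s t => s t, fun b _ =>
    ⟨fun h => ⟨[b], by simpa [Ub] using h, by simp⟩, fun ⟨_, u, t⟩ => u b t⟩⟩

/-! ### Real functions -/

/-- Lower semicomputable functions on the domain `D`. -/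
def Lo (D : α → CX → Prop) (f : α → CX → ℝ) : Prop :=
  EO fun (w : α × QC) x => D w.1 x ∧ val w.2 < f w.1 x

/-- Computable real functions on the domain `D`. -/
def Cr (D : α → CX → Prop) (f : α → CX → ℝ) : Prop := Lo D f ∧ Lo D fun a x => -f a x

section real

variable {f g : α → CX → ℝ}

theorem Lo.app (h : Lo D f) {s : β → α} {r : β → ℝ} (hs : PR s) (hr : PQ r) :
    EO fun b x => D (s b) x ∧ r b < f (s b) x :=
  let ⟨c, hc, e⟩ := hr
  (EO.comp h (hs.pair hc)).of_iff fun b x => by rw [e]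

theorem Lo.dom (h : Lo D f) : EO D :=
  (EO.ex (S := fun a q x => D a x ∧ val q < f a x) h).of_iff fun a x =>
    ⟨fun h => h.choose_spec.1, fun h => (val_btwn (sub_one_lt (f a x))).imp fun _ e => ⟨h, e.2⟩⟩

theorem Lo.congr (h : Lo D f) (hD : EO D') (e : ∀ a x, D' a x → D a x ∧ f a x = g a x) :
    Lo D' g :=
  ((hD.comp (by fun_prop)).and h).of_iff fun w x =>
    ⟨fun t => ⟨t.1, (e _ _ t.1).2 ▸ t.2.2⟩, fun t => ⟨t.1, (e _ _ t.1).1, (e _ _ t.1).2 ▸ t.2⟩⟩

theorem Lo.add (h : Lo D f) (h' : Lo D g) : Lo D fun a x => f a x + g a x :=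
  (EO.ex (S := fun (w : α × QC) (r : QC) x => (D w.1 x ∧ val r < f w.1 x) ∧
      D w.1 x ∧ val w.2 + -val r < g w.1 x)
    ((h.app (by fun_prop) (by fun_prop)).and (h'.app (by fun_prop) (by fun_prop)))).of_iff
    fun w x => ⟨fun ⟨_, t, t'⟩ => ⟨t.1, by linarith [t.2, t'.2]⟩, fun t =>
      (val_btwn (show val w.2 - g w.1 x < f w.1 x by linarith [t.2])).imp fun _ e =>
        ⟨⟨t.1, e.2⟩, t.1, by linarith [e.1]⟩⟩

theorem Cr.dom (h : Cr D f) : EO D := h.1.dom

theorem Cr.congr (h : Cr D f) (hD : EO D') (e : ∀ a x, D' a x → D a x ∧ f a x = g a x) :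
    Cr D' g :=
  ⟨h.1.congr hD e, h.2.congr hD fun a x t => ⟨(e a x t).1, by rw [(e a x t).2]⟩⟩

theorem Cr.of_eq (h : Cr D f) (e : ∀ a x, f a x = g a x) : Cr D g :=
  h.congr h.dom fun a x t => ⟨t, e a x⟩

theorem Cr.comp {s : β → α} (h : Cr D f) (hs : PR s) :
    Cr (fun b => D (s b)) fun b => f (s b) :=
  ⟨h.1.app (by fun_prop) (by fun_prop), h.2.app (by fun_prop) (by fun_prop)⟩

theorem Cr.pq {r : α → ℝ} (hD : EO D) (h : PQ r) : Cr D fun a _ => r a :=
  ⟨(hD.comp (by fun_prop)).and (EO.pp (PQ.lt (by fun_prop) (by fun_prop))),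
    (hD.comp (by fun_prop)).and (EO.pp (PQ.lt (by fun_prop) (by fun_prop)))⟩

theorem Cr.neg (h : Cr D f) : Cr D fun a x => -f a x := ⟨h.2, by simpa using h.1⟩

theorem Cr.add (h : Cr D f) (h' : Cr D g) : Cr D fun a x => f a x + g a x :=
  ⟨h.1.add h'.1, by simpa only [neg_add] using h.2.add h'.2⟩

theorem Cr.sub (h : Cr D f) (h' : Cr D g) : Cr D fun a x => f a x - g a x := by
  simpa only [sub_eq_add_neg] using h.add h'.neg

theorem Cr.lt (h : Cr D f) (h' : Cr D g) : EO fun a x => D a x ∧ f a x < g a x := by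
  simpa using (h'.sub h).1.app PR.id PQ.zero

theorem Cr.sq (h : Cr D f) : Cr D fun a x => f a x * f a x / 4 := by
  have p4 : PQ fun w : (α × QC) × QC => 4 * val w.1.2 :=
    ((PQ.rat 4).mul (g := fun w => val w.1.2) (by fun_prop)).of_eq fun _ => by simp
  constructor
  · refine (EO.ex (S := fun (w : α × QC) (r : QC) x => D w.1 x ∧ val w.2 < 0 ∨
      (0 < val r ∧ 4 * val w.2 < val r * val r) ∧
        (D w.1 x ∧ val r < f w.1 x ∨ D w.1 x ∧ val r < -f w.1 x))
      (((h.dom.comp (by fun_prop)).and (EO.pp (PQ.lt (by fun_prop) PQ.zero))).or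
        ((EO.pp ((PQ.lt PQ.zero (by fun_prop)).and (PQ.lt p4 (by fun_prop)))).and
          ((h.1.app (by fun_prop) (by fun_prop)).or
            (h.2.app (by fun_prop) (by fun_prop)))))).of_iff fun w x => ⟨?_, fun ⟨d, t⟩ => ?_⟩
    · rintro ⟨r, t | ⟨t, u | u⟩⟩
      exacts [⟨t.1, by nlinarith [t.2]⟩, ⟨u.1, by nlinarith [t.1, t.2, u.2]⟩,
        ⟨u.1, by nlinarith [t.1, t.2, u.2]⟩]
    · rcases lt_or_ge (val w.2) 0 with e | e
      · exact ⟨default, Or.inl ⟨d, e⟩⟩
      · obtain ⟨r, r0, r1, r2⟩ := val_sq (show 4 * val w.2 < f w.1 x * f w.1 x by linarith)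
          (by linarith)
        refine ⟨r, Or.inr ⟨⟨r0, r1⟩, ?_⟩⟩
        by_contra! k
        nlinarith [k.1 d, k.2 d]
  · refine (EO.ex (S := fun (w : α × QC) (r : QC) x => 4 * val w.2 < -(val r * val r) ∧
        (D w.1 x ∧ -val r < f w.1 x) ∧ D w.1 x ∧ -val r < -f w.1 x)
      ((EO.pp (PQ.lt p4 (by fun_prop))).and ((h.1.app (by fun_prop) (by fun_prop)).and
        (h.2.app (by fun_prop) (by fun_prop))))).of_iff fun w x =>
          ⟨fun ⟨r, t, u, v⟩ => ⟨u.1, by nlinarith [u.2, v.2]⟩, fun ⟨d, t⟩ => ?_⟩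
    obtain ⟨r, r0, r1, r2⟩ := val_sq (show f w.1 x * f w.1 x < -(4 * val w.2) by linarith)
      (by nlinarith)
    exact ⟨r, by linarith, ⟨d, by nlinarith⟩, d, by nlinarith⟩

theorem Cr.mul (h : Cr D f) (h' : Cr D g) : Cr D fun a x => f a x * g a x :=
  ((h.add h').sq.sub (h.sub h').sq).of_eq fun a x => by ring

theorem Lo.inv (h : Cr D f) (h0 : ∀ a x, D a x → f a x ≠ 0) : Lo D fun a x => (f a x)⁻¹ := by
  have h1 := h.comp (s := fun w : α × QC => w.1) (by fun_prop)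
  have h2 := (Cr.pq h1.dom (r := fun w => val w.2) (by fun_prop)).mul h1
  have z := Cr.pq h1.dom PQ.zero
  have o := Cr.pq h1.dom PQ.one
  refine (((z.lt h1).and (h2.lt o)).or ((h1.lt z).and (o.lt h2))).of_iff fun w x => ⟨?_, ?_⟩
  · rintro (⟨t, u⟩ | ⟨t, u⟩)
    · exact ⟨t.1, by simpa only [← one_div, lt_div_iff₀ t.2] using u.2⟩
    · exact ⟨t.1, by simpa only [← one_div, lt_div_iff_of_neg t.2] using u.2⟩
  · rintro ⟨d, t⟩
    beta_reduce at t
    rcases (h0 _ _ d).lt_or_gt with e | e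
    · rw [← one_div, lt_div_iff_of_neg e] at t
      exact Or.inr ⟨⟨d, e⟩, d, t⟩
    · rw [← one_div, lt_div_iff₀ e] at t
      exact Or.inl ⟨⟨d, e⟩, d, t⟩

theorem Cr.inv (h : Cr D f) (h0 : ∀ a x, D a x → f a x ≠ 0) : Cr D fun a x => (f a x)⁻¹ :=
  ⟨Lo.inv h h0, by simpa only [inv_neg] using Lo.inv h.neg fun a x d => neg_ne_zero.2 (h0 a x d)⟩

theorem Cr.form (hD : EO D) (c : ℤ × ℤ × ℤ × ℤ) : Cr D fun _ x => lf c x :=
  ⟨(hD.comp (by fun_prop)).and (EO.half.comp (f := fun w : α × QC => (c, w.2)) (by fun_prop)),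
    ((hD.comp (f := Prod.fst) (by fun_prop)).and (EO.half.comp (f := fun w : α × QC => (-c, w.2))
      (by fun_prop))).of_iff fun w x => and_congr_right fun _ => by
        rw [show lf (-c) x = -lf c x by simp [lf]; ring]⟩

open Filter Topology in
theorem Lo.lim {s e : α × ℕ → CX → ℝ} (hs : Cr (fun w => D w.1) s) (he : Cr (fun w => D w.1) e)
    (hb : ∀ a x n, D a x → |f a x - s (a, n) x| ≤ e (a, n) x)
    (ht : ∀ a x, D a x → Tendsto (fun n => e (a, n) x) atTop (𝓝 0)) : Lo D f := by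
  refine (EO.ex (S := fun (w : α × QC) (n : ℕ) x => D w.1 x ∧ val w.2 < s (w.1, n) x - e (w.1, n) x)
    ((hs.sub he).1.app (s := fun w : (α × QC) × ℕ => (w.1.1, w.2)) (by fun_prop)
      (by fun_prop))).of_iff fun w x => ⟨fun ⟨n, d, t⟩ => ⟨d, ?_⟩, fun ⟨d, t⟩ => ?_⟩
  · linarith [(abs_le.1 (hb _ x n d)).1]
  · obtain ⟨n, hn⟩ := ((ht _ x d).eventually (gt_mem_nhds (half_pos (sub_pos.2 t)))).exists
    exact ⟨n, d, by linarith [(abs_le.1 (hb _ x n d)).2]⟩

open Filter Topology in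
theorem Cr.lim {s e : α × ℕ → CX → ℝ} (hs : Cr (fun w => D w.1) s) (he : Cr (fun w => D w.1) e)
    (hb : ∀ a x n, D a x → |f a x - s (a, n) x| ≤ e (a, n) x)
    (ht : ∀ a x, D a x → Tendsto (fun n => e (a, n) x) atTop (𝓝 0)) : Cr D f :=
  ⟨Lo.lim hs he hb ht, Lo.lim hs.neg he (fun a x n d => by
    rw [neg_sub_neg, abs_sub_comm]; exact hb a x n d) ht⟩

theorem Cr.glue {E : α → β → CX → Prop} (h : Cr (fun w : α × β => E w.1 w.2) fun w => f w.1) :
    Cr (fun a x => ∃ b, E a b x) f := by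
  have k : ∀ {f : α → CX → ℝ}, Lo (fun w : α × β => E w.1 w.2) (fun w => f w.1) →
      Lo (fun a x => ∃ b, E a b x) f := fun {f} h =>
    (EO.ex (S := fun (w : α × QC) (b : β) x => E w.1 b x ∧ val w.2 < f w.1 x)
      (h.app (s := fun w : (α × QC) × β => (w.1.1, w.2)) (by fun_prop) (by fun_prop))).of_iff
      fun w x => exists_and_right
  exact ⟨k h.1, k h.2⟩

end real

/-! ### Complex functions -/

/-- Computable complex functions on the domain `D`. -/
def Cc (D : α → CX → Prop) (f : α → CX → ℂ) : Prop :=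
  Cr D (fun a x => (f a x).re) ∧ Cr D fun a x => (f a x).im

/-- Computable families of real numbers. -/
abbrev CR (f : α → ℝ) : Prop := Cr (fun _ _ => True) fun a _ => f a

/-- Computable families of complex numbers. -/
abbrev CC (f : α → ℂ) : Prop := Cc (fun _ _ => True) fun a _ => f a

section complex

variable {f g : α → CX → ℂ}

theorem Cc.dom (h : Cc D f) : EO D := h.1.dom

theorem Cc.congr (h : Cc D f) (hD : EO D') (e : ∀ a x, D' a x → D a x ∧ f a x = g a x) :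
    Cc D' g :=
  ⟨h.1.congr hD fun a x t => ⟨(e a x t).1, by rw [(e a x t).2]⟩,
    h.2.congr hD fun a x t => ⟨(e a x t).1, by rw [(e a x t).2]⟩⟩

theorem Cc.of_eq (h : Cc D f) (e : ∀ a x, f a x = g a x) : Cc D g :=
  h.congr h.dom fun a x t => ⟨t, e a x⟩

theorem Cc.mono (h : Cc D f) (hD : EO D') (e : ∀ a x, D' a x → D a x) : Cc D' f :=
  h.congr hD fun a x t => ⟨e a x t, rfl⟩

theorem Cc.comp {s : β → α} (h : Cc D f) (hs : PR s) :
    Cc (fun b => D (s b)) fun b => f (s b) := ⟨h.1.comp hs, h.2.comp hs⟩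

theorem Cr.ofReal {r : α → CX → ℝ} (h : Cr D r) : Cc D fun a x => r a x :=
  ⟨h, by simpa using Cr.pq h.dom PQ.zero⟩

theorem Cc.pq {r : α → ℝ} (hD : EO D) (h : PQ r) : Cc D fun a _ => r a := (Cr.pq hD h).ofReal

theorem Cc.int {r : α → ℤ} (hD : EO D) (h : PR r) : Cc D fun a _ => r a := by
  simpa using Cc.pq hD (PQ.int h)

theorem Cc.nat {r : α → ℕ} (hD : EO D) (h : PR r) : Cc D fun a _ => r a := by
  simpa using Cc.pq hD (PQ.nat h)

theorem Cc.rat (hD : EO D) (r : ℚ) : Cc D fun _ _ => r := by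
  simpa using Cc.pq hD (PQ.rat r)

theorem Cc.I (hD : EO D) : Cc D fun _ _ => Complex.I :=
  ⟨by simpa using Cr.pq hD PQ.zero, by simpa using Cr.pq hD PQ.one⟩

theorem Cc.fst (hD : EO D) : Cc D fun _ x => x.1 :=
  ⟨by simpa [lf] using Cr.form hD (1, 0, 0, 0), by simpa [lf] using Cr.form hD (0, 1, 0, 0)⟩

theorem Cc.snd (hD : EO D) : Cc D fun _ x => x.2 :=
  ⟨by simpa [lf] using Cr.form hD (0, 0, 1, 0), by simpa [lf] using Cr.form hD (0, 0, 0, 1)⟩

theorem Cc.neg (h : Cc D f) : Cc D fun a x => -f a x := ⟨h.1.neg, h.2.neg⟩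

theorem Cc.add (h : Cc D f) (h' : Cc D g) : Cc D fun a x => f a x + g a x :=
  ⟨h.1.add h'.1, h.2.add h'.2⟩

theorem Cc.sub (h : Cc D f) (h' : Cc D g) : Cc D fun a x => f a x - g a x :=
  ⟨h.1.sub h'.1, h.2.sub h'.2⟩

theorem Cc.mul (h : Cc D f) (h' : Cc D g) : Cc D fun a x => f a x * g a x :=
  ⟨(h.1.mul h'.1).sub (h.2.mul h'.2), (h.1.mul h'.2).add (h.2.mul h'.1)⟩

theorem Cc.normSq (h : Cc D f) : Cr D fun a x => Complex.normSq (f a x) :=
  (h.1.mul h.1).add (h.2.mul h.2)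

theorem Cc.inv (h : Cc D f) (h0 : ∀ a x, D a x → f a x ≠ 0) : Cc D fun a x => (f a x)⁻¹ :=
  have k := h.normSq.inv fun a x d => (Complex.normSq_pos.2 (h0 a x d)).ne'
  ⟨(h.1.mul k).of_eq fun _ _ => (Complex.inv_re _).symm,
    (h.2.neg.mul k).of_eq fun _ _ => (Complex.inv_im _).symm⟩

theorem Cc.div (h : Cc D f) (h' : Cc D g) (h0 : ∀ a x, D a x → g a x ≠ 0) :
    Cc D fun a x => f a x / g a x := h.mul (h'.inv h0)

theorem Cc.pow (h : Cc D f) (n : ℕ) : Cc D fun a x => f a x ^ n := by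
  induction n with
  | zero => simpa using Cc.rat h.dom 1
  | succ n ih => simpa only [pow_succ] using ih.mul h

theorem Cc.ne (h : Cc D f) (h' : Cc D g) : EO fun a x => D a x ∧ f a x ≠ g a x := by
  simpa [Complex.normSq_pos, sub_ne_zero] using (Cr.pq h.dom PQ.zero).lt (h.sub h').normSq

theorem Cc.glue {E : α → β → CX → Prop} (h : Cc (fun w : α × β => E w.1 w.2) fun w => f w.1) :
    Cc (fun a x => ∃ b, E a b x) f := ⟨h.1.glue, h.2.glue⟩

theorem Cc.ite {p : α → Prop} [DecidablePred p] (hp : PP p) (h : Cc D f) (h' : Cc D g) :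
    Cc D fun a x => if p a then f a x else g a x := by
  have k : PR fun a => if p a then (1 : ℤ) else 0 := PR.ite hp (PR.const _) (PR.const _)
  refine (((Cc.int h.dom k).mul (h.sub h')).add h').of_eq fun a x => ?_
  split_ifs <;> simp

open Filter Topology in
theorem Cc.lim {s : α × ℕ → CX → ℂ} {e : α × ℕ → CX → ℝ} (hs : Cc (fun w => D w.1) s)
    (he : Cr (fun w => D w.1) e) (hb : ∀ a x n, D a x → ‖f a x - s (a, n) x‖ ≤ e (a, n) x)
    (ht : ∀ a x, D a x → Tendsto (fun n => e (a, n) x) atTop (𝓝 0)) : Cc D f :=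
  ⟨Cr.lim hs.1 he (fun a x n d => (Complex.abs_re_le_norm _).trans (hb a x n d)) ht,
    Cr.lim hs.2 he (fun a x n d => (Complex.abs_im_le_norm _).trans (hb a x n d)) ht⟩

theorem Cc.ub (h : Cc D f) (h' : Cc D g) :
    EO fun (w : α × List BB) x => D w.1 x ∧ Ub w.2 (f w.1 x, g w.1 x) := by
  have k : ∀ {u : α → CX → ℝ} {c : BB → ℤ}, Cr D u → PR c →
      Cr (fun w : α × BB => D w.1) fun w x => c w.2 * u w.1 x := fun hu hc =>
    (Cr.pq (h.dom.comp (by fun_prop)) (by fun_prop)).mul (hu.comp (by fun_prop))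
  have t := (((k (c := fun b => b.1.1) h.1 (by fun_prop)).add
    (k (c := fun b => b.1.2.1) h.2 (by fun_prop))).add
    (k (c := fun b => b.1.2.2.1) h'.1 (by fun_prop))).add
    (k (c := fun b => b.1.2.2.2) h'.2 (by fun_prop))
  exact ((h.dom.comp (f := Prod.fst) (by fun_prop)).and (EO.all (L := fun w : α × List BB => w.2)
    (S := fun w b x => D w.1 x ∧ val b.2 < lf b.1 (f w.1 x, g w.1 x)) (by fun_prop)
    (t.1.app (s := fun w : (α × List BB) × BB => (w.1.1, w.2)) (by fun_prop)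
      (by fun_prop)))).of_iff fun w x => and_congr_right fun d => by simp [Ub, d]

theorem Cc.of_ub {u : α → CX → CX} (h : EO fun (w : α × List BB) x => D w.1 x ∧ Ub w.2 (u w.1 x)) :
    Cc D (fun a x => (u a x).1) ∧ Cc D fun a x => (u a x).2 := by
  have k : ∀ c, Lo D fun a x => lf c (u a x) := fun c =>
    (h.comp (f := fun w : α × QC => (w.1, [(c, w.2)])) (PR.pair (by fun_prop)
      (Primrec.list_cons.comp (show PR fun w : α × QC => (c, w.2) by fun_prop)
        (Primrec.const [])))).of_iff fun w x => by simp [Ub]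
  exact ⟨⟨⟨by simpa [lf] using k (1, 0, 0, 0), by simpa [lf] using k (-1, 0, 0, 0)⟩,
    by simpa [lf] using k (0, 1, 0, 0), by simpa [lf] using k (0, -1, 0, 0)⟩,
    ⟨by simpa [lf] using k (0, 0, 1, 0), by simpa [lf] using k (0, 0, -1, 0)⟩,
    by simpa [lf] using k (0, 0, 0, 1), by simpa [lf] using k (0, 0, 0, -1)⟩

/-- Iteration of a computable step. -/
theorem chain {s : α → ℕ → CX} {E : α × ℕ → CX → Prop} {u v : α × ℕ → CX → ℂ}
    (h1 : CC fun a => (s a 0).1) (h2 : CC fun a => (s a 0).2) (hu : Cc E u) (hv : Cc E v)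
    (hs : ∀ a n, s a (n + 1) = (u (a, n) (s a n), v (a, n) (s a n))) :
    Cc (fun (w : α × ℕ) _ => ∀ i < w.2, E (w.1, i) (s w.1 i)) (fun w _ => (s w.1 w.2).1) ∧
      Cc (fun (w : α × ℕ) _ => ∀ i < w.2, E (w.1, i) (s w.1 i)) fun w _ => (s w.1 w.2).2 := by
  obtain ⟨T, hT, -, e⟩ := hu.ub hv
  refine Cc.of_ub (u := fun (w : α × ℕ) _ => s w.1 w.2) (EO.const (RE.chain
    (P := fun a n l => (∀ i < n, E (a, i) (s a i)) ∧ Ub l (s a n))
    (T := fun a n l l' => T ((a, n), l') l) (((h1.ub h2).re).of_iff fun w => by simp)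
    (hT.app2 (by fun_prop) (by fun_prop)) fun a n l => ?_))
  have := e ((a, n), l) (s a n)
  simp only [and_assoc, exists_and_left, ← this, hs, Nat.forall_lt_succ_right]

end complex

section closed

variable {f : α × ℕ → ℂ}

theorem CC.sum (h : CC f) : CC fun w : α × ℕ => ∑ i ∈ Finset.range w.2, f (w.1, i) := by
  simpa using (chain (s := fun a n => (∑ i ∈ Finset.range n, f (a, i), 0))
    (by simpa using Cc.rat EO.true 0) (by simpa using Cc.rat EO.true 0)
    ((Cc.fst EO.true).add h) (Cc.snd EO.true) fun a n => by rw [Finset.sum_range_succ]).1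

theorem CC.prod (h : CC f) : CC fun w : α × ℕ => ∏ i ∈ Finset.range w.2, f (w.1, i) := by
  simpa using (chain (s := fun a n => (∏ i ∈ Finset.range n, f (a, i), 0))
    (by simpa using Cc.rat EO.true 1) (by simpa using Cc.rat EO.true 0)
    ((Cc.fst EO.true).mul h) (Cc.snd EO.true) fun a n => by rw [Finset.prod_range_succ]).1

theorem CC.npow {g : α → ℂ} {n : α → ℕ} (h : CC g) (hn : PR n) : CC fun a => g a ^ n a := by
  simpa using (CC.prod (f := fun w => g w.1) (h.comp (by fun_prop))).comp (PR.id.pair hn)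

/-- Series that are dominated by a series with a computable sum. -/
theorem CC.hasSum {b : α × ℕ → ℝ} {F : α → ℂ} {B : α → ℝ} (h : CC f) (hb : CR b) (hB : CR B)
    (le : ∀ w, ‖f w‖ ≤ b w) (s : ∀ a, HasSum (fun n => f (a, n)) (F a))
    (t : ∀ a, HasSum (fun n => b (a, n)) (B a)) : CC F := by
  refine Cc.lim (e := fun w _ => B w.1 - ∑ i ∈ Finset.range w.2, b (w.1, i)) h.sum
    ((hB.comp (by fun_prop)).sub (by simpa using (CC.sum hb.ofReal).1)) (fun a _ n _ => ?_)
    fun a _ _ => by simpa using (t a).tendsto_sum_nat.const_sub (B a)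
  exact ((hasSum_nat_add_iff' n).2 (s a)).norm_le_of_bounded ((hasSum_nat_add_iff' n).2 (t a))
    fun _ => le _

theorem CC.ne_re {g g' : α → ℂ} (h : CC g) (h' : CC g') : RE fun a => g a ≠ g' a :=
  ((Cc.ne h h').of_iff fun _ _ => by simp).re

end closed

end Pool.Agent.Lib.MP_d6ddbd_nt.GC
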