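import Pool.Agent.Lib.MP_d6ddbd_nt.GC.Stmt
import Pool.Agent.Lib.MP_d6ddbd_nt.KA.Fin

/-!
From the certificate to the algorithm.
-/

set_option autoImplicit false

open Filter Topology
open Pool.Agent.Lib.MP_d6ddbd_nt.K11
open Pool.Agent.Lib.MP_d6ddbd_nt.KA (Blk wA)
open Pool.Agent.Sand.Check

namespace Pool.Agent.Lib.MP_d6ddbd_nt.GC

variable {α : Type} [Primcodable α]

theorem re_of {P : α → Prop} (h : REPred P) : RE P := by
  obtain ⟨c, hc⟩ := Nat.Partrec.Code.exists_code.1 h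
  refine ⟨ℕ, inferInstance, fun a k => c.evaln k (Encodable.encode a) ≠ none,
    PP.ne (Nat.Partrec.Code.primrec_evaln.comp ((Primrec.snd.pair (.const c)).pair
      (Primrec.encode.comp .fst))) (PR.const _), fun a => ?_⟩
  have : (c.eval (Encodable.encode a)).Dom ↔ P a := by simp [hc, Part.assert]
  simp only [← this, Part.dom_iff_mem, Nat.Partrec.Code.evaln_complete, Option.ne_none_iff_exists']
  exact exists_comm

theorem merge {P Q : α → Prop} (hP : RE P) (hQ : RE Q) : ∃ A : α →. Bool, Partrec A ∧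
    ∀ a, (∀ b ∈ A a, b = true ∧ P a ∨ b = false ∧ Q a) ∧ (P a ∨ Q a → (A a).Dom) := by
  obtain ⟨A, h, e⟩ := Partrec.merge' (hP.toREPred.map (Computable.const true).to₂)
    (hQ.toREPred.map (Computable.const false).to₂)
  refine ⟨A, h, fun a => ⟨fun b hb => ((e a).1 b hb).imp ?_ ?_, fun k => (e a).2.2 ?_⟩⟩
  · simp +contextual [Part.mem_assert_iff, eq_comm]
  · simp +contextual [Part.mem_assert_iff, eq_comm]
  · simpa [Part.assert] using k

theorem fin_box (X : ℕ) (B : ℤ → Prop) : {d : ℤ | |d| ≤ X ∧ B d}.Finite :=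
  (Set.finite_Icc (-X : ℤ) X).subset fun _ h => abs_le.1 h.1

theorem ex_sq {d : ℤ} (h : d ≠ 0) : ∃ e m : ℤ, m ^ 2 * e = d ∧ Squarefree e := by
  obtain ⟨a, b, e, s⟩ := Nat.sq_mul_squarefree d.natAbs
  have e' : (b : ℤ) ^ 2 * a = d.natAbs := by exact_mod_cast e
  rcases lt_or_gt_of_ne h with t | t
  · exact ⟨-a, b, by rw [mul_neg, e']; omega, Int.squarefree_natAbs.1 (by simpa using s)⟩
  · exact ⟨a, b, by rw [e']; omega, Int.squarefree_natAbs.1 (by simpa using s)⟩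

theorem den_int {B : ℤ → Prop} (h : Tendsto (fun X : ℕ =>
      (({d : ℤ | |d| ≤ X ∧ Squarefree d ∧ ¬ B d}.ncard : ℕ) : ℝ) / X) atTop (𝓝 0)) :
    Tendsto (fun X : ℕ => (({d : ℤ | |d| ≤ X ∧ ¬ ∃ e m : ℤ, m ≠ 0 ∧ d = e * m ^ 2 ∧ B e}.ncard :
      ℕ) : ℝ) / X) atTop (𝓝 0) := by
  classical
  set f : ℕ → ℕ := fun X => {d : ℤ | |d| ≤ X ∧ Squarefree d ∧ ¬ B d}.ncard with hf
  have mono : ∀ X Y, X ≤ Y → f X ≤ f Y := fun X Y e => Set.ncard_le_ncard
    (fun d t => ⟨t.1.trans (by exact_mod_cast e), t.2⟩) (fin_box _ _)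
  have le : ∀ X, f X ≤ 2 * X := fun X => by
    have : f X ≤ ((Finset.Icc (-X : ℤ) X).erase 0 : Set ℤ).ncard := Set.ncard_le_ncard
      (fun d t => by simpa using ⟨abs_le.1 t.1, t.2.1.ne_zero⟩) (Finset.finite_toSet _)
    rw [Set.ncard_coe_finset, Finset.card_erase_of_mem (by simp), Int.card_Icc] at this
    omega
  have sm : Summable fun m : ℕ => 2 / ((m : ℝ) + 1) ^ 2 := by
    simpa [div_eq_mul_inv] using ((summable_nat_add_iff 1).2
      (Real.summable_nat_pow_inv.2 one_lt_two)).mul_left 2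
  have bd : ∀ X m : ℕ, ‖(f (X / (m + 1) ^ 2) : ℝ) / X‖ ≤ 2 / ((m : ℝ) + 1) ^ 2 := fun X m => by
    rw [Real.norm_of_nonneg (by positivity)]
    refine div_le_of_le_mul₀ (by positivity) (by positivity) ?_
    have h1 : (f (X / (m + 1) ^ 2) : ℝ) ≤ 2 * (X / (m + 1) ^ 2 : ℕ) := by exact_mod_cast le _
    have h2 : ((X / (m + 1) ^ 2 : ℕ) : ℝ) ≤ X / (m + 1) ^ 2 := by exact_mod_cast Nat.cast_div_le
    calc _ ≤ 2 * (X / ((m : ℝ) + 1) ^ 2) := by linarith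
      _ = _ := by ring
  have t := tendsto_tsum_of_dominated_convergence (f := fun X m : ℕ =>
    (f (X / (m + 1) ^ 2) : ℝ) / X) (g := fun _ => 0) sm (fun m => squeeze_zero
      (fun X => by positivity) (fun X => by gcongr; exact mono _ _ (Nat.div_le_self _ _)) h)
    (Eventually.of_forall bd)
  have t' := (tendsto_const_div_atTop_nhds_zero_nat (1 : ℝ)).add t
  rw [tsum_zero, add_zero] at t'
  refine squeeze_zero (fun X => by positivity) (fun X => ?_) t'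
  have s : {d : ℤ | |d| ≤ X ∧ ¬ ∃ e m : ℤ, m ≠ 0 ∧ d = e * m ^ 2 ∧ B e}.ncard ≤
      1 + ∑ m ∈ Finset.range X, f (X / (m + 1) ^ 2) := by
    refine (Set.ncard_le_ncard (t := (insert 0 ((Finset.range X).biUnion fun m =>
      (fin_box (X / (m + 1) ^ 2) fun d => Squarefree d ∧ ¬ B d).toFinset.image
        (· * ((m : ℤ) + 1) ^ 2)) : Finset ℤ)) ?_ (Finset.finite_toSet _)).trans ?_
    · rintro d ⟨h1, h2⟩
      rcases eq_or_ne d 0 with rfl | d0
      · simp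
      obtain ⟨e, m, rfl, he⟩ := ex_sq d0
      have m0 : m ≠ 0 := by rintro rfl; simp at d0
      obtain ⟨n, hn⟩ : ∃ n : ℕ, m.natAbs = n + 1 := ⟨m.natAbs - 1, by omega⟩
      have e1 : m ^ 2 = ((n : ℤ) + 1) ^ 2 := by
        rw [← Int.natAbs_sq, hn]; push_cast; rfl
      have e0 : 1 ≤ |e| := Int.one_le_abs he.ne_zero
      rw [abs_mul, abs_of_nonneg (sq_nonneg m), e1] at h1
      simp only [Finset.coe_insert, Finset.coe_biUnion, Set.mem_insert_iff, Set.mem_iUnion,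
        Finset.mem_coe, Finset.mem_image, Set.Finite.mem_toFinset, Finset.mem_range]
      refine Or.inr ⟨n, by nlinarith, e, ⟨?_, he, fun b => h2 ⟨e, m, m0, mul_comm _ _, b⟩⟩, by
        rw [e1, mul_comm]⟩
      push_cast
      exact Int.le_ediv_of_mul_le (by positivity) (by rwa [mul_comm])
    · rw [Set.ncard_coe_finset, add_comm]
      refine (Finset.card_insert_le _ _).trans (Nat.succ_le_succ (Finset.card_biUnion_le.trans
        (Finset.sum_le_sum fun m _ => Finset.card_image_le.trans_eq ?_)))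
      exact (Set.ncard_eq_toFinset_card _ _).symm
  calc _ ≤ ((1 + ∑ m ∈ Finset.range X, f (X / (m + 1) ^ 2) : ℕ) : ℝ) / X := by gcongr
    _ = 1 / X + ∑ m ∈ Finset.range X, (f (X / (m + 1) ^ 2) : ℝ) / X := by
      push_cast
      rw [add_div, Finset.sum_div]
    _ ≤ _ := by
      gcongr
      exact (Summable.of_norm_bounded sm (bd X)).sum_le_tsum _ fun _ _ => by positivity

theorem tw_sq {e m : ℤ} (hm : m ≠ 0) : (Tw (e * m ^ 2)).Infinite ↔ (Tw e).Infinite := by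
  have m0 : (m : ℚ) ≠ 0 := by exact_mod_cast hm
  have : Tw e = (fun P : ℚ × ℚ => (P.1, m * P.2)) '' Tw (e * m ^ 2) := by
    ext ⟨x, y⟩
    refine ⟨fun h => ⟨(x, y / m), Eq.trans ?_ h, Prod.ext rfl (by field_simp)⟩, ?_⟩
    · push_cast
      field_simp
    · rintro ⟨⟨a, b⟩, h, ⟨⟩⟩
      refine Eq.trans ?_ h
      push_cast
      ring
  rw [this, Set.infinite_image_iff fun P _ Q _ h => ?_]
  exact Prod.ext (Prod.mk.inj h).1 (mul_left_cancel₀ m0 (Prod.mk.inj h).2)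

theorem wA_pp : PP fun d : ℤ => wA d = -1 := by
  have m : ∀ a : ℕ, PrimrecPred fun x : ℤ => x.natAbs % 11 = a := fun a =>
    Primrec.eq.comp (Primrec.nat_mod.comp G.Cp.absP (Primrec.const 11)) (Primrec.const a)
  exact (((m 0).and G.Cp.posP).or ((m 2).or ((m 6).or ((m 7).or ((m 8).or (m 10)))))).of_eq
    fun d => by
      rw [KA.wA_eq, ← Int.natCast_natAbs, KA.jac11]
      omega

theorem fin_of (h : CertStmt) : ∃ A : ℤ →. Bool, Partrec A ∧
    (∀ d : ℤ, ∀ b ∈ A d, ((Tw d).Infinite ↔ b = true)) ∧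
    (∀ d : ℤ, Squarefree d → ¬ Blk d → ∀ k : ℕ,
      (MP_02f36d_nt.X11.Sel (MP_02f36d_nt.X11.Wd d) (2 ^ k)).encard < 4 ^ k →
        ∃ b ∈ A d, (b = true ↔ (11 ∣ d ∧ 0 < d) ∨ jacobiSym |d| 11 = -1)) ∧
    Tendsto (fun X : ℕ => (({d : ℤ | |d| ≤ X ∧ ¬ (A d).Dom}.ncard : ℕ) : ℝ) / X) atTop (𝓝 0) := by
  obtain ⟨C, h1, h2, h3⟩ := h
  have k : ∀ {p : ℤ → Prop}, PP p →
      RE fun d : ℤ => ∃ w : ℤ × ℤ, (w.2 ≠ 0 ∧ d = w.1 * (w.2 * w.2) ∧ p w.1) ∧ C w.1 := fun hp =>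
    RE.ex ((PP.re (PP.and (by fun_prop) (PP.and (by fun_prop) (hp.comp (by fun_prop))))).and
      ((re_of h1).comp (by fun_prop)))
  obtain ⟨A, a1, a2⟩ := merge (k wA_pp) (k wA_pp.not)
  have s : ∀ d : ℤ, ∀ b ∈ A d, ((Tw d).Infinite ↔ b = true) := fun d b hb => by
    rcases (a2 d).1 b hb with ⟨rfl, w, ⟨m, rfl, t⟩, c⟩ | ⟨rfl, w, ⟨m, rfl, t⟩, c⟩ <;>
      rw [← sq, tw_sq m]
    · simpa using (h2 _ c).2.2.1 t
    · simpa using (h2 _ c).2.1 t
  have dm : ∀ d : ℤ, (∃ e m : ℤ, m ≠ 0 ∧ d = e * m ^ 2 ∧ C e) → (A d).Dom :=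
    fun d ⟨e, m, m0, t, c⟩ => (a2 d).2 ((em (wA e = -1)).imp
      (fun z => ⟨(e, m), ⟨m0, by rw [t, sq], z⟩, c⟩) fun z => ⟨(e, m), ⟨m0, by rw [t, sq], z⟩, c⟩)
  refine ⟨A, a1, s, fun d sd nb k hk => ?_, squeeze_zero (fun X => by positivity) (fun X => ?_)
    (den_int (GQ.den_all h3))⟩
  · have c := h3 d sd nb (MP_02f36d_nt.X11.bd_of sd.ne_zero hk)
    obtain ⟨b, hb⟩ := Part.dom_iff_mem.1 (dm d ⟨d, 1, one_ne_zero, by simp, c⟩)
    refine ⟨b, hb, ?_⟩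
    rw [← s d b hb, ← KA.wA_eq]
    exact ⟨fun i => by_contra fun n => i ((h2 d c).2.1 n), (h2 d c).2.2.1⟩
  · gcongr
    exacts [fin_box _ _, dm _]

end Pool.Agent.Lib.MP_d6ddbd_nt.GC
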