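import Pool.Agent.Lib.MP_d6ddbd_nt.GC.Stmt
import Pool.Agent.Lib.MP_d6ddbd_nt.K11.Pic

/-!
Reduction theory for the class groups of orders.
-/

set_option autoImplicit false

open Pointwise
open Pool.Agent.Lib.MP_9177b7_ag.CM
open Pool.Agent.Lib.MP_d6ddbd_nt.K11

noncomputable section

namespace Pool.Agent.Lib.MP_d6ddbd_nt.GC

variable {q : ℕ} [hq : Fact (q % 4 = 3)] {c u : ℕ} {v : ℤ}

theorem Red.sq (c : ℕ) (v : ℤ) : ((c : ℂ) * om q - v) ^ 2 =
    (c - 2 * v) * (c * om q - v) - nc q c v := by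
  have := com_sq hq.out c
  rw [nc]
  push_cast at this ⊢
  linear_combination this

theorem Red.ivt (hc : c ≠ 0) (hu : 0 < u) : Ivt q c (La q c u v) ↔ Prim q c u v := by
  have w := Red.sq (q := q) c v
  have u0 : (u : ℂ) ≠ 0 := by exact_mod_cast hu.ne'
  constructor
  · intro h
    obtain ⟨a, b, e⟩ := mem_sp.1 (ord_mul_eq_iff.1 h.1 (mem_smul_iff.2 ⟨_, right_mem_sp _ _, rfl⟩))
    obtain ⟨e1, e2⟩ := int_of_im (Pic.cim (q := q) hc)
      (a := a * u + nc q c v - (b - c + v) * v) (b := b - c + v) (by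
        push_cast; linear_combination e + w)
    have e3 : nc q c v = u * -a := by rw [e2] at e1; linarith
    refine ⟨⟨_, e3⟩, ?_⟩
    rw [e3, Int.mul_ediv_cancel_left _ (by omega)]
    generalize hg : Int.gcd (Int.gcd u (c - 2 * v)) (-a) = g
    obtain ⟨x, hx⟩ : (g : ℤ) ∣ u := hg ▸ (Int.gcd_dvd_left ..).trans (Int.gcd_dvd_left ..)
    obtain ⟨y, hy⟩ : (g : ℤ) ∣ c - 2 * v := hg ▸ (Int.gcd_dvd_left ..).trans (Int.gcd_dvd_right ..)
    obtain ⟨z, hz⟩ : (g : ℤ) ∣ -a := hg ▸ Int.gcd_dvd_right ..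
    have g0 : (g : ℂ) ≠ 0 := by
      have : g ≠ 0 := by rintro rfl; omega
      exact_mod_cast this
    have hx' : (u : ℂ) = g * x := by exact_mod_cast hx
    have hy' : (c : ℂ) - 2 * v = g * y := by exact_mod_cast hy
    have hz' : (nc q c v : ℂ) = u * (g * z) := by exact_mod_cast hz ▸ e3
    obtain ⟨m, n, k⟩ := mem_sp.1 ((Pic.le_iff h ((c * om q - v) / g)).1 (by
      rw [La, smul_sp, sp_le]
      refine ⟨mem_sp.2 ⟨0, x, ?_⟩, mem_sp.2 ⟨-z, y, ?_⟩⟩ <;> field_simp <;> push_cast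
      · linear_combination -(c * om q - v) * hx'
      · linear_combination -w - (c * om q - v) * hy' + hz'))
    have := (int_of_im (Pic.cim (q := q) hc) (a := g * m + v) (b := g * n - 1) (by
      field_simp at k
      push_cast
      linear_combination k)).2
    exact_mod_cast Int.eq_one_of_mul_eq_one_right (by positivity) (sub_eq_zero.1 this)
  · rintro ⟨⟨k, e⟩, h⟩
    rw [e, Int.mul_ediv_cancel_left _ (by omega)] at h
    have e' : (nc q c v : ℂ) = u * k := by exact_mod_cast e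
    have h1 := Int.gcd_eq_gcd_ab (Int.gcd u (c - 2 * v)) k
    rw [h, Int.gcd_eq_gcd_ab u] at h1
    generalize Int.gcdA (u : ℤ) (c - 2 * v) = a at h1
    generalize Int.gcdB (u : ℤ) (c - 2 * v) = b at h1
    generalize Int.gcdA _ k = a' at h1
    generalize Int.gcdB _ k = b' at h1
    have h2 : (1 : ℂ) = (u * a + (c - 2 * v) * b) * a' + k * b' := by exact_mod_cast h1
    refine ⟨ord_mul_eq_iff.2 ?_, sp 1 ((c - 2 * v - (c * om q - v)) / u), le_antisymm
      (Submodule.mul_le.2 fun x hx y hy => ?_) ?_⟩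
    · rw [La, smul_sp, sp_le]
      exact ⟨mem_sp.2 ⟨v, u, by push_cast; ring⟩,
        mem_sp.2 ⟨-k, c - v, by push_cast; linear_combination e' - w⟩⟩
    · obtain ⟨m, n, rfl⟩ := mem_sp.1 hx
      obtain ⟨m', n', rfl⟩ := mem_sp.1 hy
      refine mem_sp.2 ⟨m * m' * u + m * n' * (c - v) - n * m' * v + n * n' * k,
        n * m' - m * n', ?_⟩
      field_simp
      push_cast
      linear_combination n * n' * (w - e')
    · have p := fun {x y : ℂ} (hx : x ∈ La q c u v)
        (hy : y ∈ sp 1 ((c - 2 * v - (c * om q - v)) / u)) (m : ℤ) =>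
        Lat.int_mul_mem (Submodule.mul_mem_mul hx hy) m
      have l := left_mem_sp (u : ℂ) (c * om q - v)
      have r := right_mem_sp (u : ℂ) (c * om q - v)
      have o : (1 : ℂ) ∈ La q c u v * sp 1 ((c - 2 * v - (c * om q - v)) / u) := by
        convert add_mem (add_mem (p l (left_mem_sp _ _) (a * a')) (p l (right_mem_sp _ _) (b * a')))
          (add_mem (p r (left_mem_sp _ _) (b * a')) (p r (right_mem_sp _ _) b')) using 1
        field_simp
        push_cast
        linear_combination u * h2 + b' * (w - e')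
      refine sp_le.2 ⟨o, ?_⟩
      convert add_mem (p r (left_mem_sp _ _) 1) (Lat.int_mul_mem o v) using 1
      simp

theorem red_thm : RedStmt := by
  intro q hq hp hb c hc
  refine ⟨fun u v hu => Red.ivt hc hu, fun x => ?_⟩
  obtain ⟨τ, μ, h0, hτ, e⟩ := hyp.exists_fd (Pic.isLat hc (cl_out x).inv)
  have h1 : Cl x (sp τ 1) := by
    have := (cl_out x).smul (inv_ne_zero h0)
    rwa [e, smul_smul, inv_mul_cancel₀ h0, one_smul] at this
  obtain ⟨A, v, k⟩ := mem_sp.1 (ord_mul_eq_iff.1 h1.inv.1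
    (mem_smul_iff.2 ⟨_, right_mem_sp _ _, rfl⟩))
  have k1 : A * τ.im = c * (Real.sqrt q / 2) := by simpa [om] using congrArg Complex.im k
  have k2 : A * τ.re + v = c * (1 / 2) := by simpa [om] using congrArg Complex.re k
  have c1 : (1 : ℝ) ≤ c := by exact_mod_cast Nat.pos_of_ne_zero hc
  have q1 : (1 : ℝ) ≤ q := by exact_mod_cast hp.one_le
  have s := Real.sq_sqrt (show (0 : ℝ) ≤ q by positivity)
  have A0 : (0 : ℝ) < A := (mul_pos_iff_of_pos_right τ.im_pos).1 (k1 ▸ by positivity)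
  have A1 : (A : ℝ) ≤ c * q := by
    have t := ModularGroup.three_le_four_mul_im_sq_of_mem_fd hτ
    have t' : (A : ℝ) ^ 2 * (4 * τ.im ^ 2) = c ^ 2 * q := by
      linear_combination 4 * (A * τ.im + c * (Real.sqrt q / 2)) * k1 + c ^ 2 * s
    refine abs_le_of_sq_le_sq' ?_ (by positivity) |>.2
    nlinarith [mul_le_mul_of_nonneg_left t (sq_nonneg (A : ℝ)),
      mul_nonneg (mul_nonneg (sq_nonneg (c : ℝ)) (zero_le_one.trans q1)) (sub_nonneg.2 q1)]
  lift A to ℕ using (by exact_mod_cast A0.le)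
  refine ⟨A, v, by exact_mod_cast A0, by exact_mod_cast A1, ?_, ?_⟩
  · have := abs_le.1 hτ.2
    have : |(v : ℝ)| ≤ c * q := abs_le.2 ⟨by nlinarith, by nlinarith⟩
    exact_mod_cast this
  · convert h1.smul (μ := A) (by exact_mod_cast A0.ne') using 1
    rw [smul_sp, sp_comm, La, mul_one]
    congr 1
    push_cast at k
    linear_combination -k

end Pool.Agent.Lib.MP_d6ddbd_nt.GC
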