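import Pool.Agent.Lib.MP_d6ddbd_nt.GC.StN
import Pool.Agent.Lib.MP_d6ddbd_nt.X.Has

/-!
Square roots, the number `π` and the exponential function are computable.
-/

set_option autoImplicit false

open Pool.Agent.Sand.Check Filter Topology

noncomputable section

namespace Pool.Agent.Lib.MP_d6ddbd_nt.GC

variable {α : Type} [Primcodable α]

theorem cr_sqrt {m : α → ℕ} (hm : PR m) : CR fun a => Real.sqrt (m a + 1) := by
  have h1 : PQ fun w : α × QC => ((m w.1 : ℝ) + 1) :=
    (PQ.nat (f := fun w : α × QC => m w.1) (by fun_prop)).add PQ.one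
  have h2 : PQ fun w : α × QC => val w.2 := by fun_prop
  constructor
  · refine (EO.pp ((PQ.lt h2 PQ.zero).or (PQ.lt (h2.mul h2) h1))).of_iff fun w _ => ?_
    have p : (0 : ℝ) < m w.1 + 1 := by positivity
    have s := Real.sqrt_pos.2 p
    have e := Real.mul_self_sqrt p.le
    simp only [true_and]
    constructor
    · rintro (h | h)
      · linarith
      · by_contra! k
        nlinarith
    · intro h
      by_contra! k
      nlinarith [k.1, k.2]
  · refine (EO.pp ((PQ.lt h2 PQ.zero).and (PQ.lt h1 (h2.mul h2)))).of_iff fun w _ => ?_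
    have p : (0 : ℝ) < m w.1 + 1 := by positivity
    have s := Real.sqrt_pos.2 p
    have e := Real.mul_self_sqrt p.le
    simp only [true_and]
    constructor
    · rintro ⟨h, h'⟩
      by_contra! k
      nlinarith
    · intro h
      exact ⟨by linarith, by nlinarith⟩

theorem cr_half {n : α → ℕ} (hn : PR n) : CR fun a => (1 / 2 : ℝ) ^ n a := by
  have h := (CC.npow (g := fun _ : α => ((1 / 2 : ℚ) : ℂ)) (Cc.rat EO.true _) hn).1
  refine h.of_eq fun a _ => ?_
  have : (((1 / 2 : ℚ) : ℂ)) ^ n a = (((1 / 2 : ℝ) ^ n a : ℝ) : ℂ) := by push_cast; rfl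
  beta_reduce
  rw [this, Complex.ofReal_re]

theorem cc_arctan (r : ℚ) (h0 : 0 ≤ r) (h1 : r ≤ 1 / 2) :
    CC fun _ : α => (Real.arctan r : ℂ) := by
  have r0 : (0 : ℝ) ≤ r := by exact_mod_cast h0
  have r1 : (r : ℝ) ≤ 1 / 2 := by
    have : (r : ℝ) ≤ ((1 / 2 : ℚ) : ℝ) := by exact_mod_cast h1
    simpa using this
  refine CC.hasSum (f := fun w : α × ℕ => (-1) ^ w.2 * (r : ℂ) ^ (2 * w.2 + 1) / (2 * w.2 + 1 : ℕ))
    (b := fun w => (1 / 2 : ℝ) ^ w.2) (B := fun _ => 2) ?_ (cr_half (by fun_prop))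
    (by simpa using Cr.pq EO.true (PQ.rat (α := α) 2)) (fun w => ?_) (fun _ => ?_)
    fun _ => hasSum_geometric_two
  · exact ((CC.npow (by simpa using Cc.rat EO.true (-1)) (by fun_prop)).mul
      (CC.npow (Cc.rat EO.true r) (by fun_prop))).div (Cc.nat EO.true (by fun_prop))
      fun _ _ _ => Nat.cast_ne_zero.2 (by omega)
  · rw [norm_div, norm_mul, norm_pow, norm_pow, norm_neg, norm_one, one_pow, one_mul,
      Complex.norm_natCast, Complex.norm_ratCast, abs_of_nonneg r0]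
    refine (div_le_self (by positivity) (by exact_mod_cast Nat.le_add_left 1 _)).trans ?_
    exact (pow_le_pow_left₀ r0 r1 _).trans
      (pow_le_pow_of_le_one (by norm_num) (by norm_num) (by omega))
  · have := Real.hasSum_arctan (x := r) (by rw [Real.norm_of_nonneg r0]; linarith)
    simpa using Complex.hasSum_ofReal.2 this

theorem cc_pi : CC fun _ : α => (Real.pi : ℂ) := by
  refine ((Cc.rat EO.true 4).mul ((cc_arctan (1 / 2) (by norm_num) le_rfl).add
    (cc_arctan (1 / 3) (by norm_num) (by norm_num)))).of_eq fun _ _ => ?_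
  have h := Real.arctan_inv_2_add_arctan_inv_3
  have e : Real.pi = 4 * (Real.arctan ((1 / 2 : ℚ) : ℝ) + Real.arctan ((1 / 3 : ℚ) : ℝ)) := by
    push_cast
    rw [one_div, one_div, h]
    ring
  rw [e]
  push_cast
  rfl

theorem exp_tail {z : ℂ} {M : ℕ} (h : Complex.normSq z < M) (n : ℕ) :
    ‖Complex.exp z - ∑ i ∈ Finset.range n, z ^ i / (i.factorial : ℂ)‖ ≤
      9 ^ M * 2 * (1 / 2 : ℝ) ^ n := by
  have hz : ‖z‖ ≤ M := by
    rw [Complex.normSq_eq_norm_sq] at h
    by_contra! k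
    rcases Nat.eq_zero_or_pos M with rfl | p
    · simp at h
      nlinarith
    · have : (1 : ℝ) ≤ M := by exact_mod_cast p
      nlinarith
  have e1 : Real.exp (2 * ‖z‖) ≤ 9 ^ M := by
    calc Real.exp (2 * ‖z‖) ≤ Real.exp ((2 * M : ℕ) * 1) :=
          Real.exp_le_exp.2 (by push_cast; linarith)
      _ = Real.exp 1 ^ (2 * M) := Real.exp_nat_mul _ _
      _ ≤ 3 ^ (2 * M) := pow_le_pow_left₀ (Real.exp_pos _).le Real.exp_one_lt_three.le _
      _ = 9 ^ M := by rw [pow_mul]; norm_num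
  have s : HasSum (fun i => z ^ i / (i.factorial : ℂ)) (Complex.exp z) := by
    rw [Complex.exp_eq_exp_ℂ]
    exact NormedSpace.expSeries_div_hasSum_exp z
  have t : HasSum (fun i => 9 ^ M * (1 / 2 : ℝ) ^ n * (1 / 2 : ℝ) ^ i)
      (9 ^ M * (1 / 2 : ℝ) ^ n * 2) := hasSum_geometric_two.mul_left _
  refine (((hasSum_nat_add_iff' n).2 s).norm_le_of_bounded t fun i => ?_).trans_eq (by ring)
  rw [norm_div, norm_pow, Complex.norm_natCast, mul_assoc, ← pow_add, add_comm n]
  calc ‖z‖ ^ (i + n) / (i + n).factorial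
      = (2 * ‖z‖) ^ (i + n) / (i + n).factorial * (1 / 2 : ℝ) ^ (i + n) := by
        rw [div_mul_eq_mul_div, ← mul_pow]
        congr 2
        ring
    _ ≤ _ := mul_le_mul_of_nonneg_right
        ((Real.pow_div_factorial_le_exp _ (by positivity) _).trans e1) (by positivity)

theorem cc_exp (g : α → ℂ) (hg : CC g) : CC fun a => Complex.exp (g a) := by
  have hf : CC fun w : α × ℕ => (w.2.factorial : ℂ) :=
    (CC.prod (f := fun w : α × ℕ => ((w.2 + 1 : ℕ) : ℂ)) (Cc.nat EO.true (by fun_prop))).of_eq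
      fun w _ => by
        beta_reduce
        rw [← Nat.cast_prod, Finset.prod_range_add_one_eq_factorial]
  have ht : CC fun w : α × ℕ => g w.1 ^ w.2 / (w.2.factorial : ℂ) :=
    (CC.npow (hg.comp (by fun_prop)) (by fun_prop)).div hf
      fun w _ _ => Nat.cast_ne_zero.2 w.2.factorial_ne_zero
  have hD : EO fun (w : α × ℕ) _ => Complex.normSq (g w.1) < w.2 :=
    ((hg.comp (s := Prod.fst) (by fun_prop)).normSq.lt
      (Cr.pq EO.true (PQ.nat (f := fun w : α × ℕ => w.2) (by fun_prop)))).of_iff fun _ _ => by simp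
  have hD' := hD.comp (f := fun w : (α × ℕ) × ℕ => w.1) (by fun_prop)
  have h9 : CR fun w : (α × ℕ) × ℕ => (9 : ℝ) ^ w.1.2 :=
    (CC.npow (g := fun _ : (α × ℕ) × ℕ => ((9 : ℚ) : ℂ)) (n := fun w => w.1.2) (Cc.rat EO.true _)
      (by fun_prop)).1.of_eq fun w _ => by
        have : (((9 : ℚ) : ℂ)) ^ w.1.2 = (((9 : ℝ) ^ w.1.2 : ℝ) : ℂ) := by push_cast; rfl
        beta_reduce
        rw [this, Complex.ofReal_re]
  have he : CR fun w : (α × ℕ) × ℕ => (9 : ℝ) ^ w.1.2 * 2 * (1 / 2 : ℝ) ^ w.2 :=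
    (h9.mul (by simpa using Cr.pq EO.true (PQ.rat 2))).mul (cr_half (by fun_prop))
  have key : Cc (fun (w : α × ℕ) _ => Complex.normSq (g w.1) < w.2)
      fun w _ => Complex.exp (g w.1) :=
    Cc.lim (s := fun w _ => ∑ i ∈ Finset.range w.2, g w.1.1 ^ i / (i.factorial : ℂ))
      (e := fun w _ => (9 : ℝ) ^ w.1.2 * 2 * (1 / 2 : ℝ) ^ w.2)
      ((ht.sum.comp (s := fun w : (α × ℕ) × ℕ => (w.1.1, w.2)) (by fun_prop)).mono hD'
        fun _ _ _ => trivial) (he.congr hD' fun _ _ _ => ⟨trivial, rfl⟩)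
      (fun w _ n h => exp_tail h n) fun w _ _ => by
        simpa using (tendsto_pow_atTop_nhds_zero_of_lt_one (r := (1 / 2 : ℝ)) (by norm_num)
          (by norm_num)).const_mul ((9 : ℝ) ^ w.2 * 2)
  exact (Cc.glue (E := fun a (M : ℕ) _ => Complex.normSq (g a) < M)
    (f := fun a _ => Complex.exp (g a)) key).mono EO.true fun a _ _ => exists_nat_gt _

theorem cc_tz : CC tz :=
  ((Cc.int EO.true (r := fun t : TC => t.1) (by fun_prop)).add ((Cc.I EO.true).mul
    (cr_sqrt (m := fun t : TC => t.2.1) (by fun_prop)).ofReal)).div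
    ((Cc.nat EO.true (r := fun t : TC => t.2.2) (by fun_prop)).add
      (by simpa using Cc.rat EO.true 1)) fun t _ _ => Nat.cast_add_one_ne_zero _

theorem cc_qq : CC fun t : TC => X.qq 1 (tau t) :=
  (cc_exp (fun t => (2 : ℚ) * Real.pi * Complex.I * tz t)
    ((((Cc.rat EO.true 2).mul cc_pi).mul (Cc.I EO.true)).mul cc_tz)).of_eq
    fun t _ => by simp [Function.Periodic.qParam, tau]

end Pool.Agent.Lib.MP_d6ddbd_nt.GC
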