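import Pool.Agent.Lib.MP_d6ddbd_nt.GC.Stmt
import Pool.Agent.Lib.MP_d6ddbd_nt.GC.EO

/-!
The modular parametrisation is computable: the statement.
-/

set_option autoImplicit false

namespace Pool.Agent.Lib.MP_d6ddbd_nt.GC

/-- The coordinates of the points are computable. -/
def SerStmt : Prop := (CC fun t : TC => E11.XX (tau t)) ∧ CC fun t : TC => E11.YY (tau t)

end Pool.Agent.Lib.MP_d6ddbd_nt.GC
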