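import Pool.Agent.Lib.MP_d6ddbd_nt.KA.StX
import Pool.Agent.Lib.MP_d6ddbd_nt.KI.Pt
import Pool.Agent.Lib.MP_d6ddbd_nt.K11.KB1
import Pool.Agent.Lib.MP_215a10_lc.Dec.Check1

/-!
A certificate for the rank of a quadratic twist of `X₀(11)`: definitions and statements.
-/

set_option autoImplicit false

open UpperHalfPlane Pointwise
open Pool.Agent.Lib.MP_9177b7_ag.CM (sp)
open Pool.Agent.Lib.MP_d6ddbd_nt.K11
open Pool.Agent.Lib.MP_d6ddbd_nt.KI (tw Cy Cb Sel Wq Gp KolI KnI Pn AtK Bd)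
open Pool.Agent.Lib.MP_d6ddbd_nt.KI.Pts (Inv)
open Pool.Agent.Lib.MP_d6ddbd_nt.KA (TD Blk wA twA Gq QA QS HT PS NN Qd hQ un Ok Rl Core)
open Pool.Agent.Sand.Check (PR PP RE)

noncomputable section

namespace Pool.Agent.Lib.MP_d6ddbd_nt.GC

/-! ### Lattices and points of the upper half plane -/

/-- The norm of `c * om q - v`. -/
def nc (q c : ℕ) (v : ℤ) : ℤ := v ^ 2 - c * v + c ^ 2 * ((q + 1) / 4 : ℕ)

/-- The lattice with basis `u`, `c * om q - v`. -/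
def La (q c u : ℕ) (v : ℤ) : Submodule ℤ ℂ := sp u (c * om q - v)

/-- The quadratic form of the lattice is integral and primitive. -/
def Prim (q c u : ℕ) (v : ℤ) : Prop :=
  (u : ℤ) ∣ nc q c v ∧ Int.gcd (Int.gcd u (c - 2 * v)) (nc q c v / u) = 1

/-- Good representatives. -/
def Good (q n : ℕ) (b : ℤ) (e : ℕ × ℤ) : Prop :=
  0 < e.1 ∧ e.1.Coprime (22 * n * q) ∧ (e.1 : ℤ) ∣ nc q 1 e.2 ∧ (11 : ℤ) ∣ e.2 - b

/-- Codes of quadratic irrationalities. -/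
abbrev TC : Type := ℤ × ℕ × ℕ

/-- The number with a given code. -/
def tz (t : TC) : ℂ := (t.1 + Complex.I * Real.sqrt (t.2.1 + 1)) / (t.2.2 + 1)

theorem tz_im (t : TC) : 0 < (tz t).im := by
  have h : 0 < Real.sqrt (t.2.1 + 1) := Real.sqrt_pos.2 (by positivity)
  have e : tz t = ((t.2.2 + 1 : ℝ)⁻¹ : ℝ) * (t.1 + Complex.I * Real.sqrt (t.2.1 + 1)) := by
    rw [tz, div_eq_inv_mul]
    push_cast
    rfl
  rw [e, Complex.im_ofReal_mul]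
  refine mul_pos (by positivity) ?_
  simpa using h

/-- The point of the upper half plane with a given code. -/
def tau (t : TC) : ℍ := ⟨tz t, tz_im t⟩

/-- The code of the point `(2 r - 1 + √-q) / (2 c m)`, where `a m` is the norm of `om q - r`. -/
def tc (q c : ℕ) (e : ℕ × ℤ) : TC := (2 * e.2 - 1, q - 1, 2 * c * ((nc q 1 e.2).natAbs / e.1) - 1)

/-- A weighted sum of points of the curve. -/
def Sm (L : List (ℤ × TC)) : Pt := (L.map fun e => e.1 • E11.phi (tau e.2)).sum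

/-- The weights of the conductors at `2`. -/
def wt (δ : ℤ) (i t : ℕ) : ℤ :=
  if δ = 1 then if i = 1 ∧ t = 1 then 1 else 0
  else if δ = -1 then if i = 4 ∧ t = 1 then 1 else if i = 4 ∧ t = 3 then -1 else 0
  else if i = 8 ∧ (t = 1 ∨ t = if δ = 2 then 7 else 3) ∨ i = 4 ∧ (t = 1 ∨ t = 3) ∨ i = 2 ∧ t = 1
    then 1 else 0

/-- The weighted list of the Heegner point. -/
def HL (δ : ℤ) (q n : ℕ) (T : List (ℕ × ℤ)) : List (ℤ × TC) :=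
  T.flatMap fun e => [1, 2, 4, 8].map fun i =>
    (5 * jacobiSym e.1 n * wt δ i (e.1 % 8), tc q (i * n) e)

/-- The Heegner point. -/
def HP (δ : ℤ) (q n : ℕ) (T : List (ℕ × ℤ)) : Pt := Sm (HL δ q n T)

section Pic

variable (q : ℕ) [Fact (q % 4 = 3)]

/-- The class of a representative. -/
def cy (n : ℕ) (e : ℕ × ℤ) : Pic q (8 * n) := cls q (8 * n) (La q (8 * n) e.1 ((8 * n : ℕ) * e.2))

/-- Systems of representatives of the class group of conductor `8 n`. -/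
def Sy (n : ℕ) (b : ℤ) (T : List (ℕ × ℤ)) : Prop :=
  (∀ e ∈ T, Good q n b e) ∧ (T.map (cy q n)).Nodup ∧ ∀ y, y ∈ T.map (cy q n)

/-- The genus character. -/
structure Chr (n : ℕ) (χ : Pic q n → ℤ) : Prop where
  one : χ 1 = 1
  mul : ∀ x y, χ (x * y) = χ x * χ y
  lam : ∀ (v : ℕ) (r : ℤ), v.Prime → v ≠ 2 → v ≠ q → ¬ v ∣ n → Rt q v r →
    χ (lam q n v r) = jacobiSym v n

end Pic

/-- Reduction theory. -/
def RedStmt : Prop := ∀ (q : ℕ) [Fact (q % 4 = 3)], q.Prime → 44 < q → ∀ c : ℕ, c ≠ 0 →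
  (∀ (u : ℕ) (v : ℤ), 0 < u → (Ivt q c (La q c u v) ↔ Prim q c u v)) ∧
  ∀ x : Pic q c, ∃ (u : ℕ) (v : ℤ), 0 < u ∧ u ≤ c * q ∧ |v| ≤ c * q ∧ Cl x (La q c u v)

/-- Every class has a good representative. -/
def RepStmt : Prop := ∀ (q : ℕ) [Fact (q % 4 = 3)], q.Prime → 44 < q → ∀ (n : ℕ) (b : ℤ), n ≠ 0 →
  ∀ y : Pic q (8 * n), ∃ e, Good q n b e ∧ Cl y (La q (8 * n) e.1 ((8 * n : ℕ) * e.2))

/-- The classes of a good representative and their characters. -/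
def ChrStmt : Prop := ∀ (q : ℕ) [Fact (q % 4 = 3)], q.Prime → 44 < q →
  ∀ (n : ℕ) (b : ℤ) (e : ℕ × ℤ), n ≠ 0 → Good q n b e →
    (∀ c : ℕ, c ∣ 8 * n → Cl (res c (cy q n e)) (La q c e.1 (c * e.2))) ∧
    Cl (cy q n e) (La q (8 * n) e.1 ((8 * n : ℕ) * e.2)) ∧
    (∀ N, NN N → N (res 8 (cy q n e)) = un e.1) ∧
    ∀ χ, Chr q n χ → χ (res n (cy q n e)) = jacobiSym e.1 n

/-- The point of a class. -/
def PhiStmt : Prop := ∀ (q : ℕ) [Fact (q % 4 = 3)], q.Prime → 44 < q →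
  ∀ (n c : ℕ) (b : ℤ) (e : ℕ × ℤ) (x : Pic q c), Ok n → c ∣ 8 * n → Rt q 11 b → Good q n b e →
    Cl x (La q c e.1 (c * e.2)) → hQ E11.Pp b x = E11.phi (tau (tc q c e)) ∧
      ∀ x' : Pic q c, hQ E11.Pp b x' = hQ E11.Pp b x → x' = x

/-- The twisted sum over the class group. -/
def SumStmt : Prop := ∀ (q : ℕ) [Fact (q % 4 = 3)], q.Prime → 44 < q →
  ∀ a t0 (b r δ : ℤ) (N : Pic q 8 →* (ZMod 8)ˣ) P (n : ℕ) T χ (s : Finset (Pic q n)), Rt q 11 b →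
    NN N → PS E11.Pp a t0 b r N P → (δ = 1 ∨ δ = -1 ∨ δ = 2 ∨ δ = -2) → Ok n → Sy q n b T →
    Chr q n χ → (∀ x, x ∈ s) → ∑ x ∈ s, χ x • Qd δ P n x = HP δ q n T

/-- The twisted system, with the sums made explicit. -/
def PAStmt : Prop := ∀ Pp a t0, XI Pp a t0 → ∀ (q : ℕ) [Fact (q % 4 = 3)], QF q →
  ∀ (b δ : ℤ) Q (k : ℕ → ℕ), Rt q 11 b → QS (q := q) δ a b Q → KA.AdA q k →
    ∃ S ρ ν j, HT q δ k a S ρ ν j ∧ ∀ (D : Finset ℕ) (n : ℕ), Cd k D → n = ∏ l ∈ D, l →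
      ∃ χ, Chr q n χ ∧ ∀ s : Finset (Pic q n), (∀ x, x ∈ s) →
        S D (KK.chi D) = ∑ x ∈ s, χ x • Q n x

/-! ### The theorem of Kolyvagin -/

/-- The classes of level `k`. -/
structure KZ (q : ℕ) (d c : ℤ) (k m : ℕ) (W : Finset ℂ) (x : Finset ℕ → G → Pt) : Prop where
  cy : ∀ n, KnI m q c n → Cy (twA q d n) k (x n)
  sel : ∀ n, KnI m q c n → (∀ p ∈ n, Gp W p) → Sel (twA q d n) k n (2 • x n)
  atp : AtK m q c x

/-- The arithmetic conditions of the certificate. -/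
structure Ar (d δ c : ℤ) (q : ℕ) (b : ℤ) : Prop where
  td : TD d δ c
  nb : ¬ Blk d
  qd : QD q c
  m8 : q % 8 = 7
  gq : Even δ → Gq q
  rt : Rt q 11 b

/-- The odd part of the conductor. -/
def cn (d c : ℤ) : ℕ := (KA.ee d * c).natAbs

/-- The system of level `k`, with its bottom point. -/
def SysStmt : Prop := ∀ (L : Type) [Field L] [NumberField L] (θ : L), Cub θ →
  ∀ (q : ℕ) [Fact (q % 4 = 3)] (d δ c b : ℤ) T (s : ℕ), Ar d δ c q b → Sy q (cn d c) b T →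
    HP δ q (cn d c) T ∈ Inv (twA q d ∅) ∧
    ∃ k m W x S, ∃ u : ℤ, s < k ∧ k ≤ m ∧ Wq q m W ∧ KZ q d c k m W x ∧ AlgP S ∧
      (∀ σ, x ∅ σ = tw (twA q d ∅) σ S - S) ∧ Odd u ∧ 2 ^ k • S = u • HP δ q (cn d c) T ∧
      (QA θ q c → ∀ n, KnI m q c n → Core θ q d c n →
        (∀ σ, 2 ^ (s + 1) • x n σ = 0) ∧ ¬ Cb (twA q d n) (2 ^ s • x n))

/-- The choice of the next prime. -/
def ChStmt : Prop := ∀ (q : ℕ) (d δ c : ℤ) (k m : ℕ) (W : Finset ℂ) (n : Finset ℕ) ξ y z z'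
  (N : ℕ), TD d δ c → ¬ Blk d → QD q c → q % 8 = 7 → k ≠ 0 → k ≤ m → Wq q m W → Pn q c n →
    Sel d 1 n ξ → ¬ Cb d ξ → Sel d k n y →
    (y = 0 ∨ ¬ Cb d (2 ^ (k - 1) • y) ∧ ¬ Cb d (ξ - 2 ^ (k - 1) • y)) → Sel d k n z →
    Sel (-(q * d)) k n z' →
    ∃ (p : ℕ) (O : ValuationSubring ℂ) (φ : G), N < p ∧ KolI m q c p ∧ Gp W p ∧ Ov O p ∧
      Frob O p φ ∧ ξ (φ * φ) ≠ 0 ∧ y (φ * φ) = 0 ∧
      (∀ u : ℤ, u • z (φ * φ) = 0 → ∃ v : ℤ, Cb d ((2 * u) • z - v • y)) ∧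
      ∀ u : ℤ, u • z' (φ * φ) = 0 → Cb (-(q * d)) ((2 * u) • z')

/-- The descending chain. -/
def KolStmt : Prop := ∀ (q : ℕ) (d δ c : ℤ), TD d δ c → ¬ Blk d → QD q c → q % 8 = 7 →
  ∃ A : ℕ, ∀ (k m : ℕ) (W : Finset ℂ) x y, k ≠ 0 → k ≤ m → Wq q m W → KZ q d c k m W x →
    Sel d k ∅ y → ¬ Cb d (2 ^ (k - 1) • y) → Rl q d x y ∅ A

/-- A uniform exponent for the divisible points. -/
def HtStmt : Prop := ∃ N : ℕ, N ≠ 0 ∧ ∀ d : ℤ, d ≠ 0 → ∀ P ∈ Inv d, N • P ≠ 0 →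
  ∃ j : ℕ, ∀ R ∈ Inv d, P ≠ 2 ^ j • R

/-! ### Computability -/

/-- A sum of points that is not zero can be recognised. -/
def NumStmt : Prop := RE fun L : List (ℤ × TC) => Sm L ≠ 0

/-- The arithmetic conditions are decidable. -/
def ArStmt : Prop :=
  (PP fun w : ℤ × ℤ × ℤ × ℕ × ℤ => Ar w.1 w.2.1 w.2.2.1 w.2.2.2.1 w.2.2.2.2) ∧
  (PR fun w : ℤ × ℤ => cn w.1 w.2) ∧ (PR fun w : ℕ × ℕ × ℕ × ℤ => tc w.1 w.2.1 w.2.2) ∧
  ∃ F : ℤ × ℕ × ℕ × List (ℕ × ℤ) → List (ℤ × TC), PR F ∧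
    ∀ δ q n T, Ok n → F (δ, q, n, T) = HL δ q n T

/-- Systems of representatives exist and can be recognised. -/
def SyStmt : Prop :=
  (RE fun w : ℕ × ℕ × ℤ × List (ℕ × ℤ) => QF w.1 ∧ Ok w.2.1 ∧ Rt w.1 11 w.2.2.1 ∧
    ∃ _ : Fact (w.1 % 4 = 3), Sy w.1 w.2.1 w.2.2.1 w.2.2.2) ∧
  ∀ (q : ℕ) [Fact (q % 4 = 3)] (n : ℕ) (b : ℤ), QF q → Ok n → ∃ T, Sy q n b T

/-! ### The end -/

/-- What the certificate certifies. -/
def Rk (d : ℤ) : Prop := d ≠ 0 ∧ (wA d ≠ -1 → (Tw d).Finite) ∧ (wA d = -1 → (Tw d).Infinite) ∧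
  ∀ P ∈ Inv d, ∀ Q ∈ Inv d, (∃ R ∈ Inv d, P = 2 • R) ∨ (∃ R ∈ Inv d, Q = 2 • R) ∨
    ∃ R ∈ Inv d, P - Q = 2 • R

def CertStmt : Prop := ∃ C : ℤ → Prop, REPred C ∧ (∀ d, C d → Rk d) ∧
  ∀ d, Squarefree d → ¬ Blk d → Bd d → C d

end Pool.Agent.Lib.MP_d6ddbd_nt.GC
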